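import Mathlib
import Pool.Agent.R395.CT.Light
import Pool.Agent.R395.CT.Trans
import Pool.Agent.R395.CT.Alg

/-!
# The partial algorithm of helper395 for `x³ + y³ = A`

The proof is that of helper395 in `MP_d6ddbd_nt/CubicTwists`, stated with the criterion `NoSplit`.
-/

set_option autoImplicit false

open scoped Classical

namespace Pool.Agent.R432.JG.Alg

/-- the set `Z_f(ℚ)` of the rational zeros of `f = ∑ L_(i,j) x^i y^j` -/
def Zeros (L : List (List ℤ)) : Set (ℚ × ℚ) := {p : ℚ × ℚ |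
  ∑ i ∈ Finset.range L.length, ∑ j ∈ Finset.range (L.getD i []).length,
    (((L.getD i []).getD j 0 : ℤ) : ℚ) * p.1 ^ i * p.2 ^ j = 0}

/-- the polynomial `x³ + y³ - A` -/
def cubic (A : ℤ) : List (List ℤ) := [[-A, 0, 0, 1], [], [], [1]]

theorem cubic_eq (A : ℤ) : cubic A = Pool.Agent.R395.CT.cubic A := rfl

theorem zeros_eq (A : ℤ) : Zeros (cubic A) = Pool.Agent.R395.CT.Sol A := by
  ext ⟨x, y⟩
  unfold Zeros cubic Pool.Agent.R395.CT.Sol
  simp only [Set.mem_ofPred_eq, List.length_cons, List.length_nil, Finset.sum_range_succ,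
    Finset.sum_range_zero, List.getD_cons_zero, List.getD_cons_succ, List.getD_nil]
  push_cast
  constructor
  · intro h
    linear_combination h
  · intro h
    linear_combination h

theorem sol_two : (Pool.Agent.R395.CT.Sol 2).Finite := by
  have h1 := (Pool.Agent.R395.CT.triv3_of (Pool.Agent.R395.CT.cls_prime Nat.prime_two (by norm_num))
    (Pool.Agent.R395.CT.noSplit_prime Nat.prime_two)).1
  exact Pool.Agent.R395.CT.sol_finite (by norm_num) h1

theorem exists_phi :
    ∃ φ : List (List ℤ) →. Bool, Partrec φ ∧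
    (∀ L, ∀ r ∈ φ L, (r = true ↔ (Zeros L).Infinite)) ∧
    (∀ A : ℤ, (Zeros (cubic A)).Infinite → (φ (cubic A)).Dom) ∧
    (∀ (D : ℕ) (m : ℤ), Pool.Agent.Y703.CT.Cls D → m ≠ 0 →
      (false ∈ φ (cubic (D * m ^ 3)) ↔ Pool.Agent.Y703.CT.NoSplit D)) := by
  obtain ⟨φ, hφ, hdom, hval⟩ := Pool.Agent.R395.CT.exists_alg
  -- soundness
  have hinf : ∀ L, Pool.Agent.R395.CT.PInf L → (Zeros L).Infinite := by
    intro L h
    obtain ⟨A, rfl, hA⟩ := Pool.Agent.R395.CT.pInf_sound h
    rw [← cubic_eq, zeros_eq]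
    exact hA
  have hfin : ∀ L, Pool.Agent.R395.CT.PFin L → ¬ (Zeros L).Infinite := by
    rintro L ⟨⟨D, m⟩, h1, h2, h3⟩
    simp only at h1 h2 h3
    rw [h3, ← cubic_eq, zeros_eq]
    have e : (D : ℤ) * (m * m * m) = (D : ℤ) * m ^ 3 := by ring
    rw [e, Pool.Agent.R395.CT.sol_scale h2, Set.not_infinite]
    rcases h1 with h1 | ⟨h1, h4⟩
    · rw [h1]
      exact Pool.Agent.R395.CT.sol_one
    · exact Pool.Agent.R395.CT.sol_finite (by exact_mod_cast h1.1.1)
        (Pool.Agent.R395.CT.triv3_of h1 h4).1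
  have hsound : ∀ L, ∀ r ∈ φ L, (r = true ↔ (Zeros L).Infinite) := by
    intro L r hr
    rcases hval L r hr with ⟨rfl, h⟩ | ⟨rfl, h⟩
    · exact ⟨fun _ => hinf L h, fun _ => rfl⟩
    · exact ⟨fun h' => Bool.noConfusion h', fun h' => absurd h' (hfin L h)⟩
  -- completeness for infinitely many zeros
  have hcomp : ∀ A : ℤ, (Zeros (cubic A)).Infinite → (φ (cubic A)).Dom := by
    intro A hA
    rw [zeros_eq] at hA
    exact (hdom _).2 (Or.inl (Pool.Agent.R395.CT.pInf_complete sol_two hA))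
  -- the class
  have hcls : ∀ (D : ℕ) (m : ℤ), Pool.Agent.Y703.CT.Cls D → m ≠ 0 →
      (false ∈ φ (cubic (D * m ^ 3)) ↔ Pool.Agent.Y703.CT.NoSplit D) := by
    intro D m hD hm
    have hcf : Pool.Agent.R395.CT.CF D := ⟨hD.1.1, hD.1.2.2⟩
    constructor
    · intro h
      rcases hval _ _ h with ⟨h1, -⟩ | ⟨-, ⟨⟨D', m'⟩, h1, h2, h3⟩⟩
      · exact Bool.noConfusion h1
      · simp only at h1 h2 h3
        have h4 : (D : ℤ) * m ^ 3 = (D' : ℤ) * m' ^ 3 := by
          have := Pool.Agent.R395.CT.cubic_inj h3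
          rw [this]
          ring
        have hcf' : Pool.Agent.R395.CT.CF D' := by
          rcases h1 with h1 | ⟨h1, -⟩
          · rw [h1]
            refine ⟨one_ne_zero, fun p hp hd => ?_⟩
            have h5 : 1 < p ^ 3 := Nat.one_lt_pow (by norm_num) hp.one_lt
            have := Nat.le_of_dvd one_pos hd
            omega
          · exact ⟨h1.1.1, h1.1.2.2⟩
        have h5 := Pool.Agent.R395.CT.CF.unique hcf hcf' hm h2 h4
        subst h5
        rcases h1 with h1 | ⟨-, h1⟩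
        · obtain ⟨-, -, -, q, hq, -, hqd, -⟩ := hD
          rw [h1] at hqd
          exact absurd (Nat.dvd_one.1 hqd) hq.one_lt.ne'
        · exact h1
    · intro h
      have hF : Pool.Agent.R395.CT.PFin (cubic (D * m ^ 3)) := by
        refine ⟨⟨D, m⟩, Or.inr ⟨hD, h⟩, hm, ?_⟩
        show cubic (D * m ^ 3) = Pool.Agent.R395.CT.cubic ((D : ℤ) * (m * m * m))
        rw [cubic_eq]
        congr 1
        ring
      have hd := (hdom (cubic (D * m ^ 3))).2 (Or.inr hF)
      obtain ⟨r, hr⟩ := Part.dom_iff_mem.1 hd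
      rcases hval _ _ hr with ⟨-, h1⟩ | ⟨h1, -⟩
      · exact absurd (hinf _ h1) (hfin _ hF)
      · rw [h1] at hr
        exact hr
  exact ⟨φ, hφ, hsound, hcomp, hcls⟩

end Pool.Agent.R432.JG.Alg
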