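import Pool.Agent.R432.JG.Ext

/-!
# Infinitely many leaves, and the theorem over `ℚ(∛l : l ∈ M ∪ S)`
-/

set_option autoImplicit false

open scoped Classical

namespace Pool.Agent.R432.JG

open Finset Filter
open Pool.Agent.Y703.CX (LamP lam)
open Pool.Agent.Y703.CT (Cls NoSplit Base)
open Pool.Agent.R432.Q (CubeMod Free Adm)

theorem pre_union {D : ℕ} {M S : Finset ℕ} {a : ℕ → ℕ} (hM : ∀ q ∈ M, q.Prime ∧ q % 9 = 1)
    (hnd : ∀ l ∈ M, ¬ l ∣ D) (hS : AdmM D M a S) : Pre D (M ∪ S) := by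
  refine ⟨fun l hl => ?_, fun l hl => ?_, fun l hl => ?_⟩ <;> rcases mem_union.1 hl with h1 | h1
  · exact (hM l h1).1
  · exact hS.pr l h1
  · exact (hM l h1).2
  · exact hS.nine l h1
  · exact hnd l h1
  · exact hS.nd l h1

theorem moreM {D : ℕ} {M S : Finset ℕ} {a : ℕ → ℕ}
    (hM : ∀ q ∈ M, q.Prime ∧ q % 9 = 1) (hC : Cl M D) (hS : AdmM D M a S) {p : ℕ}
    (hp : p.Prime) (hpD : p ∣ D) :
    {l : ℕ | l ∉ S ∧ AdmM D M (fun x => if x = l then p else a x) (insert l S)}.Infinite := by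
  obtain ⟨hsq, hcl, hndM⟩ := hC
  have hpre := pre_union hM hndM hS
  set t : {l : ℕ // l ∈ M ∪ S} → ZMod 3 := fun _ => 1 with ht
  have h3 := tw_cls (t := t) hcl hpre
  have h4 : D ∣ twN D (M ∪ S) t := Dvd.intro _ rfl
  have h5 : ∀ q ∈ M ∪ S, q ∣ twN D (M ∪ S) t := by
    intro q hq
    unfold twN
    refine Dvd.dvd.mul_left ?_ _
    have h6 : ((⟨q, hq⟩ : {l : ℕ // l ∈ M ∪ S}).1 ^ (t ⟨q, hq⟩).val) ∣
        ∏ i : {l : ℕ // l ∈ M ∪ S}, i.1 ^ (t i).val :=
      Finset.dvd_prod_of_mem (fun i : {l : ℕ // l ∈ M ∪ S} => i.1 ^ (t i).val)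
        (Finset.mem_univ (⟨q, hq⟩ : {l : ℕ // l ∈ M ∪ S}))
    have h7 : ((1 : ZMod 3)).val = 1 := rfl
    simpa [ht, h7] using h6
  have hA0 : Adm (twN D (M ∪ S) t) a ∅ := ⟨fun l hl => absurd hl (Finset.notMem_empty l),
    fun l hl => absurd hl (Finset.notMem_empty l), fun l hl => absurd hl (Finset.notMem_empty l),
    fun l hl => absurd hl (Finset.notMem_empty l), fun l hl => absurd hl (Finset.notMem_empty l),
    fun l hl => absurd hl (Finset.notMem_empty l), fun l hl => absurd hl (Finset.notMem_empty l),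
    fun l hl => absurd hl (Finset.notMem_empty l)⟩
  refine (Pool.Agent.R432.Q.more h3 hA0 hp (hpD.trans h4)).mono ?_
  rintro l ⟨-, hA⟩
  have hl : l ∈ insert l (∅ : Finset ℕ) := Finset.mem_insert_self _ _
  have k1 := hA.pr l hl
  have k2 := hA.nine l hl
  have k3 := hA.nd l hl
  have k4 := hA.att l hl
  have k5 := hA.free l hl
  simp only [if_true] at k4 k5
  have hlS : l ∉ S := fun h => k3 (h5 l (mem_union_right _ h))
  have hlM : l ∉ M := fun h => k3 (h5 l (mem_union_left _ h))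
  have hlD : ¬ l ∣ D := fun h => k3 (h.trans h4)
  have hpS : ∀ m ∈ S, m ≠ p := by
    rintro m hm rfl
    exact hS.nd m hm hpD
  have ha : ∀ m ∈ S, (if m = l then p else a m) = a m := fun m hm =>
    if_neg fun h => hlS (by rw [← h]; exact hm)
  refine ⟨hlS, ⟨fun x hx => ?_, fun x hx => ?_, fun x hx => ?_, fun x hx => ?_, fun x hx => ?_,
    fun x hx => ?_, fun x hx => ?_, fun x hx r hr hrD hra => ?_, fun x hx y hy hxy => ?_⟩⟩
  · rcases Finset.mem_insert.1 hx with rfl | h
    · exact k1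
    · exact hS.pr x h
  · rcases Finset.mem_insert.1 hx with rfl | h
    · exact k2
    · exact hS.nine x h
  · rcases Finset.mem_insert.1 hx with rfl | h
    · exact hlD
    · exact hS.nd x h
  · rcases Finset.mem_insert.1 hx with rfl | h
    · exact hlM
    · exact hS.nM x h
  · rcases Finset.mem_insert.1 hx with rfl | h
    · rw [if_pos rfl]
      exact hp
    · rw [ha x h]
      exact hS.ap x h
  · rcases Finset.mem_insert.1 hx with rfl | h
    · rw [if_pos rfl]
      exact hpD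
    · rw [ha x h]
      exact hS.ad x h
  · rcases Finset.mem_insert.1 hx with rfl | h
    · rw [if_pos rfl]
      exact k4.1
    · rw [ha x h]
      exact hS.att x h
  · rcases Finset.mem_insert.1 hx with rfl | h
    · rw [if_pos rfl] at hra
      refine k5 r hr ?_ hra
      rcases hrD with h1 | h1
      · exact h1.trans h4
      · exact h5 r (mem_union_left _ h1)
    · rw [ha x h] at hra
      exact hS.free x h r hr hrD hra
  · rcases Finset.mem_insert.1 hx with rfl | h <;> rcases Finset.mem_insert.1 hy with rfl | h'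
    · exact absurd rfl hxy
    · exact (k5 y (hS.pr y h') (h5 y (mem_union_right _ h')) (hpS y h')).2
    · exact (k5 x (hS.pr x h) (h5 x (mem_union_right _ h)) (hpS x h)).1
    · exact hS.pw x h y h' hxy

end Pool.Agent.R432.JG
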