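import Pool.Agent.R432.JG.G5
import Pool.Agent.R333.BR.Ord
import Pool.Agent.R333.BR.Bad

/-!
# From the Euler product over the good places to the `L`-function with all its Euler factors
-/

set_option autoImplicit false

open NumberField IsDedekindDomain Filter Topology

namespace Pool.Agent.R432.JG

open Pool.Agent.R432.C (ED)
open Pool.Agent.R432.V (qv cn ef qv_eq)
open Pool.Agent.R433.MD (lf LL LL_ne_zero aff_minimal exists_minimal differentiable_lf)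
open Pool.Agent.H341R2.EC (IsModel IsMinAt red aff trc dlt mk_ne)
open Pool.Agent.H921R2.TatePole (nm two_le_nm)

section

variable {L : Type} [Field L] [NumberField L]

theorem fin_places (B : ℕ) (hB : B ≠ 0) :
    {v : HeightOneSpectrum (𝓞 L) | (B : 𝓞 L) ∈ v.asIdeal}.Finite := by
  have hB' : (B : 𝓞 L) ≠ 0 := Nat.cast_ne_zero.2 hB
  have h := Ideal.finite_factors (I := Ideal.span {(B : 𝓞 L)}) (by simpa using hB')
  refine h.subset fun v hv => ?_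
  show v.asIdeal ∣ Ideal.span {(B : 𝓞 L)}
  rw [Ideal.dvd_span_singleton]
  exact hv

/-- the integral model -/
noncomputable def W0 (L : Type) [Field L] [NumberField L] (D : ℕ) : WeierstrassCurve (𝓞 L) :=
  ⟨0, 0, (D : 𝓞 L), 0, 0⟩

theorem W0_map (D : ℕ) : (W0 L D).map (algebraMap (𝓞 L) L) = ED ((D : ℕ) : L) := by
  unfold W0 ED
  simp [WeierstrassCurve.map]

theorem W0_Δ (D : ℕ) : (W0 L D).Δ = -27 * (D : 𝓞 L) ^ 4 := by
  unfold W0
  simp only [WeierstrassCurve.Δ, WeierstrassCurve.b₂, WeierstrassCurve.b₄, WeierstrassCurve.b₆,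
    WeierstrassCurve.b₈]
  ring

theorem ell {D : ℕ} (hD : D ≠ 0) : (ED ((D : ℕ) : L)).IsElliptic := by
  rw [← W0_map]
  constructor
  rw [WeierstrassCurve.map_Δ, W0_Δ, isUnit_iff_ne_zero]
  simp [hD]

theorem min_good {D : ℕ} {v : HeightOneSpectrum (𝓞 L)} (h : ((3 * D : ℕ) : 𝓞 L) ∉ v.asIdeal) :
    (W0 L D).Δ ∉ v.asIdeal ∧ IsMinAt (ED ((D : ℕ) : L)) v (W0 L D) := by
  have hΔ : (W0 L D).Δ ∉ v.asIdeal := by
    rw [W0_Δ]
    intro h1
    apply h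
    have hp := v.isPrime
    push_cast
    rcases hp.mem_or_mem h1 with h2 | h2
    · have h3 : (3 : 𝓞 L) ^ 3 ∈ v.asIdeal := by
        have h4 := neg_mem h2
        have h5 : -(-27 : 𝓞 L) = 3 ^ 3 := by norm_num
        rwa [h5] at h4
      exact Ideal.mul_mem_right _ _ (hp.mem_of_pow_mem _ h3)
    · exact Ideal.mul_mem_left _ _ (hp.mem_of_pow_mem _ h2)
  refine ⟨hΔ, ⟨1, by rw [one_smul, W0_map]⟩, fun W _ n hn => ?_⟩
  cases n with
  | zero => simp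
  | succ n => exact absurd (Ideal.pow_le_self (Nat.succ_ne_zero n) hn) hΔ

theorem aff_W0 (D : ℕ) (v : HeightOneSpectrum (𝓞 L)) :
    aff (red v (W0 L D)) = cn ((D : ℕ) : 𝓞 L) v := by
  unfold aff cn red W0
  refine Nat.card_congr (Equiv.subtypeEquivRight fun p => ?_)
  show p.2 ^ 2 + Ideal.Quotient.mk v.asIdeal 0 * p.1 * p.2 +
    Ideal.Quotient.mk v.asIdeal (D : 𝓞 L) * p.2 = p.1 ^ 3 + Ideal.Quotient.mk v.asIdeal 0 * p.1 ^ 2 +
    Ideal.Quotient.mk v.asIdeal 0 * p.1 + Ideal.Quotient.mk v.asIdeal 0 ↔ _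
  have h0 : Ideal.Quotient.mk v.asIdeal (0 : 𝓞 L) = 0 := map_zero _
  rw [h0]
  constructor
  · intro h
    linear_combination h
  · intro h
    linear_combination h

/-- the Euler factors of two minimal models -/
theorem lf_congr {E : WeierstrassCurve L} (hE : E.IsElliptic)
    {V V' : HeightOneSpectrum (𝓞 L) → WeierstrassCurve (𝓞 L)} {v : HeightOneSpectrum (𝓞 L)}
    (hV : IsMinAt E v (V v)) (hV' : IsMinAt E v (V' v)) (s : ℂ) : lf V s v = lf V' s v := by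
  obtain ⟨h1, h2⟩ := aff_minimal v hE hV hV'
  unfold lf trc dlt
  rw [h1]
  by_cases h3 : (V v).Δ ∈ v.asIdeal
  · rw [if_pos h3, if_pos (h2.1 h3)]
  · rw [if_neg h3, if_neg fun h => h3 (h2.2 h)]

theorem lf_good {D : ℕ} (hD : D ≠ 0)
    {V : HeightOneSpectrum (𝓞 L) → WeierstrassCurve (𝓞 L)} {v : HeightOneSpectrum (𝓞 L)}
    (h : ((3 * D : ℕ) : 𝓞 L) ∉ v.asIdeal) (hV : IsMinAt (ED ((D : ℕ) : L)) v (V v)) (s : ℂ) :
    (lf V s v)⁻¹ = ef ((D : ℕ) : 𝓞 L) s v := by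
  obtain ⟨h1, h2⟩ := min_good h
  rw [lf_congr (V' := fun _ => W0 L D) (ell hD) hV h2 s]
  unfold lf trc dlt ef
  rw [aff_W0, if_neg h1, qv_eq]
  push_cast
  ring_nf

/-- the value of the Euler factor at `s = 1` is not zero -/
theorem lf_one (V : HeightOneSpectrum (𝓞 L) → WeierstrassCurve (𝓞 L))
    (v : HeightOneSpectrum (𝓞 L)) : lf V 1 v ≠ 0 := by
  have hq0 : ((nm v : ℕ) : ℂ) ≠ 0 := by
    have := two_le_nm v
    exact_mod_cast (by omega : nm v ≠ 0)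
  unfold lf
  have h1 : ((nm v : ℕ) : ℂ) ^ (1 - 2 * (1 : ℂ)) = ((nm v : ℕ) : ℂ)⁻¹ := by
    rw [show (1 : ℂ) - 2 * 1 = -1 by ring, Complex.cpow_neg_one]
  rw [h1, Complex.cpow_neg_one]
  have h2 : (1 : ℂ) - (trc V v : ℂ) * ((nm v : ℕ) : ℂ)⁻¹ + dlt V v * ((nm v : ℕ) : ℂ)⁻¹ =
      (((aff (red v (V v)) : ℕ) : ℂ) + dlt V v) * ((nm v : ℕ) : ℂ)⁻¹ := by
    unfold trc
    push_cast
    field_simp
    ring
  rw [h2]
  refine mul_ne_zero ?_ (inv_ne_zero hq0)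
  unfold dlt
  split_ifs with h3
  · have hfin : Finite (𝓞 L ⧸ v.asIdeal) := Ideal.finiteQuotientOfFreeOfNeBot v.asIdeal v.ne_bot
    have hmax := v.isMaximal
    let _ : Field (𝓞 L ⧸ v.asIdeal) := Ideal.Quotient.field v.asIdeal
    have h4 : (red v (V v)).Δ = 0 := by
      unfold red
      rw [WeierstrassCurve.map_Δ]
      exact Ideal.Quotient.eq_zero_iff_mem.2 h3
    obtain ⟨x, y, hxy⟩ := Pool.Agent.R333.BR.exists_pt (red v (V v)) h4
    have h5 : 0 < aff (red v (V v)) := by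
      unfold aff
      rw [Nat.card_pos_iff]
      exact ⟨⟨⟨(x, y), hxy⟩⟩, inferInstance⟩
    rw [add_zero]
    exact_mod_cast h5.ne'
  · exact Nat.cast_add_one_ne_zero _

/-- **The `L`-function with all Euler factors.** -/
theorem full {B D : ℕ} (hB : B ≠ 0) (hBD : 3 * D ∣ B) {G : ℂ → ℂ} (hG : Differentiable ℂ G)
    (hG1 : G 1 ≠ 0)
    (hP : ∀ s : ℂ, 3 / 2 < s.re →
      HasProd (fun u : {u : HeightOneSpectrum (𝓞 L) | (B : 𝓞 L) ∉ u.asIdeal} =>
          ef ((D : ℕ) : 𝓞 L) s u.1) (G s)) :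
    ∃ Λ : ℂ → ℂ, MeromorphicOn Λ Set.univ ∧ AnalyticAt ℂ Λ 1 ∧ Λ 1 ≠ 0 ∧
      ∀ V : HeightOneSpectrum (𝓞 L) → WeierstrassCurve (𝓞 L),
        (∀ v, IsMinAt (ED ((D : ℕ) : L)) v (V v)) → ∀ s : ℂ, 3 / 2 < s.re → Λ s = LL V s := by
  classical
  have hD : D ≠ 0 := by
    rintro rfl
    rw [mul_zero, zero_dvd_iff] at hBD
    exact hB hBD
  have hE : (ED ((D : ℕ) : L)).IsElliptic := ell hD
  obtain ⟨V0, hV0⟩ := exists_minimal (ED ((D : ℕ) : L)) hE
  set T := (fin_places (L := L) B hB).toFinset with hT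
  have hTc : ((T : Set (HeightOneSpectrum (𝓞 L))))ᶜ = {u | (B : 𝓞 L) ∉ u.asIdeal} := by
    ext u
    simp [hT]
  have hmem : ∀ w : HeightOneSpectrum (𝓞 L), ((3 * D : ℕ) : 𝓞 L) ∈ w.asIdeal →
      (B : 𝓞 L) ∈ w.asIdeal := by
    intro w hw
    obtain ⟨c, hc⟩ := hBD
    rw [hc, Nat.cast_mul]
    exact Ideal.mul_mem_right _ _ hw
  have hsplit : ∀ s : ℂ, 3 / 2 < s.re → LL V0 s = (∏ v ∈ T, (lf V0 s v)⁻¹) * G s := by
    intro s hs
    have h1 : HasProd ((fun v => (lf V0 s v)⁻¹) ∘ ((↑) : T → HeightOneSpectrum (𝓞 L)))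
        (∏ v ∈ T, (lf V0 s v)⁻¹) := T.hasProd _
    have h2 : HasProd ((fun v => (lf V0 s v)⁻¹) ∘
        ((↑) : (((T : Set (HeightOneSpectrum (𝓞 L))))ᶜ : Set (HeightOneSpectrum (𝓞 L))) →
          HeightOneSpectrum (𝓞 L))) (G s) := by
      rw [hTc]
      refine (hP s hs).congr_fun fun u => ?_
      exact lf_good hD (fun h3 => u.2 (hmem u.1 h3)) (hV0 u.1) s
    have h3 := HasProd.mul_compl (s := (T : Set (HeightOneSpectrum (𝓞 L)))) h1 h2
    unfold LL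
    exact h3.tprod_eq
  have hVV : ∀ V : HeightOneSpectrum (𝓞 L) → WeierstrassCurve (𝓞 L),
      (∀ v, IsMinAt (ED ((D : ℕ) : L)) v (V v)) → ∀ s : ℂ, LL V s = LL V0 s := by
    intro V hV s
    unfold LL
    exact tprod_congr fun v => by rw [lf_congr hE (hV v) (hV0 v) s]
  have han : ∀ (v : HeightOneSpectrum (𝓞 L)) (z : ℂ), AnalyticAt ℂ (fun s => lf V0 s v) z :=
    fun v z => (differentiable_lf V0 v).analyticAt z
  refine ⟨fun s => (∏ v ∈ T, (lf V0 s v)⁻¹) * G s, fun z _ => ?_, ?_, ?_, fun V hV s hs => ?_⟩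
  · refine MeromorphicAt.fun_mul ?_ (hG.analyticAt z).meromorphicAt
    refine MeromorphicAt.fun_prod fun v _ => ?_
    exact ((han v z).meromorphicAt).fun_inv
  · refine AnalyticAt.fun_mul ?_ (hG.analyticAt 1)
    refine Finset.analyticAt_fun_prod _ fun v _ => ?_
    exact (han v 1).fun_inv (lf_one V0 v)
  · exact mul_ne_zero (Finset.prod_ne_zero_iff.2 fun v _ => inv_ne_zero (lf_one V0 v)) hG1
  · rw [hVV V hV s, hsplit s hs]

end

end Pool.Agent.R432.JG
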