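import Pool.Agent.R432.JG.Law
import Pool.Agent.R432.JG.Ext2
import Pool.Agent.R432.JG.Full
import Pool.Agent.Y703.CT.T1d

/-!
# Common lemmas for the hand-ins of project JL
-/

set_option autoImplicit false

open scoped Classical

namespace Pool.Agent.R432.JG

open NumberField IsDedekindDomain
open Pool.Agent.Y703.CX (c3)
open Pool.Agent.Y703.CT (Cls NoSplit Base)
open Pool.Agent.R432.C (ED)

theorem exists_gen (S : Finset ℕ) :
    ∃ (L : Type) (_ : Field L) (_ : NumberField L), ∃ r : ℕ → L, (∀ l ∈ S, r l ^ 3 = (l : L)) ∧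
      ∀ F : Subfield L, (∀ l ∈ S, r l ∈ F) → F = ⊤ := by
  let p : Polynomial ℚ := ∏ l ∈ S, (Polynomial.X ^ 3 - Polynomial.C (l : ℚ))
  let F : Type := p.SplittingField
  have : NumberField F := NumberField.of_module_finite ℚ F
  have hp0 : p ≠ 0 := Finset.prod_ne_zero_iff.2 fun l _ =>
    Polynomial.X_pow_sub_C_ne_zero (by norm_num) _
  have hsp : (p.map (algebraMap ℚ F)).Splits := Polynomial.SplittingField.splits p
  have hp0' : p.map (algebraMap ℚ F) ≠ 0 :=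
    (Polynomial.map_ne_zero_iff (algebraMap ℚ F).injective).2 hp0
  have hroot : ∀ l : ℕ, ∃ x : F, l ∈ S → x ^ 3 = (l : F) := by
    intro l
    by_cases hl : l ∈ S
    · have h1 : ((Polynomial.X ^ 3 - Polynomial.C (l : ℚ)).map (algebraMap ℚ F)).Splits :=
        hsp.of_dvd hp0' (Polynomial.map_dvd _ (Finset.dvd_prod_of_mem _ hl))
      obtain ⟨x, hx⟩ := h1.exists_eval_eq_zero (by
        rw [Polynomial.degree_map, Polynomial.degree_X_pow_sub_C (by norm_num)]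
        norm_num)
      refine ⟨x, fun _ => ?_⟩
      simp at hx
      linear_combination hx
    · exact ⟨0, fun h => absurd h hl⟩
  choose r hr using hroot
  let M : IntermediateField ℚ F := IntermediateField.adjoin ℚ (r '' S)
  have hMn : NumberField M := NumberField.of_module_finite ℚ M
  have hrM : ∀ l ∈ S, r l ∈ M := fun l hl =>
    IntermediateField.subset_adjoin ℚ _ ⟨l, hl, rfl⟩
  refine ⟨M, inferInstance, hMn, fun l => if h : l ∈ S then ⟨r l, hrM l h⟩ else 0,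
    fun l hl => ?_, fun L hL2 => ?_⟩
  · simp only [dif_pos hl]
    apply Subtype.ext
    exact hr l hl
  · rw [eq_top_iff]
    intro y _
    let L' : IntermediateField ℚ F :=
      { (L.map (algebraMap M F)) with
        algebraMap_mem' := fun k => ⟨algebraMap ℚ M k, by
          have := SubfieldClass.ratCast_mem L k
          simpa using this, rfl⟩ }
    have h1 : M ≤ L' := by
      apply IntermediateField.adjoin_le_iff.2
      rintro _ ⟨l, hl, rfl⟩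
      have h2 := hL2 l hl
      simp only [dif_pos (Finset.mem_coe.1 hl)] at h2
      exact ⟨_, h2, rfl⟩
    obtain ⟨y', hy', h2⟩ := h1 y.2
    have h3 : y' = y := Subtype.ext h2
    rw [← h3]
    exact hy'

theorem cl_iff (M : Finset ℕ) (D : ℕ) : Cl M D ↔ (Squarefree D ∧ ¬ 3 ∣ D ∧ D % 9 ≠ 1 ∧
    D % 9 ≠ 8 ∧ (∀ l ∈ M, ¬ l ∣ D) ∧ ∃ q : ℕ, q.Prime ∧ q % 3 = 2 ∧ q ∣ D ∧
      ∀ p : ℕ, p.Prime → p ∣ D → p ≠ q → p % 3 = 1) := by
  unfold Cl
  rw [← and_assoc, Pool.Agent.Y696.CTP.cls_sq D]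
  tauto

/-- the curve over `ℚ` -/
def EDQ (D : ℕ) : WeierstrassCurve ℚ := ⟨0, 0, (D : ℚ), 0, 0⟩

theorem triv_iff {D : ℕ} (hC : Cls D) : (Finite (EDQ D).toAffine.Point ∧
    ∀ (n : ℕ) (x : Pool.Agent.TH841.SH.D.Sha (EDQ D)), 3 ^ n • x = 0 → x = 0) ↔ NoSplit D := by
  obtain ⟨-, f, -, u, -, -, -, h2⟩ := Pool.Agent.Y703.CT.fin_all hC
  rw [← h2]
  have h : Pool.Agent.Y703.CT.EQ (Pool.Agent.Y703.CT.WD D) = EDQ D := by
    unfold Pool.Agent.Y703.CT.EQ Pool.Agent.Y703.CT.WD EDQ WeierstrassCurve.map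
    simp
  unfold Pool.Agent.Y703.CT.Triv3
  rw [h]

theorem c3_gt : (0.56 : ℝ) < c3 := Pool.Agent.Y461.CX.t_C3.2.2.2

theorem pre_of {M : Finset ℕ} {D : ℕ} (hM : ∀ q ∈ M, q.Prime ∧ q % 9 = 1) (hC : Cl M D) :
    Pre D M := ⟨fun l hl => (hM l hl).1, fun l hl => (hM l hl).2, hC.2.2⟩

/-- the theorem overL `ℚ(∛l : l ∈ M ∪ S)` -/
theorem overL {M S : Finset ℕ} {D : ℕ} {a : ℕ → ℕ} (hM : ∀ q ∈ M, q.Prime ∧ q % 9 = 1)
    (hC : Cl M D) (hS : AdmM D M a S) (h : ∀ t : {l : ℕ // l ∈ M} → ZMod 3, NoSplit (twN D M t))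
    {L : Type} [Field L] [NumberField L] (r : ℕ → L) (hr : ∀ l ∈ M ∪ S, r l ^ 3 = (l : L))
    (hgen : ∀ F : Subfield L, (∀ l ∈ M ∪ S, r l ∈ F) → F = ⊤) :
    Module.finrank ℚ L = 3 ^ (M ∪ S).card ∧ Finite (ED ((D : ℕ) : L)).toAffine.Point ∧
    (∀ (k : ℕ) (y : Pool.Agent.TH841.NF.D.Sha (ED ((D : ℕ) : L))),
      3 ^ k • y = 0 → 3 ^ (M ∪ S).card • y = 0) ∧
    ∃ Λ : ℂ → ℂ, MeromorphicOn Λ Set.univ ∧ AnalyticAt ℂ Λ 1 ∧ Λ 1 ≠ 0 ∧
      ∀ V : HeightOneSpectrum (𝓞 L) → WeierstrassCurve (𝓞 L),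
        (∀ v, Pool.Agent.H341R2.EC.IsMinAt (ED ((D : ℕ) : L)) v (V v)) → ∀ s : ℂ, 3 / 2 < s.re →
          HasProd (fun v => (Pool.Agent.R433.MD.lf V s v)⁻¹) (Λ s) := by
  have hpre := pre_union hM hC.2.2 hS
  obtain ⟨h1, h2, h3, G, h4, h5, h6⟩ := all_good hC.2.1 hpre
    (fun t => ext_good Pool.Agent.Y333.CX.t_LAM hM hC hS h t) r hr hgen
  have hD0 : D ≠ 0 := hC.1.ne_zero
  have hB : 3 * D * ∏ l ∈ M ∪ S, l ≠ 0 := mul_ne_zero (mul_ne_zero (by norm_num) hD0)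
    (Finset.prod_ne_zero_iff.2 fun l hl => (hpre.pr l hl).ne_zero)
  obtain ⟨Λ, h7, h8, h9, h10⟩ := full (L := L) hB (Dvd.intro _ rfl) h4 h5 h6
  refine ⟨h1, h2, h3, Λ, h7, h8, h9, fun V hV s hs => ?_⟩
  rw [h10 V hV s hs]
  exact (Pool.Agent.R433.MD.hasProd_lf _ (ell hD0) V hV hs).1

end Pool.Agent.R432.JG
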