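import Pool.Agent.R432.JG.Loc6
import Pool.Agent.R432.JG.Full

/-!
# The points of `y² + D y = x³` and of `x³ + y³ = D` over `ℚ(ω, ∛l : l ∈ M)`
-/

set_option autoImplicit false
set_option linter.all false

open IsDedekindDomain NumberField WeierstrassCurve

namespace Pool.Agent.R432.JG.Cube

open Pool.Agent.TH954 Pool.Agent.R419.ST Pool.Agent.R432.JG.Loc4 Pool.Agent.R432.JG.Dsc
open Pool.Agent.R432.JG.Loc5 Pool.Agent.R432.JG.Loc6
open scoped Classical

/-- a cube in a quadratic field which is a natural number has valuations divisible by three -/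
lemma val3 {K : Type} [Field K] [NumberField K] (h2 : Module.finrank ℚ K = 2) {z : K} {m : ℕ}
    (hm : m ≠ 0) (hz : z ^ 3 = (m : K)) {p : ℕ} (hp : p.Prime) : 3 ∣ padicValNat p m := by
  have : Fact p.Prime := ⟨hp⟩
  have h1 : Algebra.norm ℚ z ^ 3 = (m : ℚ) ^ 2 := by
    rw [← map_pow, hz]
    have e : (m : K) = algebraMap ℚ K (m : ℚ) := (map_natCast _ m).symm
    rw [e, Algebra.norm_algebraMap, h2]
  have hq : Algebra.norm ℚ z ≠ 0 := by
    intro h0
    rw [h0] at h1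
    have : (m : ℚ) ^ 2 ≠ 0 := pow_ne_zero 2 (Nat.cast_ne_zero.2 hm)
    exact this (by rw [← h1]; norm_num)
  have h3 := congrArg (padicValRat p) h1
  rw [padicValRat.pow, padicValRat.pow, padicValRat.of_nat] at h3
  have h4 : (3 : ℤ) ∣ (padicValNat p m : ℤ) := by
    generalize padicValRat p (Algebra.norm ℚ z) = u at h3
    have h5 : 3 * u = 2 * (padicValNat p m : ℤ) := by exact_mod_cast h3
    omega
  exact_mod_cast h4

section

variable {Ω : Type} [Field Ω] [NumberField Ω] {S : Finset ℕ} (hS : ∀ l ∈ S, l.Prime) {w : Ω}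
  (hw : w ^ 2 + w + 1 = 0) {ρ : ℕ → Ω} (hρ : ∀ l ∈ S, ρ l ^ 3 = (l : Ω))
  (hgen : ∀ M : Subfield Ω, w ∈ M → (∀ l ∈ S, ρ l ∈ M) → M = ⊤)

include hS hw hρ hgen in
/-- no further cube roots -/
theorem no_root {m : ℕ} (hm : m ≠ 0) {p : ℕ} (hp : p.Prime) (hpS : p ∉ S)
    (hv : ¬ 3 ∣ padicValNat p m) (θ : Ω) : θ ^ 3 ≠ (m : Ω) := by
  intro hθ
  have hpf : Fact p.Prime := ⟨hp⟩
  obtain ⟨φ, z, hz, hφ⟩ := exists_phi w hw
  have hcyc : IsCyclotomicExtension {3} ℚ (CyclotomicField 3 ℚ) :=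
    Pool.Agent.Y948.CTP.cyc_rat _ _ (CyclotomicField.isCyclotomicExtension 3 ℚ)
  have hK2 : Module.finrank ℚ (CyclotomicField 3 ℚ) = 2 := by
    rw [IsCyclotomicExtension.finrank (CyclotomicField 3 ℚ)
      (Polynomial.cyclotomic.irreducible_rat (by norm_num : 0 < 3))]
    decide
  let hAl : Algebra (CyclotomicField 3 ℚ) Ω := φ.toAlgebra
  have hgen' : ∀ M : Subfield Ω, (∀ k : CyclotomicField 3 ℚ, algebraMap (CyclotomicField 3 ℚ) Ω k ∈ M) →
      (∀ l ∈ S, ρ l ∈ M) → M = ⊤ := by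
    intro M h1 h2
    refine hgen M ?_ h2
    rw [← hφ]
    exact h1 z
  obtain ⟨hfd, hgal⟩ := Pool.Agent.R432.C.gal3 (F := Ω) hz (I := {l : ℕ // l ∈ S})
    (fun i => ((i.1 : ℕ) : CyclotomicField 3 ℚ))
    (fun i => ρ i.1) (fun i => by rw [hρ i.1 i.2, map_natCast])
    (fun L h1 h2 => hgen' L h1 fun l hl => h2 ⟨l, hl⟩)
  have hl0 : ∀ i : {l : ℕ // l ∈ S}, ((i.1 : ℕ) : CyclotomicField 3 ℚ) ≠ 0 := fun i =>
    Nat.cast_ne_zero.2 (hS _ i.2).ne_zero
  have hfix : ∀ σ : Ω ≃ₐ[CyclotomicField 3 ℚ] Ω, (∀ i : {l : ℕ // l ∈ S}, σ (ρ i.1) = ρ i.1) →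
      σ = 1 := by
    intro σ hσ
    have h5 := hgen' (RingHom.eqLocusField (σ : Ω →+* Ω) (RingHom.id Ω))
      (fun y => σ.commutes y) (fun l hl => hσ ⟨l, hl⟩)
    ext y
    have h7 : y ∈ RingHom.eqLocusField (σ : Ω →+* Ω) (RingHom.id Ω) := by rw [h5]; trivial
    exact h7
  -- valuations of products
  have hval : ∀ (b : {l : ℕ // l ∈ S} → ZMod 3) (q : ℕ), q.Prime →
      padicValNat q (∏ i : {l : ℕ // l ∈ S}, i.1 ^ (b i).val) =
        if h : q ∈ S then (b ⟨q, h⟩).val else 0 := by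
    intro b q hq
    have : Fact q.Prime := ⟨hq⟩
    have hpr : ∀ T : Finset {l : ℕ // l ∈ S}, padicValNat q (∏ i ∈ T, i.1 ^ (b i).val) =
        ∑ i ∈ T, padicValNat q (i.1 ^ (b i).val) := by
      intro T
      induction T using Finset.induction_on with
      | empty => simp
      | insert a T ha ih =>
        rw [Finset.prod_insert ha, Finset.sum_insert ha, padicValNat.mul
          (pow_ne_zero _ (hS _ a.2).ne_zero)
          (Finset.prod_ne_zero_iff.2 fun i _ => pow_ne_zero _ (hS _ i.2).ne_zero), ih]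
    rw [hpr]
    have e : ∀ i : {l : ℕ // l ∈ S}, padicValNat q (i.1 ^ (b i).val) =
        if i.1 = q then (b i).val else 0 := by
      intro i
      rw [padicValNat.pow]
      split_ifs with h
      · rw [h, padicValNat_self, mul_one]
      · have : Fact (Nat.Prime i.1) := ⟨hS _ i.2⟩
        rw [padicValNat_primes (Ne.symm h), mul_zero]
    rw [Finset.sum_congr rfl fun i _ => e i]
    split_ifs with h
    · rw [Finset.sum_eq_single ⟨q, h⟩]
      · rw [if_pos rfl]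
      · intro i _ hi
        rw [if_neg]
        intro h0
        exact hi (Subtype.ext h0)
      · intro h0
        exact absurd (Finset.mem_univ _) h0
    · refine Finset.sum_eq_zero fun i _ => ?_
      rw [if_neg]
      rintro rfl
      exact h i.2
  have hv3 : ∀ x : ZMod 3, x ≠ 0 → ∀ a : ℕ, ¬ 3 ∣ a → ¬ 3 ∣ x.val * a := by
    intro x hx a ha h0
    rcases (Nat.Prime.dvd_mul Nat.prime_three).1 h0 with h1 | h1
    · have h2 := ZMod.val_lt x
      have h3 : x.val = 0 := by omega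
      exact hx ((ZMod.val_eq_zero x).1 h3)
    · exact ha h1
  have hind1 : ∀ b : {l : ℕ // l ∈ S} → ZMod 3, (∃ i, b i ≠ 0) →
      ¬ ∃ z : CyclotomicField 3 ℚ, z ^ 3 = ∏ i, ((i.1 : ℕ) : CyclotomicField 3 ℚ) ^ (b i).val := by
    rintro b ⟨i, hi⟩ ⟨y, hy⟩
    have hprod0 : (∏ i : {l : ℕ // l ∈ S}, i.1 ^ (b i).val) ≠ 0 :=
      Finset.prod_ne_zero_iff.2 fun i _ => pow_ne_zero _ (hS _ i.2).ne_zero
    have h1 := val3 hK2 hprod0 (z := y) (by rw [hy]; push_cast; rfl) (hS _ i.2)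
    rw [hval b i.1 (hS _ i.2), dif_pos i.2] at h1
    exact hv3 _ hi 1 (by norm_num) (by rw [mul_one]; exact h1)
  have hind2 : ∀ b : Option {l : ℕ // l ∈ S} → ZMod 3, (∃ i, b i ≠ 0) →
      ¬ ∃ z : CyclotomicField 3 ℚ, z ^ 3 = ∏ i : Option {l : ℕ // l ∈ S},
        (match i with
          | none => (m : CyclotomicField 3 ℚ)
          | some l => ((l.1 : ℕ) : CyclotomicField 3 ℚ)) ^ (b i).val := by
    rintro b ⟨i, hi⟩ ⟨y, hy⟩
    rw [Fintype.prod_option] at hy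
    by_cases hb : b none = 0
    · obtain ⟨l, hl⟩ : ∃ l, b (some l) ≠ 0 := by
        rcases i with _ | l
        · exact absurd hb hi
        · exact ⟨l, hi⟩
      rw [hb, ZMod.val_zero, pow_zero, one_mul] at hy
      exact hind1 (fun l => b (some l)) ⟨l, hl⟩ ⟨y, hy⟩
    · have hprod0 : (∏ i : {l : ℕ // l ∈ S}, i.1 ^ (b (some i)).val) ≠ 0 :=
        Finset.prod_ne_zero_iff.2 fun i _ => pow_ne_zero _ (hS _ i.2).ne_zero
      have h1 := val3 hK2 (m := m ^ (b none).val * ∏ i : {l : ℕ // l ∈ S}, i.1 ^ (b (some i)).val)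
        (mul_ne_zero (pow_ne_zero _ hm) hprod0) (z := y) (by rw [hy]; push_cast; rfl) hp
      rw [padicValNat.mul (pow_ne_zero _ hm) hprod0, padicValNat.pow,
        hval (fun l => b (some l)) p hp, dif_neg hpS, add_zero] at h1
      exact hv3 _ hb _ hv h1
  have c1 := Pool.Agent.R432.C.kummer3_card (K := Ω) hz three_ne_zero
    (fun i : {l : ℕ // l ∈ S} => ρ i.1) (fun i => ((i.1 : ℕ) : CyclotomicField 3 ℚ)) hl0
    (fun i => by rw [hρ i.1 i.2, map_natCast]) hind1 hfix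
  have c2 := Pool.Agent.R432.C.kummer3_card (K := Ω) hz three_ne_zero
    (fun i : Option {l : ℕ // l ∈ S} => match i with
      | none => θ
      | some l => ρ l.1)
    (fun i : Option {l : ℕ // l ∈ S} => match i with
          | none => (m : CyclotomicField 3 ℚ)
          | some l => ((l.1 : ℕ) : CyclotomicField 3 ℚ))
    (fun i => by
      rcases i with _ | l
      · exact Nat.cast_ne_zero.2 hm
      · exact hl0 l)
    (fun i => by
      rcases i with _ | l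
      · show θ ^ 3 = algebraMap _ Ω (m : CyclotomicField 3 ℚ)
        rw [hθ, map_natCast]
      · show ρ l.1 ^ 3 = algebraMap _ Ω ((l.1 : ℕ) : CyclotomicField 3 ℚ)
        rw [hρ l.1 l.2, map_natCast])
    hind2 (fun σ hσ => hfix σ fun i => hσ (some i))
  rw [c1, Fintype.card_option] at c2
  have := Nat.pow_right_injective (by norm_num : 2 ≤ 3) c2
  omega

/-- a prime factor different from two -/
lemma exists_prime {D : ℕ} (hsq : Squarefree D) (h1 : D ≠ 1) (h2 : D ≠ 2) :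
    ∃ p : ℕ, p.Prime ∧ p ∣ D ∧ p ≠ 2 := by
  by_contra hcon
  push Not at hcon
  have hD0 : D ≠ 0 := hsq.ne_zero
  have hsub : D.primeFactors ⊆ {2} := by
    intro p hp
    rw [Nat.mem_primeFactors] at hp
    rw [Finset.mem_singleton]
    exact hcon p hp.1 hp.2.1
  have hprod := Nat.prod_primeFactors_of_squarefree hsq
  rcases Finset.subset_singleton_iff.1 hsub with h | h
  · rw [h, Finset.prod_empty] at hprod
    exact h1 hprod.symm
  · rw [h, Finset.prod_singleton] at hprod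
    exact h2 hprod.symm

lemma val_sq {D : ℕ} (hsq : Squarefree D) {p : ℕ} (hp : p.Prime) (hpD : p ∣ D) :
    padicValNat p D = 1 := by
  have : Fact p.Prime := ⟨hp⟩
  have hD0 : D ≠ 0 := hsq.ne_zero
  rw [← Nat.factorization_def D hp]
  have h1 := hsq.natFactorization_le_one p
  have h2 := (hp.dvd_iff_one_le_factorization hD0).1 hpD
  omega

/-- a place above three -/
lemma exists_place (Ω : Type) [Field Ω] [NumberField Ω] :
    ∃ v : HeightOneSpectrum (𝓞 Ω), ((3 : ℕ) : 𝓞 Ω) ∈ v.asIdeal := by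
  have hnu : ¬ IsUnit (((3 : ℕ) : 𝓞 Ω)) := by
    intro hu
    have h1 : IsIntegral ℤ ((3 : ℚ)⁻¹) := by
      obtain ⟨u, hu'⟩ := hu
      have h2 : ((3 : ℕ) : 𝓞 Ω) * (u⁻¹ : (𝓞 Ω)ˣ) = 1 := by rw [← hu', Units.mul_inv]
      have h3 : algebraMap ℚ Ω ((3 : ℚ)⁻¹) = (((u⁻¹ : (𝓞 Ω)ˣ) : 𝓞 Ω) : Ω) := by
        have h4 : algebraMap (𝓞 Ω) Ω (((3 : ℕ) : 𝓞 Ω) * (u⁻¹ : (𝓞 Ω)ˣ)) =
            algebraMap (𝓞 Ω) Ω 1 := congrArg _ h2
        rw [map_mul, map_natCast, map_one] at h4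
        push_cast at h4
        have h5 : (3 : Ω) ≠ 0 := by norm_num
        rw [map_inv₀, map_ofNat]
        exact inv_eq_of_mul_eq_one_right h4
      have h4 : IsIntegral ℤ (algebraMap ℚ Ω ((3 : ℚ)⁻¹)) := by
        rw [h3]
        exact RingOfIntegers.isIntegral_coe _
      exact (isIntegral_algHom_iff (IsScalarTower.toAlgHom ℤ ℚ Ω)
        (algebraMap ℚ Ω).injective).1 h4
    obtain ⟨k, hk⟩ := (IsIntegrallyClosed.isIntegral_iff (R := ℤ) (K := ℚ)).1 h1
    have hk' : ((k * 3 : ℤ) : ℚ) = ((1 : ℤ) : ℚ) := by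
      have h6 : (k : ℚ) = (3 : ℚ)⁻¹ := hk
      push_cast
      rw [h6]
      norm_num
    have hk2 : k * 3 = 1 := by exact_mod_cast hk'
    omega
  obtain ⟨I, hI, hIm⟩ := exists_max_ideal_of_mem_nonunits hnu
  refine ⟨⟨I, hI.isPrime, ?_⟩, hIm⟩
  rintro rfl
  have h0 : ((3 : ℕ) : 𝓞 Ω) = 0 := hIm
  exact (Nat.cast_ne_zero.2 (by norm_num : 3 ≠ 0)) h0

include hS hw hρ hgen in
/-- **The points over `ℚ(ω, ∛l : l ∈ M)`.** -/
theorem all_pts (h9 : ∀ l ∈ S, l % 9 = 1) {D : ℕ} (hsq : Squarefree D) (h3 : ¬ 3 ∣ D)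
    (h1 : D % 9 ≠ 1) (h8 : D % 9 ≠ 8) (hD2 : D ≠ 2) (hDS : ∀ l ∈ S, ¬ l ∣ D)
    (hfin : Finite (EN Ω D).toAffine.Point) (P : (EN Ω D).toAffine.Point) :
    InC (D : Ω) P ∧ ∀ x : Ω, x ^ 3 ≠ (D : Ω) := by
  have hD0 : D ≠ 0 := hsq.ne_zero
  have hD1 : D ≠ 1 := by
    rintro rfl
    exact h1 rfl
  obtain ⟨p, hp, hpD, hp2⟩ := exists_prime hsq hD1 hD2
  have hpf : Fact p.Prime := ⟨hp⟩
  have hpS : p ∉ S := fun h => hDS p h hpD
  have hvD := val_sq hsq hp hpD
  have hcube : ∀ x : Ω, x ^ 3 ≠ (D : Ω) := fun x =>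
    no_root hS hw hρ hgen hD0 hp hpS (by rw [hvD]; norm_num) x
  have hcube2 : ∀ x : Ω, x ^ 3 ≠ ((2 * D ^ 2 : ℕ) : Ω) := fun x =>
    no_root hS hw hρ hgen (mul_ne_zero (by norm_num) (pow_ne_zero _ hD0)) hp hpS (by
      rw [padicValNat.mul (by norm_num) (pow_ne_zero _ hD0), padicValNat.pow, hvD,
        padicValNat.eq_zero_of_not_dvd (fun h => hp2 ((Nat.prime_dvd_prime_iff_eq hp
          Nat.prime_two).1 h))]
      norm_num) x
  refine ⟨?_, hcube⟩
  obtain ⟨v, hv⟩ := exists_place Ω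
  obtain ⟨lam, hL⟩ := locΩ h9 w hw ρ hρ hgen v hv
  have inst3 : ProperSpace (v.adicCompletion Ω) := Pool.Agent.Y791.BS.proper v
  have : CharZero (v.adicCompletion Ω) :=
    charZero_of_injective_algebraMap (algebraMap Ω (v.adicCompletion Ω)).injective
  have hn0 : Nat.card (EN Ω D).toAffine.Point ≠ 0 := Nat.card_ne_zero.2 ⟨⟨0⟩, hfin⟩
  have hnP : Nat.card (EN Ω D).toAffine.Point • P = 0 := card_nsmul_eq_zero'
  obtain ⟨a, m, hm, hnam⟩ := Nat.exists_eq_pow_mul_and_not_dvd hn0 3 (by norm_num)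
  have hs : m • (3 ^ a • P) = 0 := by rw [← mul_smul, mul_comm, ← hnam, hnP]
  -- the local computation
  have hd : ‖((D : ℕ) : v.adicCompletion Ω)‖ ≤ 1 := by
    have := int_le' (N := v.adicCompletion Ω) (D : ℤ)
    simpa using this
  have h2s : 2 • (3 ^ a • P) = 0 := by
    have hc : ‖((D : ℕ) : v.adicCompletion Ω) ^ 2 / 4 - 1‖ < 1 := by
      have h4 : ‖(4 : v.adicCompletion Ω)‖ = 1 := hL.th.four
      have h40 : (4 : v.adicCompletion Ω) ≠ 0 := hL.th.four_ne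
      have e : ((D : ℕ) : v.adicCompletion Ω) ^ 2 / 4 - 1 =
          (((D : ℤ) ^ 2 - 4 : ℤ) : v.adicCompletion Ω) / 4 := by
        push_cast
        field_simp
      rw [e, norm_div, h4, div_one]
      have hD3 : (3 : ℤ) ∣ (D : ℤ) ^ 2 - 4 := by
        have hm3 : D % 3 = 1 ∨ D % 3 = 2 := by omega
        have h5 : ((D : ℤ) ^ 2 - 4) % 3 = 0 := by
          rcases hm3 with h6 | h6
          · have h7 : (D : ℤ) % 3 = 1 := by omega
            rw [Int.sub_emod, pow_two, Int.mul_emod, h7]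
            norm_num
          · have h7 : (D : ℤ) % 3 = 2 := by omega
            rw [Int.sub_emod, pow_two, Int.mul_emod, h7]
            norm_num
        exact Int.dvd_of_emod_eq_zero h5
      obtain ⟨q, hq⟩ := hD3
      rw [hq]
      push_cast
      rw [norm_mul]
      have := int_le' (N := v.adicCompletion Ω) q
      have h5 := hL.three_lt
      nlinarith [norm_nonneg (3 : v.adicCompletion Ω), norm_nonneg (q : v.adicCompletion Ω)]
    let Pv : ((EN Ω D).baseChange (v.adicCompletion Ω)).toAffine.Point :=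
      pm (EN Ω D) (Algebra.ofId Ω (v.adicCompletion Ω)) (3 ^ a • P)
    have hmPv : m • Pv = 0 := by
      show m • pm (EN Ω D) (Algebra.ofId Ω (v.adicCompletion Ω)) (3 ^ a • P) = 0
      rw [← map_nsmul]
      have h6 : (m • (3 ^ a • P) : ((EN Ω D).baseChange Ω).toAffine.Point) = 0 := hs
      rw [h6, map_zero]
    have h7 := (two_V hL (base_EN (v.adicCompletion Ω) D) hd hc hm hmPv).1
    have h8 : pm (EN Ω D) (Algebra.ofId Ω (v.adicCompletion Ω)) (2 • (3 ^ a • P)) = 0 := by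
      rw [map_nsmul]
      exact h7
    exact pm_injective (E := EN Ω D) (Algebra.ofId Ω (v.adicCompletion Ω)) (h8.trans (map_zero _).symm)
  have hs0 : 3 ^ a • P = 0 := by
    generalize 3 ^ a • P = s at h2s
    rcases s with _ | ⟨X, Y, h⟩
    · rfl
    · exfalso
      rw [two_nsmul, add_eq_zero_iff_eq_neg, Affine.Point.neg_some, Affine.Point.some.injEq] at h2s
      have hY : Y = -Y - 0 * X - (D : Ω) := h2s.2
      have he := (Affine.equation_iff _ _).1 h.1
      change Y ^ 2 + 0 * X * Y + (D : Ω) * Y = X ^ 3 + 0 * X ^ 2 + 0 * X + 0 at he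
      apply hcube2 (-2 * X)
      push_cast
      linear_combination 8 * he - (4 * Y + 2 * (D : Ω)) * hY
  have hD0' : (D : Ω) ≠ 0 := Nat.cast_ne_zero.2 hD0
  exact three_pow_tors hD0' hw hcube a hs0

include hS hw hρ hgen in
/-- **No solutions of `x³ + y³ = D`.** -/
theorem no_sol (h9 : ∀ l ∈ S, l % 9 = 1) {D : ℕ} (hsq : Squarefree D) (h3 : ¬ 3 ∣ D)
    (h1 : D % 9 ≠ 1) (h8 : D % 9 ≠ 8) (hD2 : D ≠ 2) (hDS : ∀ l ∈ S, ¬ l ∣ D)
    (hfin : Finite (EN Ω D).toAffine.Point) (x y : Ω) : x ^ 3 + y ^ 3 ≠ (D : Ω) := by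
  intro hxy
  have hcube := (all_pts hS hw hρ hgen h9 hsq h3 h1 h8 hD2 hDS hfin 0).2
  have hE : (EN Ω D).IsElliptic := Pool.Agent.R432.JG.ell (L := Ω) hsq.ne_zero
  have heq : (EN Ω D).toAffine.Equation (-(x * y)) (-(x ^ 3)) := by
    rw [Affine.equation_iff]
    change (-(x ^ 3)) ^ 2 + 0 * (-(x * y)) * (-(x ^ 3)) + (D : Ω) * (-(x ^ 3)) =
      (-(x * y)) ^ 3 + 0 * (-(x * y)) ^ 2 + 0 * (-(x * y)) + 0
    linear_combination x ^ 3 * hxy
  have hns : (EN Ω D).toAffine.Nonsingular (-(x * y)) (-(x ^ 3)) :=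
    (Affine.equation_iff_nonsingular).1 heq
  have hx0 : x ≠ 0 := by
    rintro rfl
    exact hcube y (by linear_combination hxy)
  have hy0 : y ≠ 0 := by
    rintro rfl
    exact hcube x (by linear_combination hxy)
  rcases (all_pts hS hw hρ hgen h9 hsq h3 h1 h8 hD2 hDS hfin (.some _ _ hns)).1 with h | ⟨t, ht, h, -⟩
  · exact absurd h (Affine.Point.some_ne_zero hns)
  · rw [Affine.Point.some.injEq] at h
    have := h.1
    rw [neg_eq_zero, mul_eq_zero] at this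
    rcases this with h5 | h5
    · exact hx0 h5
    · exact hy0 h5

end

end Pool.Agent.R432.JG.Cube
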