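import Pool.Agent.R419.ST.Main

/-!
# Three-power descent when the three-primary part of the Tate-Shafarevich group is only killed by a
# power of three

The results of `R419/ST` (helper419) with a multiplier: a Selmer class `ξ` is replaced by `N • ξ`.
-/

set_option autoImplicit false
set_option linter.all false

open IsDedekindDomain NumberField WeierstrassCurve MvPolynomial Filter Topology

namespace Pool.Agent.R432.JG.Dsc

open Pool.Agent.TH954 Pool.Agent.R419.ST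

open scoped Classical

section

variable {L : Type} [NormedField L] [IsUltrametricDist L] [ProperSpace L]

/-- a limit of points whose multiples are close to multiples of high powers of three -/
theorem lim_prN (hL : Th L) {W : WeierstrassCurve L} (hW : SI W) (h4 : W.a₄ = 0)
    (hD : 4 * W.a₄ ^ 3 + 27 * W.a₆ ^ 2 ≠ 0) (U : Ultrafilter ℕ) (hU : (U : Filter ℕ) ≤ atTop)
    (M : ℕ) (P : ℕ → W.toAffine.Point) (P' y : W.toAffine.Point)
    (hP : ∀ j, Tendsto (fun k => nc (P k) j) U (𝓝 (nc P' j)))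
    (hz : ∀ᶠ k in (U : Filter ℕ), ∃ z, M • P k - y = 3 ^ k • z) : Pr (M • P' - y) := by
  obtain ⟨N, hN0, hN⟩ := exists_expo' hW hD hL.two_ne 2 (by norm_num)
  obtain ⟨a, m, hm, hNam⟩ := Nat.exists_eq_pow_mul_and_not_dvd hN0.ne' 3 (by norm_num)
  refine ⟨m, hm, zero_of_big' fun R hR => ?_⟩
  obtain ⟨d, hd0, -, hd⟩ := hW.exists_near hL.two_ne hD hR
  have h1 : ∀ᶠ k in (U : Filter ℕ), ∀ j, ‖nc (P k) j - nc P' j‖ < d := by
    rw [eventually_all]
    intro j
    have := (hP j).sub (tendsto_const_nhds (x := nc P' j))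
    rw [sub_self] at this
    have h3 := this.norm
    rw [norm_zero] at h3
    exact h3.eventually_lt_const hd0
  obtain ⟨r, hr⟩ := pow_unbounded_of_one_lt R (ratio_gt hL)
  have hge : ∀ᶠ k in (U : Filter ℕ), a + r ≤ k := hU (eventually_ge_atTop (a + r))
  obtain ⟨k, ⟨hk1, hk2⟩, z, hk3⟩ := ((h1.and hge).and hz).exists
  have h3 : Big R ((m * M) • (P k - P')) := hW.big_nsmul hL.two_ne hR (hd _ _ hk1) (m * M)
  have h5 : Big R (m • (M • P k - y)) := by
    obtain ⟨t, rfl⟩ := Nat.exists_eq_add_of_le hk2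
    have e : m • (M • P (a + r + t) - y) = 3 ^ (r + t) • (N • z) := by
      rw [hk3, hNam, ← mul_smul, ← mul_smul]
      congr 1
      rw [pow_add, pow_add, pow_add]
      ring
    rw [e]
    have h6 := big_three_pow hL hW h4 (by norm_num : (1 : ℝ) < 2) (hN z) (r + t)
    refine big_mono ?_ h6
    have h7 : ((‖(3 : L)‖ ^ 2)⁻¹) ^ r ≤ ((‖(3 : L)‖ ^ 2)⁻¹) ^ (r + t) :=
      pow_le_pow_right₀ (ratio_gt hL).le (by omega)
    have h8 : (0 : ℝ) < ((‖(3 : L)‖ ^ 2)⁻¹) ^ (r + t) := by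
      have := ratio_gt hL
      positivity
    linarith
  have e2 : m • (M • P' - y) = m • (M • P k - y) - (m * M) • (P k - P') := by
    rw [mul_smul, ← smul_sub, smul_sub M]
    congr 1
    abel
  rw [e2]
  exact hW.big_sub hL.two_ne hR h5 h3

/-- **The limit argument.** -/
theorem lim_mainN (hL : Th L) {n : ℕ} (d : Fin n → L) (hd : ∀ i, ‖d i‖ ≤ 1) (hd0 : ∀ i, d i ≠ 0)
    (M : ℕ) (S : Set (MvPolynomial (Fin n × Fin 3) L)) (hS : ∀ f ∈ S, ∃ e, MultiHom e f)
    (Y : Set ((i : Fin n) → (WE (d i)).toAffine.Point)) (hY : Y.Finite)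
    (h : ∀ k : ℕ, ∃ P : (i : Fin n) → (WE (d i)).toAffine.Point,
      (∀ f ∈ S, eval (fun p => crd (P p.1) p.2) f = 0) ∧
        ∃ y ∈ Y, ∀ i, ∃ z, M • P i = y i + 3 ^ k • z) :
    ∃ P : (i : Fin n) → (WE (d i)).toAffine.Point,
      (∀ f ∈ S, eval (fun p => crd (P p.1) p.2) f = 0) ∧
        ∃ y ∈ Y, ∀ i, ∃ m : ℕ, ¬ 3 ∣ m ∧ m • (M • P i - y i) = 0 := by
  choose P hPS y hyY z hz using h
  -- a constant shift
  obtain ⟨y₀, hy₀Y, hy₀⟩ : ∃ y₀ ∈ Y, ∀ᶠ k in (hyperfilter ℕ : Filter ℕ), y k = y₀ := by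
    have h1 : ∀ᶠ k in (hyperfilter ℕ : Filter ℕ), y k ∈ Y := Filter.Eventually.of_forall hyY
    have h2 : (⋃ y₀ ∈ Y, {k | y k = y₀}) ∈ (hyperfilter ℕ : Filter ℕ) := by
      filter_upwards [h1] with k hk
      exact Set.mem_biUnion hk rfl
    obtain ⟨y₀, h3, h4⟩ := (Ultrafilter.finite_biUnion_mem_iff hY).1 h2
    exact ⟨y₀, h3, h4⟩
  have hlim : ∀ i, ∃ Pi : (WS (d i)).toAffine.Point, ∀ j,
      Tendsto (fun k => nc (isoS hL.two_ne (d i) (P k i)) j) (hyperfilter ℕ) (𝓝 (nc Pi j)) :=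
    fun i => lim_point (si_WS hL (hd i)) (disc_WS hL (hd0 i)) hL.two_ne (hyperfilter ℕ)
      (fun k => isoS hL.two_ne (d i) (P k i))
  choose P' hP' using hlim
  obtain ⟨Pp, hPp⟩ : ∃ Pp : (i : Fin n) → (WE (d i)).toAffine.Point,
      ∀ i, isoS hL.two_ne (d i) (Pp i) = P' i :=
    ⟨fun i => (isoS hL.two_ne (d i)).symm (P' i), fun i => AddEquiv.apply_symm_apply _ _⟩
  refine ⟨Pp, ?_, y₀, hy₀Y, fun i => ?_⟩
  · intro f hf
    obtain ⟨e, he⟩ := hS f hf
    refine (eval_lin hL hd he Pp).2 ?_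
    have e3 : (fun p : Fin n × Fin 3 =>
        lin (d p.1) (fun i => nc (isoS hL.two_ne (d p.1) (Pp p.1)) i) p.2) =
        (fun p : Fin n × Fin 3 => lin (d p.1) (fun i => nc (P' p.1) i) p.2) := by
      funext p
      rw [hPp]
    rw [e3]
    have h0 : Tendsto (fun k => (fun p : Fin n × Fin 3 =>
        lin (d p.1) (fun i => nc (isoS hL.two_ne (d p.1) (P k p.1)) i) p.2)) (hyperfilter ℕ)
        (𝓝 (fun p : Fin n × Fin 3 => lin (d p.1) (fun i => nc (P' p.1) i) p.2)) := by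
      rw [tendsto_pi_nhds]
      rintro ⟨i, j⟩
      exact (hP' i j).sub (tendsto_const_nhds.mul (hP' i 2))
    have hcont : Continuous fun u : Fin n × Fin 3 → L => eval u f := MvPolynomial.continuous_eval f
    have h1 := (hcont.tendsto _).comp h0
    have h2 : ((fun u : Fin n × Fin 3 → L => eval u f) ∘ fun k => (fun p : Fin n × Fin 3 =>
        lin (d p.1) (fun i => nc (isoS hL.two_ne (d p.1) (P k p.1)) i) p.2)) = fun _ => (0 : L) := by
      funext k
      exact (eval_lin hL hd he (P k)).1 (hPS k f hf)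
    rw [h2] at h1
    exact tendsto_nhds_unique h1 tendsto_const_nhds
  · have hU : ((hyperfilter ℕ : Ultrafilter ℕ) : Filter ℕ) ≤ atTop := by
      have hle : (hyperfilter ℕ : Filter ℕ) ≤ cofinite := hyperfilter_le_cofinite
      rwa [Nat.cofinite_eq_atTop] at hle
    obtain ⟨m, hm, h1⟩ := lim_prN hL (si_WS hL (hd i)) rfl (disc_WS hL (hd0 i)) (hyperfilter ℕ) hU
      M (fun k => isoS hL.two_ne (d i) (P k i)) (P' i) (isoS hL.two_ne (d i) (y₀ i)) (hP' i) (by
        filter_upwards [hy₀] with k hk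
        refine ⟨isoS hL.two_ne (d i) (z k i), ?_⟩
        rw [← map_nsmul, ← map_sub, ← map_nsmul, hz k i, hk, add_sub_cancel_left])
    refine ⟨m, hm, ?_⟩
    apply (isoS hL.two_ne (d i)).injective
    rw [map_nsmul, map_sub, map_nsmul, hPp, map_zero]
    exact h1

theorem lim_VN (hL : Th L) {n : ℕ} (d : Fin n → L) (hd : ∀ i, ‖d i‖ ≤ 1) (hd0 : ∀ i, d i ≠ 0)
    (M : ℕ) (V : Fin n → WeierstrassCurve L) (hV : V = fun i => WE (d i))
    (S : Set (MvPolynomial (Fin n × Fin 3) L)) (hS : ∀ f ∈ S, ∃ e, MultiHom e f)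
    (Y : Set ((i : Fin n) → (V i).toAffine.Point)) (hY : Y.Finite)
    (h : ∀ k : ℕ, ∃ P : (i : Fin n) → (V i).toAffine.Point,
      (∀ f ∈ S, eval (fun p => crd (P p.1) p.2) f = 0) ∧
        ∃ y ∈ Y, ∀ i, ∃ z, M • P i = y i + 3 ^ k • z) :
    ∃ P : (i : Fin n) → (V i).toAffine.Point,
      (∀ f ∈ S, eval (fun p => crd (P p.1) p.2) f = 0) ∧
        ∃ y ∈ Y, ∀ i, ∃ m : ℕ, ¬ 3 ∣ m ∧ m • (M • P i - y i) = 0 := by
  subst hV
  exact lim_mainN hL d hd hd0 M S hS Y hY h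

end

section

variable {K : Type} [Field K] [NumberField K] {E : WeierstrassCurve K}

/-- **A multiple of a Selmer class of three-power order comes from a rational point.** -/
theorem coc_threeN (k r : ℕ)
    (hsha : ∀ s : Pool.Agent.TH841.NF.D.Sha E, 3 ^ k • s = 0 → 3 ^ r • s = 0)
    (ξ : (AlgebraicClosure K ≃ₐ[K] AlgebraicClosure K) → AlgPt E K) (hξ : IsCocycle E ξ)
    (hk : ∀ σ, 3 ^ k • ξ σ = 0)
    (hv : ∀ v : HeightOneSpectrum (𝓞 K), TrivialOver E ξ (v.adicCompletion K))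
    (hw : ∀ w : InfinitePlace K, TrivialOver E ξ w.Completion) :
    ∃ (R : AlgPt E K) (y : (E.baseChange K).toAffine.Point), incl E K y = 3 ^ k • R ∧
      ∀ σ, 3 ^ r • ξ σ = act E σ R - R := by
  have hcoc : Pool.Agent.TH841.NF.D.IsShaCoc E ξ :=
    ⟨coc_of hξ, fun v => loc_of hξ (hv v), fun w => loc_of hξ (hw w)⟩
  let x : Pool.Agent.TH841.NF.D.shaCoc E := ⟨ξ, hcoc⟩
  have hx0 : 3 ^ k • x = 0 := by
    apply Subtype.ext
    funext σ
    exact hk σ
  let q : Pool.Agent.TH841.NF.D.shaCoc E →+ Pool.Agent.TH841.NF.D.Sha E :=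
    QuotientAddGroup.mk' ((Pool.Agent.TH841.SH.D.cob E).addSubgroupOf
      (Pool.Agent.TH841.NF.D.shaCoc E))
  have hq : q (3 ^ r • x) = 0 := by
    rw [map_nsmul]
    refine hsha _ ?_
    rw [← map_nsmul, hx0, map_zero]
  have hq' : 3 ^ r • x ∈ (Pool.Agent.TH841.SH.D.cob E).addSubgroupOf
      (Pool.Agent.TH841.NF.D.shaCoc E) := (QuotientAddGroup.eq_zero_iff (3 ^ r • x)).1 hq
  have hcob : Pool.Agent.TH841.SH.D.IsCob E (3 ^ r • ξ) := hq'
  obtain ⟨R, hR0⟩ : ∃ R : AlgPt E K, ∀ σ, (3 ^ r • ξ) σ = act E σ R - R := hcob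
  have hR' : ∀ σ, 3 ^ r • ξ σ = act E σ R - R := fun σ => by
    rw [← hR0 σ]
    rfl
  obtain ⟨y, hy⟩ : ∃ y : (E.baseChange K).toAffine.Point, incl E K y = 3 ^ k • R := by
    refine exists_of_fixed (L := K) (3 ^ k • R) fun σ => ?_
    have e1 : act E σ R = R + 3 ^ r • ξ σ := by
      rw [hR' σ]
      abel
    have e3 : 3 ^ k • (3 ^ r • ξ σ) = 0 := by
      rw [smul_comm, hk]
      exact nsmul_zero _
    rw [act_nsmul, e1, ns_add, e3, add_zero]
  exact ⟨R, y, hy, hR'⟩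

/-- the three-primary part of the Tate-Shafarevich group is killed by `3 ^ r` -/
def ShaN (r : ℕ) (E : WeierstrassCurve K) : Prop :=
  ∀ (k : ℕ) (s : Pool.Agent.TH841.NF.D.Sha E), 3 ^ k • s = 0 → 3 ^ r • s = 0

/-- the multiples of the coverings of the Selmer set come from rational points -/
theorem shift_allN {n : ℕ} (E : Fin n → WeierstrassCurve K) (r : ℕ) (hsha : ∀ i, ShaN r (E i))
    (S : Set (MvPolynomial (Fin n × Fin 3) K)) (k : ℕ)
    (ξ : (i : Fin n) → (AlgebraicClosure K ≃ₐ[K] AlgebraicClosure K) → AlgPt (E i) K)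
    (hξ : ξ ∈ SelSet E S (3 ^ k)) :
    ∃ y : (i : Fin n) → ((E i).baseChange K).toAffine.Point,
      ∀ (L : Type) [Field L] [CharZero L] [Algebra K L]
        (P : (i : Fin n) → ((E i).baseChange L).toAffine.Point), CovAt E (3 ^ k) ξ L P →
        ∀ i, ∃ z, 3 ^ r • P i = pm (E i) (Algebra.ofId K L) (y i) + 3 ^ k • z := by
  obtain ⟨h1, h2, h3, h4⟩ := hξ
  have hT : ∀ i, ∃ (R : AlgPt (E i) K) (y : ((E i).baseChange K).toAffine.Point),
      incl (E i) K y = 3 ^ k • R ∧ ∀ σ, 3 ^ r • ξ i σ = act (E i) σ R - R := by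
    intro i
    refine coc_threeN k r (hsha i k) (ξ i) (h1 i) (h2 i) (fun u => ?_) (fun w => ?_)
    · obtain ⟨ι, P, Q, -, -, h⟩ := h3 u
      exact ⟨ι, Q i, fun σ τ hστ => h i σ τ hστ⟩
    · obtain ⟨ι, P, Q, -, -, h⟩ := h4 w
      exact ⟨ι, Q i, fun σ τ hστ => h i σ τ hστ⟩
  choose R y hy hR using hT
  refine ⟨y, fun L _ _ _ P hP i => ?_⟩
  obtain ⟨ι, Q, hPQ, hQ⟩ := hP
  refine shift (ξ := fun σ => 3 ^ r • ξ i σ) (hy i) (hR i) ι (Q := 3 ^ r • Q i) ?_
    fun σ τ hστ => ?_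
  · have e : incl (E i) L (3 ^ r • P i) = 3 ^ r • incl (E i) L (P i) := map_nsmul (pm (E i) _) _ _
    rw [e, ← hPQ i, smul_comm]
  · have e1 : pm (E i) ι (3 ^ r • ξ i τ) = 3 ^ r • pm (E i) ι (ξ i τ) := map_nsmul _ _ _
    rw [e1, hQ i σ τ hστ, ns_sub, act_nsmul]

end

section main

variable {K : Type} [Field K] [NumberField K] {n : ℕ}

/-- the curve `y² + D y = x³` over `K` -/
def EN (K : Type) [Field K] (D : ℕ) : WeierstrassCurve K := ⟨0, 0, (D : K), 0, 0⟩

lemma base_EN (L : Type) [Field L] [Algebra K L] (D : ℕ) :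
    (EN K D).baseChange L = WE ((D : ℕ) : L) := by
  show (EN K D).map (algebraMap K L) = _
  simp [EN, WE, WeierstrassCurve.map]

lemma thL (v : HeightOneSpectrum (𝓞 K)) (hv : ((3 : ℕ) : 𝓞 K) ∈ v.asIdeal) :
    Th (v.adicCompletion K) := by
  have h3 : ‖(3 : v.adicCompletion K)‖ < 1 := by
    have h := nlt_mem (v := v) hv
    have e : ff v (((3 : ℕ) : 𝓞 K)) = (3 : v.adicCompletion K) := by
      show algebraMap K (v.adicCompletion K) (algebraMap (𝓞 K) K ((3 : ℕ) : 𝓞 K)) = _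
      rw [map_natCast, map_natCast]
      norm_num
    rwa [e] at h
  have : CharZero (v.adicCompletion K) :=
    charZero_of_injective_algebraMap (algebraMap K (v.adicCompletion K)).injective
  refine ⟨?_, norm_pos_iff.2 (by norm_num), h3⟩
  have e : (2 : v.adicCompletion K) = 3 + (-1) := by norm_num
  rw [e, IsUltrametricDist.norm_add_eq_max_of_norm_ne_norm]
  · rw [norm_neg, norm_one, max_eq_right h3.le]
  · rw [norm_neg, norm_one]
    exact h3.ne

lemma nD_le (D : ℕ) (v : HeightOneSpectrum (𝓞 K)) : ‖((D : ℕ) : v.adicCompletion K)‖ ≤ 1 := by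
  have h := nff_le v ((D : ℕ) : 𝓞 K)
  have e : ff v (((D : ℕ) : 𝓞 K)) = ((D : ℕ) : v.adicCompletion K) := by
    show algebraMap K (v.adicCompletion K) (algebraMap (𝓞 K) K ((D : ℕ) : 𝓞 K)) = _
    rw [map_natCast, map_natCast]
  rwa [e] at h

/-- **Components at the places above three.** -/
theorem compV {D : Fin n → ℕ} (hD0 : ∀ i, D i ≠ 0) (r : ℕ)
    (hfin : ∀ i, Finite (EN K (D i)).toAffine.Point) (hsha : ∀ i, ShaN r (EN K (D i)))
    (S : Set (MvPolynomial (Fin n × Fin 3) K))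
    (v : HeightOneSpectrum (𝓞 K)) (hv : ((3 : ℕ) : 𝓞 K) ∈ v.asIdeal)
    (P : (i : Fin n) → ((EN K (D i)).baseChange (v.adicCompletion K)).toAffine.Point)
    (h : ∀ k : ℕ, ∃ ξ ∈ SelSet (fun i => EN K (D i)) S (3 ^ k),
      CovAt (fun i => EN K (D i)) (3 ^ k) ξ (v.adicCompletion K) P) :
    ∃ y : (i : Fin n) → ((EN K (D i)).baseChange K).toAffine.Point, ∀ i, ∃ m : ℕ, ¬ 3 ∣ m ∧
      m • (3 ^ r • P i - pm (EN K (D i)) (Algebra.ofId K (v.adicCompletion K)) (y i)) = 0 := by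
  have inst3 : ProperSpace (v.adicCompletion K) := Pool.Agent.Y791.BS.proper v
  have : CharZero (v.adicCompletion K) :=
    charZero_of_injective_algebraMap (algebraMap K (v.adicCompletion K)).injective
  have hfin' : ∀ i, Finite ((EN K (D i)).baseChange K).toAffine.Point := fun i => hfin i
  let Y : Set ((i : Fin n) → ((EN K (D i)).baseChange (v.adicCompletion K)).toAffine.Point) :=
    Set.range fun (y : (i : Fin n) → ((EN K (D i)).baseChange K).toAffine.Point) i =>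
      pm (EN K (D i)) (Algebra.ofId K (v.adicCompletion K)) (y i)
  have hY : Y.Finite := Set.finite_range _
  obtain ⟨y', ⟨y, hy⟩, h1⟩ := const_V (thL v hv) (fun i => ((D i : ℕ) : v.adicCompletion K))
    (fun i => nD_le (D i) v) (fun i => Nat.cast_ne_zero.2 (hD0 i))
    (fun i => (EN K (D i)).baseChange (v.adicCompletion K))
    (funext fun i => base_EN (v.adicCompletion K) (D i)) Y hY (fun i => 3 ^ r • P i) (fun k => by
      obtain ⟨ξ, hξ, hc⟩ := h k
      obtain ⟨y, hy⟩ := shift_allN (fun i => EN K (D i)) r hsha S k ξ hξ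
      exact ⟨_, ⟨y, rfl⟩, hy (v.adicCompletion K) P hc⟩)
  refine ⟨y, fun i => ?_⟩
  obtain ⟨m, hm, h2⟩ := h1 i
  rw [← hy] at h2
  exact ⟨m, hm, h2⟩

/-- **The Hasse principle part.** -/
theorem hasseV {D : Fin n → ℕ} (hD0 : ∀ i, D i ≠ 0) (r : ℕ)
    (hfin : ∀ i, Finite (EN K (D i)).toAffine.Point) (hsha : ∀ i, ShaN r (EN K (D i)))
    (S : Set (MvPolynomial (Fin n × Fin 3) K)) (hS : ∀ f ∈ S, ∃ d, MultiHom d f)
    (v : HeightOneSpectrum (𝓞 K)) (hv : ((3 : ℕ) : 𝓞 K) ∈ v.asIdeal)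
    (hX : ∀ P : (i : Fin n) → ((EN K (D i)).baseChange (v.adicCompletion K)).toAffine.Point,
      OnX S (fun i => crd (P i)) →
      ¬ ∃ y : (i : Fin n) → ((EN K (D i)).baseChange K).toAffine.Point, ∀ i, ∃ m : ℕ, ¬ 3 ∣ m ∧
        m • (3 ^ r • P i - pm (EN K (D i)) (Algebra.ofId K (v.adicCompletion K)) (y i)) = 0) :
    ∃ k : ℕ, SelSet (fun i => EN K (D i)) S (3 ^ k) = ∅ := by
  by_contra hcon
  push Not at hcon
  have inst3 : ProperSpace (v.adicCompletion K) := Pool.Agent.Y791.BS.proper v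
  have : CharZero (v.adicCompletion K) :=
    charZero_of_injective_algebraMap (algebraMap K (v.adicCompletion K)).injective
  have hfin' : ∀ i, Finite ((EN K (D i)).baseChange K).toAffine.Point := fun i => hfin i
  let Y : Set ((i : Fin n) → ((EN K (D i)).baseChange (v.adicCompletion K)).toAffine.Point) :=
    Set.range fun (y : (i : Fin n) → ((EN K (D i)).baseChange K).toAffine.Point) i =>
      pm (EN K (D i)) (Algebra.ofId K (v.adicCompletion K)) (y i)
  have hY : Y.Finite := Set.finite_range _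
  let θ : K →+* v.adicCompletion K := algebraMap K (v.adicCompletion K)
  obtain ⟨P, hP, y', ⟨y, hy⟩, h1⟩ := lim_VN (thL v hv)
    (fun i => ((D i : ℕ) : v.adicCompletion K)) (fun i => nD_le (D i) v)
    (fun i => Nat.cast_ne_zero.2 (hD0 i)) (3 ^ r)
    (fun i => (EN K (D i)).baseChange (v.adicCompletion K))
    (funext fun i => base_EN (v.adicCompletion K) (D i)) {f | ∃ h ∈ S, f = map θ h}
    (by
      rintro f ⟨h, hh, rfl⟩
      obtain ⟨d, hd⟩ := hS h hh
      exact ⟨d, fun m hm => hd m (MvPolynomial.support_map_subset _ _ hm)⟩) Y hY (fun k => by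
      obtain ⟨ξ, hξ⟩ := hcon k
      obtain ⟨y, hy⟩ := shift_allN (fun i => EN K (D i)) r hsha S k ξ hξ
      obtain ⟨-, -, h3, -⟩ := hξ
      obtain ⟨ι, P, Q, hP, hPQ, hQ⟩ := h3 v
      refine ⟨P, ?_, _, ⟨y, rfl⟩, hy (v.adicCompletion K) P ⟨ι, Q, hPQ, hQ⟩⟩
      rintro f ⟨h, hh, rfl⟩
      have h1 := hP h hh
      rw [aeval_def] at h1
      rw [eval_map]
      exact h1)
  refine hX P ?_ ⟨y, fun i => ?_⟩
  · intro f hf
    have h2 := hP (map θ f) ⟨f, hf, rfl⟩
    rw [eval_map] at h2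
    rw [aeval_def]
    exact h2
  · obtain ⟨m, hm, h2⟩ := h1 i
    rw [← hy] at h2
    exact ⟨m, hm, h2⟩

end main

end Pool.Agent.R432.JG.Dsc
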