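import Pool.Agent.R432.JG.Num
import Pool.Agent.R432.R5

/-!
# Leaves: if all the twists by `M` are good then all the twists by `M ∪ S` are good, `S` admissible
-/

set_option autoImplicit false

open scoped Classical

namespace Pool.Agent.R432.JG

open Finset Filter
open Pool.Agent.Y703.CX (LamP lam)
open Pool.Agent.Y703.CT (Cls NoSplit Base)
open Pool.Agent.R419.CF (GdW SolW wt)
open Pool.Agent.R419.CF.NS (MD gdw_of_nosplit nosplit_of_gdw)
open Pool.Agent.R432.JL (M0 M2 ex)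
open Pool.Agent.R432.Q (CubeMod Free)

/-- the primes of `S` are attached to prime factors of `D`, also with respect to the primes of `M` -/
structure AdmM (D : ℕ) (M : Finset ℕ) (a : ℕ → ℕ) (S : Finset ℕ) : Prop where
  pr : ∀ l ∈ S, l.Prime
  nine : ∀ l ∈ S, l % 9 = 1
  nd : ∀ l ∈ S, ¬ l ∣ D
  nM : ∀ l ∈ S, l ∉ M
  ap : ∀ l ∈ S, (a l).Prime
  ad : ∀ l ∈ S, a l ∣ D
  att : ∀ l ∈ S, ¬ CubeMod (a l) l
  free : ∀ l ∈ S, ∀ p : ℕ, p.Prime → (p ∣ D ∨ p ∈ M) → p ≠ a l → Free l p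
  pw : ∀ l ∈ S, ∀ m ∈ S, l ≠ m → CubeMod l m

theorem wt_ne (M : Finset ℕ) (q : ℕ) : wt M q ≠ 0 := by
  unfold wt
  split_ifs <;> decide

theorem ext_good (hL : LamP) {D : ℕ} {M S : Finset ℕ} {a : ℕ → ℕ}
    (hM : ∀ q ∈ M, q.Prime ∧ q % 9 = 1) (hC : Cl M D) (hS : AdmM D M a S)
    (h : ∀ t : {l : ℕ // l ∈ M} → ZMod 3, NoSplit (twN D M t))
    (t : {l : ℕ // l ∈ M ∪ S} → ZMod 3) : NoSplit (twN D (M ∪ S) t) := by
  obtain ⟨hsq, hcl, hndM⟩ := hC
  have h0 : D ≠ 0 := hsq.ne_zero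
  have hpre : Pre D (M ∪ S) := by
    refine ⟨fun l hl => ?_, fun l hl => ?_, fun l hl => ?_⟩ <;> rcases mem_union.1 hl with h1 | h1
    · exact (hM l h1).1
    · exact hS.pr l h1
    · exact (hM l h1).2
    · exact hS.nine l h1
    · exact hndM l h1
    · exact hS.nd l h1
  have hpreM : Pre D M := ⟨fun l hl => (hM l hl).1, fun l hl => (hM l hl).2, hndM⟩
  set t' : {l : ℕ // l ∈ M} → ZMod 3 := fun i => t ⟨i.1, mem_union_left _ i.2⟩ with ht'
  obtain ⟨a1, a2⟩ := tw_facts (fun q hq => (hM q hq).1) h0 hsq hndM t'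
  obtain ⟨b1, b2⟩ := tw_facts (M := M ∪ S) (fun q hq => hpre.pr q hq) h0 hsq
    (fun q hq => hpre.nd q hq) t
  have hg := gdw_of_nosplit hL (tw_cls (t := t') hcl hpreM) (h t')
  refine nosplit_of_gdw hL (tw_cls (t := t) hcl hpre) ?_
  rw [a1, a2] at hg
  rw [b1, b2]
  have ex_M : ∀ q, q ∉ S → ex (M ∪ S) t q = ex M t' q := by
    intro q hq
    unfold ex
    by_cases h1 : q ∈ M
    · rw [dif_pos (mem_union_left _ h1), dif_pos h1]
    · rw [dif_neg h1, dif_neg fun h2 => (mem_union.1 h2).elim h1 hq]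
  have hwt : ∀ q, q ∉ S → wt (M2 (M ∪ S) t) q = wt (M2 M t') q := by
    intro q hq
    have h1 : q ∈ M2 (M ∪ S) t ↔ q ∈ M2 M t' := by
      unfold M2
      rw [mem_filter, mem_filter, mem_union, ex_M q hq]
      constructor
      · rintro ⟨h2, h3⟩
        exact ⟨h2.resolve_right hq, h3⟩
      · rintro ⟨h2, h3⟩
        exact ⟨Or.inl h2, h3⟩
    unfold wt
    simp only [h1]
  set S1 := (D.primeFactors ∪ M) \ M0 M t' with hS1
  set S2 := (D.primeFactors ∪ (M ∪ S)) \ M0 (M ∪ S) t with hS2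
  have hS1S : ∀ q ∈ S1, q ∉ S := by
    intro q hq hqS
    rw [hS1, Finset.mem_sdiff, mem_union] at hq
    rcases hq.1 with h1 | h1
    · exact hS.nd q hqS (Nat.dvd_of_mem_primeFactors h1)
    · exact hS.nM q hqS h1
  have h12 : S1 ⊆ S2 := by
    intro q hq
    have hqS := hS1S q hq
    rw [hS1, Finset.mem_sdiff, mem_union] at hq
    rw [hS2, Finset.mem_sdiff, mem_union, mem_union]
    refine ⟨hq.1.imp id Or.inl, fun h1 => hq.2 ?_⟩
    unfold M0 at h1 ⊢
    rw [mem_filter, mem_union] at h1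
    rw [mem_filter]
    refine ⟨h1.1.resolve_right hqS, ?_⟩
    rw [← ex_M q hqS]
    exact h1.2
  have h21 : ∀ q ∈ S2, q ∉ S → q ∈ S1 := by
    intro q hq hqS
    rw [hS2, Finset.mem_sdiff, mem_union, mem_union] at hq
    rw [hS1, Finset.mem_sdiff, mem_union]
    refine ⟨hq.1.imp id fun h1 => h1.resolve_right hqS, fun h1 => hq.2 ?_⟩
    unfold M0 at h1 ⊢
    rw [mem_filter] at h1
    rw [mem_filter, mem_union, ex_M q hqS]
    exact ⟨Or.inl h1.1, h1.2⟩
  have hS1p : ∀ q ∈ S1, q.Prime ∧ (q ∣ D ∨ q ∈ M) := by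
    intro q hq
    rw [hS1, Finset.mem_sdiff, mem_union] at hq
    rcases hq.1 with h1 | h1
    · exact ⟨Nat.prime_of_mem_primeFactors h1, Or.inl (Nat.dvd_of_mem_primeFactors h1)⟩
    · exact ⟨(hM q h1).1, Or.inr h1⟩
  have ha1 : ∀ l ∈ S, a l ∈ S1 := by
    intro l hl
    have h1 : a l ∉ M := fun h1 => hndM _ h1 (hS.ad l hl)
    rw [hS1, Finset.mem_sdiff, mem_union]
    refine ⟨Or.inl (Nat.mem_primeFactors.2 ⟨hS.ap l hl, hS.ad l hl, h0⟩), fun h2 => h1 ?_⟩
    unfold M0 at h2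
    exact (mem_filter.1 h2).1
  have hl3 : ∀ l ∈ S, l % 3 = 1 := fun l hl => by
    have := hS.nine l hl
    omega
  have hndq : ∀ l ∈ S, ∀ q ∈ S1, ¬ l ∣ q ∧ ¬ q ∣ l := by
    intro l hl q hq
    have hne : l ≠ q := fun h1 => hS1S q hq (h1 ▸ hl)
    exact ⟨fun h1 => hne ((Nat.prime_dvd_prime_iff_eq (hS.pr l hl) (hS1p q hq).1).1 h1),
      fun h1 => hne ((Nat.prime_dvd_prime_iff_eq (hS1p q hq).1 (hS.pr l hl)).1 h1).symm⟩
  intro c hc
  -- the value at a leaf
  have hleaf : ∀ l ∈ S2, l ∈ S → c l = c (a l) := by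
    intro l hl2 hl
    have h1 := hc l hl2 (hl3 l hl)
    rw [Finset.sum_eq_single_of_mem (a l) (h12 (ha1 l hl))] at h1
    · have h2 : lam l (a l) ≠ 0 := fun h3 => hS.att l hl
        ((hL.cube l (a l) (hS.pr l hl) (hl3 l hl) (hndq l hl _ (ha1 l hl)).1).1 h3)
      rcases mul_eq_zero.1 h1 with h3 | h3
      · exact (sub_eq_zero.1 h3).symm
      · exact absurd h3 (mul_ne_zero (wt_ne _ _) h2)
    · intro q hq hne
      by_cases hqS : q ∈ S
      · by_cases hql : q = l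
        · rw [hql, sub_self, zero_mul]
        · have h2 : ¬ l ∣ q := fun h3 => hql
            ((Nat.prime_dvd_prime_iff_eq (hS.pr l hl) (hS.pr q hqS)).1 h3).symm
          have h3 := (hL.cube l q (hS.pr l hl) (hl3 l hl) h2).2 (hS.pw q hqS l hl hql)
          rw [h3, mul_zero, mul_zero]
      · have hq1 := h21 q hq hqS
        have h3 := (hL.cube l q (hS.pr l hl) (hl3 l hl) (hndq l hl q hq1).1).2
          (hS.free l hl q (hS1p q hq1).1 (hS1p q hq1).2 hne).1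
        rw [h3, mul_zero, mul_zero]
  have hsol : SolW (M2 M t') S1 c := by
    intro p hp hp3
    have h1 := hc p (h12 hp) hp3
    rw [← Finset.sum_subset h12] at h1
    · rw [← h1]
      refine Finset.sum_congr rfl fun q hq => ?_
      rw [hwt q (hS1S q hq)]
    · intro q hq hq1
      have hqS : q ∈ S := by
        by_contra h2
        exact hq1 (h21 q hq h2)
      by_cases hpa : p = a q
      · rw [hleaf q hq hqS, ← hpa, sub_self, zero_mul]
      · have h3 := (hL.cube p q (hS1p p hp).1 hp3 (hndq q hqS p hp).2).2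
          (hS.free q hqS p (hS1p p hp).1 (hS1p p hp).2 hpa).2
        rw [h3, mul_zero, mul_zero]
  have hcon := hg c hsol
  have hred : ∀ p ∈ S2, ∃ p' ∈ S1, c p = c p' := by
    intro p hp
    by_cases hpS : p ∈ S
    · exact ⟨a p, ha1 p hpS, hleaf p hp hpS⟩
    · exact ⟨p, h21 p hp hpS, rfl⟩
  intro p hp q hq
  obtain ⟨p', hp', h1⟩ := hred p hp
  obtain ⟨q', hq', h2⟩ := hred q hq
  rw [h1, h2]
  exact hcon p' hp' q' hq'

end Pool.Agent.R432.JG
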