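import Pool.Agent.R432.JG.Common

/-!
# Independence over linearly disjoint fields
-/

set_option autoImplicit false

open scoped Classical

namespace Pool.Agent.R432.JG

open Finset Filter Topology
open Pool.Agent.Y703.CX (c3)
open Pool.Agent.Y703.CT (Cls NoSplit Base)
open Pool.Agent.R413.MQ.Bin (cnt cnt_card cnt_congr)

section ext

variable {M U : Finset ℕ}

/-- extension by zero -/
noncomputable def ext0 (M U : Finset ℕ) (s : {l : ℕ // l ∈ U} → ZMod 3) (l : {l : ℕ // l ∈ M}) :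
    ZMod 3 := if h : l.1 ∈ U then s ⟨l.1, h⟩ else 0

theorem ext0_inj (h : U ⊆ M) : Function.Injective (ext0 M U) := by
  intro s s' hs
  funext l
  have h1 := congrFun hs ⟨l.1, h l.2⟩
  unfold ext0 at h1
  rwa [dif_pos l.2, dif_pos l.2] at h1

theorem twN_ext (h : U ⊆ M) (D : ℕ) (s : {l : ℕ // l ∈ U} → ZMod 3) :
    twN D M (ext0 M U s) = twN D U s := by
  unfold twN
  congr 1
  set f : ℕ → ℕ := fun l => l ^ (if h : l ∈ U then (s ⟨l, h⟩).val else 0) with hf
  have e1 : ∏ i : {l : ℕ // l ∈ M}, i.1 ^ (ext0 M U s i).val = ∏ l ∈ M, f l := by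
    rw [← Finset.prod_coe_sort M f]
    refine Finset.prod_congr rfl fun i _ => ?_
    rw [hf]
    unfold ext0
    by_cases h1 : i.1 ∈ U
    · simp only [dif_pos h1]
    · simp only [dif_neg h1, ZMod.val_zero]
  have e2 : ∏ i : {l : ℕ // l ∈ U}, i.1 ^ (s i).val = ∏ l ∈ U, f l := by
    rw [← Finset.prod_coe_sort U f]
    refine Finset.prod_congr rfl fun i _ => ?_
    simp only [hf, dif_pos i.2]
  rw [e1, e2]
  refine (Finset.prod_subset h fun l _ hl => ?_).symm
  simp only [hf, dif_neg hl, pow_zero]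

/-- the exponents supported in `U` -/
noncomputable def EU (M U : Finset ℕ) : Finset ({l : ℕ // l ∈ M} → ZMod 3) :=
  univ.image (ext0 M U)

theorem card_EU (h : U ⊆ M) : (EU M U).card = 3 ^ U.card := by
  unfold EU
  rw [card_image_of_injective _ (ext0_inj h), card_univ, Fintype.card_fun, ZMod.card,
    Fintype.card_coe]

theorem zero_mem_EU : (0 : {l : ℕ // l ∈ M} → ZMod 3) ∈ EU M U := by
  unfold EU
  rw [mem_image]
  refine ⟨0, mem_univ _, ?_⟩
  funext l
  unfold ext0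
  split_ifs <;> rfl

theorem supp_EU {t : {l : ℕ // l ∈ M} → ZMod 3} (ht : t ∈ EU M U) {l : {l : ℕ // l ∈ M}}
    (hl : t l ≠ 0) : l.1 ∈ U := by
  unfold EU at ht
  rw [mem_image] at ht
  obtain ⟨s, -, rfl⟩ := ht
  by_contra h
  apply hl
  unfold ext0
  rw [dif_neg h]

theorem twN_zero (D : ℕ) (M : Finset ℕ) : twN D M 0 = D := by
  unfold twN
  simp

end ext

variable {ι : Type} [DecidableEq ι] {M : Finset ℕ} {U : ι → Finset ℕ} {k : ℕ}

/-- the exponents for a set of blocks -/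
noncomputable def ET (M : Finset ℕ) (U : ι → Finset ℕ) (T : Finset ι) :
    Finset ({l : ℕ // l ∈ M} → ZMod 3) :=
  insert 0 (T.biUnion fun i => (EU M (U i)).erase 0)

theorem card_ET (hU : ∀ i, U i ⊆ M) (hk : ∀ i, (U i).card = k)
    (hd : ∀ i j, i ≠ j → Disjoint (U i) (U j)) (T : Finset ι) :
    (ET M U T).card = (3 ^ k - 1) * T.card + 1 := by
  unfold ET
  rw [card_insert_of_notMem, card_biUnion]
  · rw [sum_congr rfl fun i _ => by
      rw [card_erase_of_mem zero_mem_EU, card_EU (hU i), hk i], sum_const, smul_eq_mul, mul_comm]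
  · intro i _ j _ hij
    rw [Function.onFun, Finset.disjoint_left]
    intro t h1 h2
    rw [mem_erase] at h1 h2
    obtain ⟨l, hl⟩ := Function.ne_iff.1 h1.1
    exact Finset.disjoint_left.1 (hd i j hij) (supp_EU h1.2 hl) (supp_EU h2.2 hl)
  · rw [mem_biUnion]
    rintro ⟨i, -, h⟩
    rw [mem_erase] at h
    exact h.1 rfl

/-- all the twists by the numbers with prime factors in `U` are good -/
def GU (U : ι → Finset ℕ) (i : ι) (D : ℕ) : Prop :=
  ∀ s : {l : ℕ // l ∈ U i} → ZMod 3, NoSplit (twN D (U i) s)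

theorem ET_iff (hU : ∀ i, U i ⊆ M) (T : Finset ι) (D : ℕ) :
    (∀ t ∈ ET M U T, NoSplit (twN D M t)) ↔ NoSplit D ∧ ∀ i ∈ T, GU U i D := by
  unfold ET GU
  constructor
  · intro h
    have h0 := h 0 (mem_insert_self _ _)
    rw [twN_zero] at h0
    refine ⟨h0, fun i hi s => ?_⟩
    rw [← twN_ext (hU i)]
    by_cases hs : ext0 M (U i) s = 0
    · rw [hs, twN_zero]
      exact h0
    · refine h _ (mem_insert_of_mem (mem_biUnion.2 ⟨i, hi, mem_erase.2 ⟨hs, ?_⟩⟩))
      unfold EU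
      exact mem_image_of_mem _ (mem_univ _)
  · rintro ⟨h0, h⟩ t ht
    rw [mem_insert, mem_biUnion] at ht
    rcases ht with rfl | ⟨i, hi, ht⟩
    · rw [twN_zero]
      exact h0
    · rw [mem_erase] at ht
      have h1 := ht.2
      unfold EU at h1
      rw [mem_image] at h1
      obtain ⟨s, -, rfl⟩ := h1
      rw [twN_ext (hU i)]
      exact h i hi s

/-- the family of the good `D` -/
def Fg (M : Finset ℕ) (D : ℕ) : Prop := Cl M D ∧ NoSplit D

theorem cnt_Fg (Q : ℕ → Prop) (X : ℕ) : cnt (Fg M) Q X = cnt (Cl M) (fun D => NoSplit D ∧ Q D) X := by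
  unfold cnt Fg
  refine congrArg card ?_
  ext D
  simp only [mem_filter]
  tauto

/-- the blocks are independent -/
theorem law_U (hM : ∀ q ∈ M, q.Prime ∧ q % 9 = 1) (hU : ∀ i, U i ⊆ M) (hk : ∀ i, (U i).card = k)
    (hd : ∀ i j, i ≠ j → Disjoint (U i) (U j)) (T : Finset ι) :
    Tendsto (fun X : ℕ => (cnt (Fg M) (fun D => ∀ i ∈ T, GU U i D) X : ℝ) /
      (cnt (Fg M) (fun _ => True) X : ℝ)) atTop (𝓝 ((c3 ^ (3 ^ k - 1)) ^ T.card)) := by
  have hc0 : (0 : ℝ) < c3 := Pool.Agent.Y461.CX.t_C3.2.1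
  have h1 := law_cnt hM (ET M U T)
  have h2 := law_cnt hM (ET M U ∅)
  rw [card_ET hU hk hd] at h1 h2
  rw [card_empty, mul_zero, zero_add, pow_one] at h2
  have h3 := h1.div h2 hc0.ne'
  have h4 : c3 ^ ((3 ^ k - 1) * T.card + 1) / c3 = (c3 ^ (3 ^ k - 1)) ^ T.card := by
    rw [pow_succ, mul_div_assoc, div_self hc0.ne', mul_one, pow_mul]
  rw [h4] at h3
  refine h3.congr' ?_
  filter_upwards [ev_pos hM] with X hX
  have e1 : cnt (Cl M) (fun D => ∀ t ∈ ET M U T, NoSplit (twN D M t)) X =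
      cnt (Fg M) (fun D => ∀ i ∈ T, GU U i D) X := by
    rw [cnt_Fg]
    exact cnt_congr (fun D _ => ET_iff hU T D) X
  have e2 : cnt (Cl M) (fun D => ∀ t ∈ ET M U ∅, NoSplit (twN D M t)) X =
      cnt (Fg M) (fun _ => True) X := by
    rw [cnt_Fg]
    refine cnt_congr (fun D _ => (ET_iff hU ∅ D).trans ?_) X
    simp
  have e3 : (cnt (Cl M) (fun _ => True) X : ℝ) ≠ 0 := by
    have h5 : cnt (Cl M) (fun _ => True) X = ((Icc 1 X).filter fun D => Cl M D).card := by
      refine cnt_card fun D => ?_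
      rw [mem_filter, and_iff_left trivial]
    rw [h5]
    exact hX.ne'
  simp only [Pi.div_apply]
  rw [e1, e2, div_div_div_cancel_right₀ e3]

/-- the law of the pattern of the good blocks -/
theorem pat_U (hM : ∀ q ∈ M, q.Prime ∧ q % 9 = 1) (hU : ∀ i, U i ⊆ M) (hk : ∀ i, (U i).card = k)
    (hd : ∀ i j, i ≠ j → Disjoint (U i) (U j)) (T : Finset ι) : ∀ V ⊆ T,
    Tendsto (fun X : ℕ => (cnt (Fg M) (fun D => ∀ i ∈ T, (GU U i D ↔ i ∈ V)) X : ℝ) /
      (cnt (Fg M) (fun _ => True) X : ℝ)) atTop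
      (𝓝 ((c3 ^ (3 ^ k - 1)) ^ V.card * (1 - c3 ^ (3 ^ k - 1)) ^ (T.card - V.card))) :=
  pat (law_U hM hU hk hd) T

end Pool.Agent.R432.JG
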