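import Pool.Agent.R432.R2

/-!
# The fields `K(∛l : l ∈ S)` over `K = ℚ(ω)`: the case where all twists are good

This is the proof of `R432/R2.lean` with general hypotheses.
-/

set_option autoImplicit false
set_option linter.unusedSectionVars false

open NumberField Polynomial

namespace Pool.Agent.R432.JG

open Pool.Agent.Y692.QS
open Pool.Agent.Y715.T.Rec (cs)
open Pool.Agent.Y715.T.RecG (Pq)
open Pool.Agent.Y703.CT (Dt pD Ker Base Cls NoSplit descK Tw ShK MwK)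
open Pool.Agent.Y703.CX (pp)
open Pool.Agent.Y333.CX (pp_spec)
open Pool.Agent.Y696.CT (pq_star)
open Pool.Agent.R432.C hiding leaf_dt leaf_nine
open Pool.Agent.R432.Q (SE mem_SE tE eq_pp pp_ne_star tw_neg jnat dvd_D dvd_nat')
open Pool.Agent.TH841.NF.D (Sha)
open Pool.Agent.Y715.T.Gi Pool.Agent.Y715.T.Nr Pool.Agent.Y715.T.Df Pool.Agent.Y715.T.Ell

/-- `S` is a set of primes `1` modulo `9` which do not divide `D` -/
structure Pre (D : ℕ) (S : Finset ℕ) : Prop where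
  pr : ∀ l ∈ S, l.Prime
  nine : ∀ l ∈ S, l % 9 = 1
  nd : ∀ l ∈ S, ¬ l ∣ D

/-- the primes of `S` are different from the `π j` and their norm is `1` modulo `9` -/
structure LeafP {J : Type} (π : J → Ei) (S : Finset Ei) : Prop where
  pq : ∀ l ∈ S, Pq l
  ne : ∀ l ∈ S, ∀ j, l ≠ π j
  nine : ∀ l ∈ S, nr l % 9 = 1

section lf

variable {J : Type} [Fintype J] {π : J → Ei} {e : J → ZMod 3} {S : Finset Ei}

theorem leaf_dt (hD : Dt π e) (hL : LeafP π S) (t : {x : Ei // x ∈ S} → ZMod 3) :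
    Dt (πL π t) (eL e t) where
  pq := by
    rintro (j | i)
    · exact hD.pq j
    · exact hL.pq i.1.1 i.1.2
  nd := by
    rintro (j | i) (j' | i') hne hd
    · exact hD.nd j j' (fun h => hne (by rw [h])) hd
    · exact hL.ne i'.1.1 i'.1.2 j (pq_dvd (hL.pq _ i'.1.2) (hD.pq j) hd)
    · exact hL.ne i.1.1 i.1.2 j' (pq_dvd (hD.pq j') (hL.pq _ i.1.2) hd).symm
    · have h1 := pq_dvd (hL.pq _ i'.1.2) (hL.pq _ i.1.2) hd
      apply hne
      rw [Subtype.ext (Subtype.ext h1.symm : i.1 = i'.1)]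
  e0 := by
    rintro (j | i)
    · exact hD.e0 j
    · exact i.2

theorem leaf_nine (hL : LeafP π S) (h9 : ¬ (9 : ℤ) ∣ nr (pD π e) - 1)
    (t : {x : Ei // x ∈ S} → ZMod 3) : ¬ (9 : ℤ) ∣ nr (pD (πL π t) (eL e t)) - 1 := by
  classical
  rw [leaf_pD, nr_mul, nr_prod]
  have h1 : (∏ i : {x : Ei // x ∈ S}, nr (i.1 ^ (t i).val)) ≡ 1 [ZMOD 9] := by
    have h2 : ∀ i : {x : Ei // x ∈ S}, nr (i.1 ^ (t i).val) ≡ 1 [ZMOD 9] := by
      intro i
      rw [nr_pow]
      have h3 : nr i.1 ≡ 1 [ZMOD 9] := hL.nine _ i.2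
      have h4 := h3.pow (t i).val
      rwa [one_pow] at h4
    have h5 : ∀ s : Finset {x : Ei // x ∈ S}, (∏ i ∈ s, nr (i.1 ^ (t i).val)) ≡ 1 [ZMOD 9] := by
      intro s
      induction s using Finset.induction_on with
      | empty => rw [Finset.prod_empty]
      | insert a s ha ih =>
        rw [Finset.prod_insert ha]
        have h6 := (h2 a).mul ih
        rwa [mul_one] at h6
    exact h5 Finset.univ
  intro hd
  apply h9
  have h2 : nr (pD π e) * ∏ i : {x : Ei // x ∈ S}, nr (i.1 ^ (t i).val) ≡ nr (pD π e) [ZMOD 9] := by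
    have h3 := (Int.ModEq.refl (n := 9) (nr (pD π e))).mul h1
    rwa [mul_one] at h3
  have h4 : nr (pD π e) ≡ 1 [ZMOD 9] := h2.symm.trans ((Int.modEq_iff_dvd.2 hd).symm)
  exact (Int.modEq_iff_dvd.1 h4.symm)


end lf

section spec

variable {J : Type} [Fintype J] {π : J → Ei} {e : J → ZMod 3} {D : ℕ} {S : Finset ℕ}

lemma adm_one (hA : Pre D S) {l : ℕ} (hl : l ∈ S) : l % 3 = 1 := by
  have := hA.nine l hl
  omega

lemma SE_spec (hA : Pre D S) {x : Ei} (hx : x ∈ SE S) :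
    ∃ l ∈ S, Pq x ∧ nr x = l := by
  obtain ⟨l, hl, h⟩ := mem_SE.1 hx
  obtain ⟨h1, h2⟩ := pp_spec (hA.pr l hl) (adm_one hA hl)
  refine ⟨l, hl, ?_⟩
  rcases h with rfl | rfl
  · exact ⟨h1, h2⟩
  · exact ⟨pq_star h1, by rw [nr_star, h2]⟩

theorem leafP (hD : Dt π e) (hDp : (D : Ei) = pD π e ∨ (D : Ei) = -pD π e)
    (hA : Pre D S) : LeafP π (SE S) := by
  refine ⟨fun x hx => ?_, fun x hx j hxj => ?_, fun x hx => ?_⟩
  · obtain ⟨l, hl, h1, h2⟩ := SE_spec hA hx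
    exact h1
  · obtain ⟨l, hl, h1, h2⟩ := SE_spec hA hx
    have h4 : x ∣ ((D : ℕ) : Ei) := by
      rw [hxj]
      exact dvd_D hD hDp j
    exact hA.nd l hl ((dvd_nat' h1 (hA.pr l hl) h2 D).1 h4)
  · obtain ⟨l, hl, h1, h2⟩ := SE_spec hA hx
    have h4 := hA.nine l hl
    rw [h2]
    omega

end spec

section exps

variable {D : ℕ} {S : Finset ℕ}

lemma SE_nr (hA : Pre D S) {x : Ei} (hx : x ∈ SE S) :
    (nr x).natAbs ∈ S ∧ (x = pp (nr x).natAbs ∨ x = star (pp (nr x).natAbs)) := by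
  obtain ⟨l, hl, h1, h2⟩ := SE_spec hA hx
  have h3 : (nr x).natAbs = l := by rw [h2]; exact Int.natAbs_natCast l
  rw [h3]
  exact ⟨hl, eq_pp h1 (hA.pr l hl) h2⟩

/-- the product over the primes above -/
lemma prod_SE (hA : Pre D S) (f : ℕ → ℕ) :
    ∏ x ∈ SE S, x ^ f (nr x).natAbs = ∏ l ∈ S, (l : Ei) ^ f l := by
  classical
  have hinj : ∀ x ∈ S, ∀ y ∈ S, nr (pp x) = nr (pp y) → x = y := by
    intro x hx y hy h
    rw [(pp_spec (hA.pr x hx) (adm_one hA hx)).2, (pp_spec (hA.pr y hy) (adm_one hA hy)).2] at h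
    exact_mod_cast h
  unfold SE
  rw [Finset.prod_union, Finset.prod_image, Finset.prod_image, ← Finset.prod_mul_distrib]
  · refine Finset.prod_congr rfl fun l hl => ?_
    obtain ⟨h1, h2⟩ := pp_spec (hA.pr l hl) (adm_one hA hl)
    rw [nr_star, h2, Int.natAbs_natCast, ← mul_pow, mul_star, h2]
    push_cast
    rfl
  · intro x hx y hy h
    apply hinj x hx y hy
    have h1 : nr (star (pp x)) = nr (star (pp y)) := congrArg nr h
    rwa [nr_star, nr_star] at h1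
  · intro x hx y hy h
    exact hinj x hx y hy (congrArg nr h)
  · rw [Finset.disjoint_left]
    intro x hx hy
    obtain ⟨l, hl, rfl⟩ := Finset.mem_image.1 hx
    obtain ⟨m, hm, h⟩ := Finset.mem_image.1 hy
    have h1 := congrArg nr h
    rw [nr_star] at h1
    have h2 := hinj m hm l hl h1
    rw [h2] at h
    exact pp_ne_star (hA.pr l hl) (adm_one hA hl) h.symm

lemma tE_prod (hA : Pre D S) (t : {l : ℕ // l ∈ S} → ZMod 3) :
    ∏ x : {x : Ei // x ∈ SE S}, x.1 ^ (tE t x).val = ∏ i, ((i.1 : ℕ) : Ei) ^ (t i).val := by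
  classical
  set f : ℕ → ℕ := fun n => if h : n ∈ S then (t ⟨n, h⟩).val else 0 with hf
  have h1 := prod_SE hA f
  rw [← Finset.prod_coe_sort (SE S) (fun x => x ^ f (nr x).natAbs),
    ← Finset.prod_coe_sort S (fun l => (l : Ei) ^ f l)] at h1
  have h2 : ∏ x : {x : Ei // x ∈ SE S}, x.1 ^ (tE t x).val =
      ∏ x : {x : Ei // x ∈ SE S}, x.1 ^ f (nr x.1).natAbs := by
    refine Finset.prod_congr rfl fun x _ => ?_
    unfold tE
    rw [hf]
    have h3 := (SE_nr hA x.2).1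
    simp only [dif_pos h3]
  have h3 : ∏ i : {l : ℕ // l ∈ S}, ((i.1 : ℕ) : Ei) ^ (t i).val =
      ∏ i : {l : ℕ // l ∈ S}, (i.1 : Ei) ^ f i.1 := by
    refine Finset.prod_congr rfl fun i _ => ?_
    rw [hf]
    simp only [dif_pos i.2]
  rw [h2, h3]
  exact h1

lemma tE_ne (hA : Pre D S) {t : {l : ℕ // l ∈ S} → ZMod 3} (ht : ∃ i, t i ≠ 0) :
    ∃ x, tE t x ≠ 0 := by
  obtain ⟨i, hi⟩ := ht
  have h1 : pp i.1 ∈ SE S := mem_SE.2 ⟨i.1, i.2, Or.inl rfl⟩
  refine ⟨⟨pp i.1, h1⟩, ?_⟩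
  unfold tE
  have h2 : (nr (pp i.1)).natAbs = i.1 := by
    rw [(pp_spec (hA.pr i.1 i.2) (adm_one hA i.2)).2]
    exact Int.natAbs_natCast _
  have h3 : (nr (pp i.1)).natAbs ∈ S := by rw [h2]; exact i.2
  rw [dif_pos h3]
  have h4 : (⟨(nr (pp i.1)).natAbs, h3⟩ : {l : ℕ // l ∈ S}) = i := Subtype.ext h2
  rw [h4]
  exact hi

end exps

section tower

variable {K : Type} [Field K] [NumberField K] (j : Ei ≃+* 𝓞 K)

include j in
theorem towerK {D : ℕ} (hC : Cls D) {S : Finset ℕ} (hA : Pre D S)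
    {J : Type} [Fintype J] [Nonempty J] {π : J → Ei} {e : J → ZMod 3} (hD : Dt π e)
    (hDp : (D : Ei) = pD π e ∨ (D : Ei) = -pD π e)
    (hKer : ∀ t : {l : ℕ // l ∈ S} → ZMod 3, Ker (πL π (tE t)) (eL e (tE t)))
    {F : Type} [Field F] [NumberField F] [Algebra K F] (x : ℕ → F)
    (hx : ∀ l ∈ S, x l ^ 3 = (l : F))
    (hgen : ∀ L : Subfield F, (∀ k : K, algebraMap K F k ∈ L) → (∀ l ∈ S, x l ∈ L) → L = ⊤) :
    Module.finrank K F = 3 ^ S.card ∧
    Finite (ED ((D : ℕ) : F)).toAffine.Point ∧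
    ∀ (k : ℕ) (y : Sha (ED ((D : ℕ) : F))), 3 ^ k • y = 0 → 3 ^ S.card • y = 0 := by
  classical
  have h9 := Pool.Agent.Y703.CT.nr_nine hC hDp
  have hL := leafP hD hDp hA
  have hω := om_K j
  obtain ⟨hfd, hgal⟩ := gal3 (F := F) hω (I := {l : ℕ // l ∈ S}) (fun i => ((i.1 : ℕ) : K))
    (fun i => x i.1) (fun i => by rw [hx i.1 i.2, map_natCast])
    (fun L h1 h2 => hgen L h1 fun l hl => h2 ⟨l, hl⟩)
  have hcard : Fintype.card {l : ℕ // l ∈ S} = S.card := Fintype.card_coe S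
  have hl0 : ∀ i : {l : ℕ // l ∈ S}, ((i.1 : ℕ) : K) ≠ 0 := fun i =>
    Nat.cast_ne_zero.2 (hA.pr _ i.2).ne_zero
  have hD0 : ((D : ℕ) : K) ≠ 0 := Nat.cast_ne_zero.2 hC.1.1
  have hcub : ∀ i : {l : ℕ // l ∈ S}, x i.1 ^ 3 = algebraMap K F ((i.1 : ℕ) : K) := fun i => by
    rw [hx i.1 i.2, map_natCast]
  have htw : ∀ t : {l : ℕ // l ∈ S} → ZMod 3,
      ((j ((D : Ei) * ∏ i, ((i.1 : ℕ) : Ei) ^ (t i).val) : 𝓞 K) : K) =
      ((D : ℕ) : K) * ∏ i, ((i.1 : ℕ) : K) ^ (t i).val := by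
    intro t
    rw [map_mul, map_prod]
    push_cast
    rw [map_natCast]
    push_cast
    congr 1
    refine Finset.prod_congr rfl fun i _ => ?_
    rw [map_pow, map_natCast]
    push_cast
    rfl
  have hbase : ∀ t : {l : ℕ // l ∈ S} → ZMod 3,
      Finite (ED (((D : ℕ) : K) * ∏ i, ((i.1 : ℕ) : K) ^ (t i).val)).toAffine.Point ∧
      ∀ (n : ℕ) (y : Sha (ED (((D : ℕ) : K) * ∏ i, ((i.1 : ℕ) : K) ^ (t i).val))),
        3 ^ n • y = 0 → y = 0 := by
    intro t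
    have hDt := leaf_dt hD hL (tE t)
    have hKt := hKer t
    have h9t := leaf_nine hL h9 (tE t)
    have hpD := leaf_pD (π := π) (e := e) (tE t)
    rw [tE_prod hA] at hpD
    have hne0 : pD (πL π (tE t)) (eL e (tE t)) ≠ 0 := Pool.Agent.Y153.CTRAM.ne_zero_of hDt
    rw [← htw]
    have hsgn : ((D : Ei) * ∏ i, ((i.1 : ℕ) : Ei) ^ (t i).val) =
        pD (πL π (tE t)) (eL e (tE t)) ∨
        ((D : Ei) * ∏ i, ((i.1 : ℕ) : Ei) ^ (t i).val) = -pD (πL π (tE t)) (eL e (tE t)) := by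
      rw [hpD]
      rcases hDp with h | h
      · left
        rw [h]
      · right
        rw [h, neg_mul]
    have hne' : ((D : Ei) * ∏ i, ((i.1 : ℕ) : Ei) ^ (t i).val) ≠ 0 := by
      rcases hsgn with h | h
      · rw [h]
        exact hne0
      · rw [h]
        exact neg_ne_zero.2 hne0
    have hdesc : ∀ (i₀ : QB) (hi : i₀ ^ 2 + i₀ + 1 = 0) (u : QB) (b : GK i₀ → ZMod 3),
        Tw hi ((D : Ei) * ∏ i, ((i.1 : ℕ) : Ei) ^ (t i).val) u b → ShK hi b ∧ MwK hi b := by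
      intro i₀ hi u b hT
      rcases hsgn with h | h
      · rw [h] at hT
        exact descK hDt hKt h9t hT
      · rw [h] at hT
        exact descK hDt hKt h9t (tw_neg hT)
    exact ⟨(Pool.Agent.Y696.CTK.parts.mwt Pool.Agent.Y696.CTK.parts.trf K j _ hne'
        fun i₀ hi u b hT => (hdesc i₀ hi u b hT).2).1,
      Pool.Agent.Y696.CTK.parts.sht Pool.Agent.Y696.CTK.parts.trf K j _ hne'
        fun i₀ hi u b hT => (hdesc i₀ hi u b hT).1⟩
  have eD : algebraMap K F ((D : ℕ) : K) = ((D : ℕ) : F) := map_natCast _ _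
  refine ⟨?_, ?_, ?_⟩
  · have hind : ∀ b : {l : ℕ // l ∈ S} → ZMod 3, (∃ i, b i ≠ 0) →
        ¬ ∃ z : K, z ^ 3 = ∏ i, ((i.1 : ℕ) : K) ^ (b i).val := by
      rintro b hb ⟨z, hz⟩
      refine indK j hL.pq (tE b) (tE_ne hA hb) ⟨z, ?_⟩
      rw [hz]
      have h1 := congrArg (fun y : Ei => ((j y : 𝓞 K) : K)) (tE_prod hA b)
      simp only [map_prod, map_pow] at h1
      rw [h1]
      refine Finset.prod_congr rfl fun i _ => ?_
      rw [map_natCast]
      push_cast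
      rfl
    have h1 := kummer3_card (K := F) hω three_ne_zero (fun i : {l : ℕ // l ∈ S} => x i.1)
      (fun i => ((i.1 : ℕ) : K)) hl0 hcub hind (fun σ hσ => by
        have h5 := hgen (RingHom.eqLocusField (σ : F →+* F) (RingHom.id F))
          (fun y => σ.commutes y) (fun l hl => hσ ⟨l, hl⟩)
        ext y
        have h7 : y ∈ RingHom.eqLocusField (σ : F →+* F) (RingHom.id F) := by rw [h5]; trivial
        exact h7)
    rw [hcard] at h1
    rw [← h1]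
    exact (IsGalois.card_aut_eq_finrank K F).symm
  · rw [← eD]
    exact pts hω (fun i : {l : ℕ // l ∈ S} => ((i.1 : ℕ) : K)) (fun i => x i.1) hl0
      hcub (fun L h1 h2 => hgen L h1 fun l hl => h2 ⟨l, hl⟩) hD0 fun t => (hbase t).1
  · rw [← eD]
    intro k y hy
    have h1 := cubic hω (fun i : {l : ℕ // l ∈ S} => ((i.1 : ℕ) : K)) (fun i => x i.1) hl0
      hcub (fun L h1 h2 => hgen L h1 fun l hl => h2 ⟨l, hl⟩) hD0
      (fun t => (hbase t).2) k y hy
    rw [hcard] at h1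
    exact h1

end tower

end Pool.Agent.R432.JG
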