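import Pool.Agent.R432.V10
import Pool.Agent.R432.JG.G1

/-!
# The Euler product of `E_D` over `L = ℚ(∛l : l ∈ S)`
-/

set_option autoImplicit false
set_option linter.unusedSectionVars false

open NumberField IsDedekindDomain Filter Complex
open scoped Topology Classical

namespace Pool.Agent.R432.JG

open Pool.Agent.Y692.QS hiding chi
open Pool.Agent.Y715.T.Rec (cs nn)
open Pool.Agent.Y715.T.RecG (Pq cs_spec)
open Pool.Agent.Y696.CT (pq_star cs_star_int cs_inert inert int_ndvd im_star_ne gg chD_prime cs_mul'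
  cpow_two)
open Pool.Agent.R432.C hiding leaf_dt leaf_nine
open Pool.Agent.R432.Q hiding adm_one SE_spec SE_nr prod_SE tE_prod tE_ne towerK
open Pool.Agent.R432.V hiding gg_twQ tw_prod tw1 tw2
open Pool.Agent.Y703.CT (IsHL chD Dt pD Ker Cls NoSplit)
open Pool.Agent.Y703.CX (pp)
open Pool.Agent.Y333.CX (pp_spec)

section tw

variable {J : Type} [Fintype J] {π : J → Ei} {e : J → ZMod 3} {D : ℕ} {S : Finset ℕ}

/-- one factor of the Hecke `L`-function of a twist -/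
theorem gg_twQ (hD : Dt π e) (hDp : (D : Ei) = pD π e ∨ (D : Ei) = -pD π e)
    (hA : Pre D S) (hL : LeafP π (SE S))
    (t : {l : ℕ // l ∈ S} → ZMod 3) {α : Ei} (hα : Pq α) (h1 : ¬ α ∣ ((D : ℕ) : Ei))
    (h2 : ∀ l ∈ S, ¬ α ∣ ((l : ℕ) : Ei)) (s : ℂ) :
    gg (πL π (tE t)) (fun i => -eL e (tE t) i) s α =
      (toC (w ^ (-cs α ((D : ℕ) : Ei)).val * α) * ((nr α : ℤ) : ℂ) ^ (-s)) *
        toC w ^ (∑ i : {l : ℕ // l ∈ S}, (-cs α ((i.1 : ℕ) : Ei)) * t i).val := by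
  have hpr : ¬ α ∣ ∏ i : {l : ℕ // l ∈ S}, ((i.1 : ℕ) : Ei) ^ (t i).val := by
    intro h
    obtain ⟨i, -, hi⟩ := (hα.prime.dvd_finsetProd_iff _).1 h
    exact h2 i.1 i.2 (hα.prime.dvd_of_dvd_pow hi)
  have hnd : ¬ α ∣ ((D : ℕ) : Ei) * ∏ i : {l : ℕ // l ∈ S}, ((i.1 : ℕ) : Ei) ^ (t i).val := by
    intro h
    rcases hα.prime.dvd_or_dvd h with h | h
    · exact h1 h
    · exact hpr h
  have hDt : ((D : ℕ) : Ei) * ∏ i : {l : ℕ // l ∈ S}, ((i.1 : ℕ) : Ei) ^ (t i).val =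
      pD (πL π (tE t)) (eL e (tE t)) ∨
      ((D : ℕ) : Ei) * ∏ i : {l : ℕ // l ∈ S}, ((i.1 : ℕ) : Ei) ^ (t i).val =
      -pD (πL π (tE t)) (eL e (tE t)) := by
    rw [leaf_pD, tE_prod hA t]
    rcases hDp with h | h
    · left; rw [h]
    · right; rw [h, neg_mul]
  have h3 := chD_prime Pool.Agent.Y350.CT.rec (leaf_dt hD hL (tE t)) hDt hα hnd
  have h4 : cs α (((D : ℕ) : Ei) * ∏ i : {l : ℕ // l ∈ S}, ((i.1 : ℕ) : Ei) ^ (t i).val) =
      cs α ((D : ℕ) : Ei) + ∑ i : {l : ℕ // l ∈ S}, cs α ((i.1 : ℕ) : Ei) * t i := by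
    rw [cs_mul' hα h1 hpr]
    congr 1
    rw [Pool.Agent.Y715.T.RecG.cs_prod hα.prime hα.norm _ _
      fun i _ h5 => h2 i.1 i.2 (hα.prime.dvd_of_dvd_pow h5)]
    refine Finset.sum_congr rfl fun i _ => ?_
    rw [Pool.Agent.Y715.T.RecG.cs_pow hα.prime hα.norm (h2 i.1 i.2), ZMod.natCast_zmod_val, mul_comm]
  unfold gg
  rw [h3, h4, neg_add]
  have hz3 : toC w ^ 3 = 1 := by rw [← map_pow, w_cube, map_one]
  have h5 : -(∑ i : {l : ℕ // l ∈ S}, cs α ((i.1 : ℕ) : Ei) * t i) =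
      ∑ i : {l : ℕ // l ∈ S}, (-cs α ((i.1 : ℕ) : Ei)) * t i := by
    rw [← Finset.sum_neg_distrib]
    exact Finset.sum_congr rfl fun i _ => (neg_mul _ _).symm
  rw [h5, pow_add_val hz3, map_mul, map_pow]
  ring

lemma wz : toC w ^ 2 + toC w + 1 = 0 := by
  have h1 : (w : Ei) ^ 2 + w + 1 = 0 := by decide
  rw [← map_pow, ← map_add, ← map_one toC, ← map_add, h1, map_zero]

/-- the product over the twists at one prime of `K` -/
theorem tw_prod (hD : Dt π e) (hDp : (D : Ei) = pD π e ∨ (D : Ei) = -pD π e)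
    (hA : Pre D S) (hL : LeafP π (SE S)) {α : Ei} (hα : Pq α)
    (h1 : ¬ α ∣ ((D : ℕ) : Ei)) (h2 : ∀ l ∈ S, ¬ α ∣ ((l : ℕ) : Ei)) (s : ℂ) {f : ℕ}
    (hf : f = fo (fun i : {l : ℕ // l ∈ S} => ((i.1 : ℕ) : Ei)) α) :
    ∏ t : {l : ℕ // l ∈ S} → ZMod 3, (1 - gg (πL π (tE t)) (fun i => -eL e (tE t) i) s α) =
      (1 - (toC (w ^ (-cs α ((D : ℕ) : Ei)).val * α) * ((nr α : ℤ) : ℂ) ^ (-s)) ^ f) ^
        (3 ^ S.card / f) := by
  have hcard : Fintype.card {l : ℕ // l ∈ S} = S.card := Fintype.card_coe S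
  rw [← hcard, ← loc (fun i : {l : ℕ // l ∈ S} => -cs α ((i.1 : ℕ) : Ei)) wz _ (fun h => ?_)
    (fun h => ?_)]
  · exact Finset.prod_congr rfl fun t _ => by rw [gg_twQ hD hDp hA hL t hα h1 h2 s]
  · have h5 : ∀ i : {l : ℕ // l ∈ S}, cs α ((i.1 : ℕ) : Ei) = 0 := fun i => neg_eq_zero.1 (h i)
    rw [hf]
    unfold fo
    exact if_pos h5
  · have h5 : ¬ ∀ i : {l : ℕ // l ∈ S}, cs α ((i.1 : ℕ) : Ei) = 0 :=
      fun h6 => h fun i => neg_eq_zero.2 (h6 i)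
    rw [hf]
    unfold fo
    exact if_neg h5

/-- the product over the twists at a prime number, split case -/
theorem tw1 (hD : Dt π e) (hDp : (D : Ei) = pD π e ∨ (D : Ei) = -pD π e)
    (hA : Pre D S) (hL : LeafP π (SE S)) {p : ℕ} (hp : p.Prime) (hm : p % 3 = 1)
    (h1 : ¬ p ∣ D) (h2 : ∀ l ∈ S, ¬ p ∣ l) (s : ℂ) {f : ℕ}
    (hf : f = fo (fun i : {l : ℕ // l ∈ S} => ((i.1 : ℕ) : Ei)) (pp p)) :
    ∏ t : {l : ℕ // l ∈ S} → ZMod 3, Gp (gg (πL π (tE t)) (fun i => -eL e (tE t) i) s) p =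
      (((1 - (toC (w ^ (-cs (pp p) ((D : ℕ) : Ei)).val * pp p) * ((p : ℕ) : ℂ) ^ (-s)) ^ f) *
        (1 - ((starRingEnd ℂ) (toC (w ^ (-cs (pp p) ((D : ℕ) : Ei)).val * pp p)) *
          ((p : ℕ) : ℂ) ^ (-s)) ^ f))⁻¹) ^ (3 ^ S.card / f) := by
  obtain ⟨hα, hn⟩ := pp_spec hp hm
  have hα' := pq_star hα
  have hn' : nr (star (pp p)) = p := by rw [nr_star, hn]
  have hf' : f = fo (fun i : {l : ℕ // l ∈ S} => ((i.1 : ℕ) : Ei)) (star (pp p)) := by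
    rw [hf]
    exact (fo_star (fun i : {l : ℕ // l ∈ S} => i.1) hα fun i => ndvd_nat hp hn (h2 i.1 i.2)).symm
  have g1 := tw_prod hD hDp hA hL hα (ndvd_nat hp hn h1) (fun l hl => ndvd_nat hp hn (h2 l hl)) s hf
  have g2 := tw_prod hD hDp hA hL hα' (ndvd_nat hp hn' h1) (fun l hl => ndvd_nat hp hn' (h2 l hl)) s
    hf'
  have h8 : toC (w ^ (-cs (star (pp p)) ((D : ℕ) : Ei)).val * star (pp p)) =
      (starRingEnd ℂ) (toC (w ^ (-cs (pp p) ((D : ℕ) : Ei)).val * pp p)) := by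
    rw [← Pool.Agent.Y696.CTK.toC_star', star_mul', cs_star_nat hα (ndvd_nat hp hn h1), neg_neg]
    have hst : star (w ^ (-cs (pp p) ((D : ℕ) : Ei)).val : Ei) =
        w ^ (cs (pp p) ((D : ℕ) : Ei)).val := by
      generalize cs (pp p) ((D : ℕ) : Ei) = c
      revert c
      decide
    rw [hst]
  rw [hn, Int.cast_natCast] at g1
  rw [hn', Int.cast_natCast, h8] at g2
  have h9 : ∀ t : {l : ℕ // l ∈ S} → ZMod 3,
      Gp (gg (πL π (tE t)) (fun i => -eL e (tE t) i) s) p =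
      (1 - gg (πL π (tE t)) (fun i => -eL e (tE t) i) s (pp p))⁻¹ *
      (1 - gg (πL π (tE t)) (fun i => -eL e (tE t) i) s (star (pp p)))⁻¹ := by
    intro t
    unfold Gp
    rw [if_pos hm]
  rw [Finset.prod_congr rfl fun t _ => h9 t, Finset.prod_mul_distrib, Finset.prod_inv_distrib,
    Finset.prod_inv_distrib, g1, g2, ← mul_inv, ← mul_pow, inv_pow]

/-- the product over the twists at a prime number, inert case -/
theorem tw2 (hD : Dt π e) (hDp : (D : Ei) = pD π e ∨ (D : Ei) = -pD π e)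
    (hA : Pre D S) (hL : LeafP π (SE S)) {p : ℕ} (hp : p.Prime) (hm : p % 3 = 2)
    (h1 : ¬ p ∣ D) (h2 : ∀ l ∈ S, ¬ p ∣ l) (s : ℂ) :
    ∏ t : {l : ℕ // l ∈ S} → ZMod 3, Gp (gg (πL π (tE t)) (fun i => -eL e (tE t) i) s) p =
      ((1 + (p : ℂ) * (((p : ℕ) : ℂ) ^ (-s)) ^ 2)⁻¹) ^ (3 ^ S.card) := by
  have hfact := Fact.mk hp
  have hα : Pq (-((p : ℕ) : Ei)) := inert hp hm
  have hnr : nr (-((p : ℕ) : Ei)) = (p : ℤ) ^ 2 := by rw [nr_neg, nr_nat]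
  have hnd : ∀ n : ℕ, ¬ p ∣ n → ¬ -((p : ℕ) : Ei) ∣ ((n : ℕ) : Ei) := by
    intro n hn h
    rw [neg_dvd] at h
    exact hn (nat_dvd_nat h)
  have hcs : ∀ n : ℕ, ¬ p ∣ n → cs (-((p : ℕ) : Ei)) ((n : ℕ) : Ei) = 0 := by
    intro n hn
    have h5 := cs_inert hm hα (n := (n : ℤ)) (fun h => hn (by exact_mod_cast h))
    rwa [Int.cast_natCast] at h5
  have hf : (1 : ℕ) = fo (fun i : {l : ℕ // l ∈ S} => ((i.1 : ℕ) : Ei)) (-((p : ℕ) : Ei)) := by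
    have h5 : ∀ i : {l : ℕ // l ∈ S}, cs (-((p : ℕ) : Ei)) ((i.1 : ℕ) : Ei) = 0 :=
      fun i => hcs i.1 (h2 i.1 i.2)
    unfold fo
    exact (if_pos h5).symm
  have g1 := tw_prod hD hDp hA hL hα (hnd D h1) (fun l hl => hnd l (h2 l hl)) s hf
  have h9 : ∀ t : {l : ℕ // l ∈ S} → ZMod 3,
      Gp (gg (πL π (tE t)) (fun i => -eL e (tE t) i) s) p =
      (1 - gg (πL π (tE t)) (fun i => -eL e (tE t) i) s (-((p : ℕ) : Ei)))⁻¹ := by
    intro t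
    unfold Gp
    rw [if_neg (by omega)]
  have hm' : ¬ p % 3 = 1 := by omega
  have h10 : ((((p : ℤ) ^ 2 : ℤ) : ℂ)) ^ (-s) = (((p : ℕ) : ℂ) ^ (-s)) ^ 2 := by
    push_cast
    exact npow p 2 (-s)
  rw [Finset.prod_congr rfl fun t _ => h9 t, Finset.prod_inv_distrib, g1, hnr, h10, hcs D h1, neg_zero,
    ZMod.val_zero, pow_zero, one_mul, map_neg, map_natCast, Nat.div_one, pow_one, inv_pow]
  congr 2
  ring

end tw

end Pool.Agent.R432.JG
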