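import Pool.Agent.R432.V12
import Pool.Agent.R432.JG.G2

/-!
# The Euler product of `E_D` over `L = ℚ(∛l : l ∈ S)`: assembly
-/

set_option autoImplicit false
set_option linter.unusedSectionVars false

open NumberField IsDedekindDomain Filter Complex
open scoped Topology Classical

namespace Pool.Agent.R432.JG

open Pool.Agent.Y692.QS hiding chi
open Pool.Agent.Y715.T.Rec (cs nn)
open Pool.Agent.Y715.T.RecG (Pq cs_spec)
open Pool.Agent.Y696.CT (pq_star cs_star_int cs_inert inert int_ndvd im_star_ne gg chD_prime cs_mul'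
  cpow_two)
open Pool.Agent.R432.C hiding leaf_dt leaf_nine
open Pool.Agent.R432.Q hiding adm_one SE_spec SE_nr prod_SE tE_prod tE_ne towerK
open Pool.Agent.R432.V hiding gg_twQ tw_prod tw1 tw2 eulL
open Pool.Agent.Y703.CT (IsHL chD Dt pD Ker Cls NoSplit)
open Pool.Agent.Y703.CX (pp)
open Pool.Agent.Y333.CX (pp_spec)

variable {K L F : Type} [Field K] [NumberField K] [Field L] [NumberField L] [Field F]
  [NumberField F] [Algebra K F] [Algebra L F] {j : Ei ≃+* 𝓞 K}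

/-- **The Euler product of `E_D` over `L`.** -/
theorem eulL {S : Finset ℕ} {x : {l : ℕ // l ∈ S} → 𝓞 F} (C : Ctx L j S x)
    {J : Type} [Fintype J] [Nonempty J] {π : J → Ei} {e : J → ZMod 3} (hD : Dt π e)
    (hKer : ∀ t : {l : ℕ // l ∈ S} → ZMod 3, Ker (πL π (tE t)) (eL e (tE t))) (h9 : ¬ (9 : ℤ) ∣ nr (pD π e) - 1) {D : ℕ} (hD0 : D ≠ 0)
    (hDp : (D : Ei) = pD π e ∨ (D : Ei) = -pD π e) (hA : Pre D S)
    (hL : LeafP π (SE S)) :
    ∃ G : ℂ → ℂ, Differentiable ℂ G ∧ G 1 ≠ 0 ∧ ∀ s : ℂ, 3 / 2 < s.re →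
      HasProd (fun u : {u : HeightOneSpectrum (𝓞 L) |
        ((3 * D * ∏ l ∈ S, l : ℕ) : 𝓞 L) ∉ u.asIdeal} => ef ((D : ℕ) : 𝓞 L) s u.1) (G s) := by
  obtain ⟨M, hM⟩ : ∃ M : ℕ, M = 3 * D * ∏ l ∈ S, l := ⟨_, rfl⟩
  rw [← hM]
  have hM0 : M ≠ 0 := by
    rw [hM]
    exact mul_ne_zero (mul_ne_zero (by norm_num) hD0)
      (Finset.prod_ne_zero_iff.2 fun l hl => (hA.pr l hl).ne_zero)
  have hM0' : ((M : ℕ) : Ei) ≠ 0 := by
    intro h
    have h1 := nat_dvd_nat (a := 0) (b := M) (by rw [h]; exact dvd_zero _)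
    exact hM0 (Nat.eq_zero_of_zero_dvd h1)
  have hMp : ∀ p : ℕ, ¬ p ∣ M → p ≠ 3 ∧ ¬ p ∣ D ∧ ∀ l ∈ S, ¬ p ∣ l := by
    intro p hp
    rw [hM] at hp
    refine ⟨fun h => hp ?_, fun h => hp ((h.mul_left 3).mul_right _), fun l hl h => hp ?_⟩
    · rw [h, mul_assoc]
      exact dvd_mul_right _ _
    · exact (h.trans (Finset.dvd_prod_of_mem _ hl)).mul_left _
  -- the functions of the twists
  have hV := fun t : {l : ℕ // l ∈ S} → ZMod 3 =>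
    Pool.Agent.Y696.CTE.val_ne (leaf_dt hD hL (tE t)) (hKer t)
      (leaf_nine hL h9 (tE t))
  choose L0 hL01 hL02 using hV
  choose G hG1 hG2 hG3 using fun t : {l : ℕ // l ∈ S} → ZMod 3 =>
    gm (leaf_dt hD hL (tE t)).pq (hL01 t) (hL02 t) hM0'
  refine ⟨fun s => ∏ t : {l : ℕ // l ∈ S} → ZMod 3, G t s,
    Differentiable.fun_finsetProd fun t _ => hG1 t,
    Finset.prod_ne_zero_iff.2 fun t _ => hG2 t, fun s hs => ?_⟩
  have h3M : 3 ∣ M := ⟨D * ∏ l ∈ S, l, by rw [hM, mul_assoc]⟩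
  have hreg := fun t : {l : ℕ // l ∈ S} → ZMod 3 => regroup h3M (hG3 t s hs)
  set U : Set (HeightOneSpectrum (𝓞 L)) := {u | ((M : ℕ) : 𝓞 L) ∉ u.asIdeal} with hU
  have hex : ∀ u : U, ∃ p : {p : ℕ // p.Prime ∧ ¬ p ∣ M}, ((p.1 : ℕ) : 𝓞 L) ∈ u.1.asIdeal := by
    intro u
    obtain ⟨p, hp, hu⟩ := exists_p_below u.1
    refine ⟨⟨p, hp, fun h => u.2 ?_⟩, hu⟩
    obtain ⟨c, rfl⟩ := h
    rw [Nat.cast_mul]
    exact u.1.asIdeal.mul_mem_right _ hu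
  choose β hβ using hex
  have hβu : ∀ (u : U) (p : {p : ℕ // p.Prime ∧ ¬ p ∣ M}), ((p.1 : ℕ) : 𝓞 L) ∈ u.1.asIdeal →
      β u = p := by
    intro u p hp
    exact Subtype.ext (p_below_unique (β u).2.1 p.2.1 (hβ u) hp)
  have hnM : ∀ (p : {p : ℕ // p.Prime ∧ ¬ p ∣ M}) (u : HeightOneSpectrum (𝓞 L)),
      ((p.1 : ℕ) : 𝓞 L) ∈ u.asIdeal → ((M : ℕ) : 𝓞 L) ∉ u.asIdeal := by
    intro p u hu h
    have h5 : IsCoprime (p.1 : ℤ) (M : ℤ) := by
      rw [Int.isCoprime_iff_gcd_eq_one]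
      have h6 : Nat.Coprime p.1 M := (Nat.Prime.coprime_iff_not_dvd p.2.1).2 p.2.2
      exact_mod_cast h6
    obtain ⟨b, c, hbc⟩ := h5
    apply u.isPrime.ne_top
    rw [Ideal.eq_top_iff_one]
    have h7 : ((b * p.1 + c * M : ℤ) : 𝓞 L) = 1 := by rw [hbc]; norm_num
    rw [← h7]
    push_cast
    exact u.asIdeal.add_mem (u.asIdeal.mul_mem_left _ hu) (u.asIdeal.mul_mem_left _ h)
  refine eul_abs (fun u hu => ?_) hs β (h := fun p => ∏ t : {l : ℕ // l ∈ S} → ZMod 3,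
    Gp (gg (πL π (tE t)) (fun i => -eL e (tE t) i) s) p.1) ?_ ?_
  · obtain ⟨h1, h2, h3⟩ := hMp _ (β ⟨u, hu⟩).2.2
    exact tr_ex C (β ⟨u, hu⟩).2.1 h1 h3 h2 (hβ ⟨u, hu⟩)
  · intro p
    obtain ⟨h1, h2, h3⟩ := hMp p.1 p.2.2
    let E : {u : U // β u = p} ≃ {u : HeightOneSpectrum (𝓞 L) // ((p.1 : ℕ) : 𝓞 L) ∈ u.asIdeal} :=
      { toFun := fun u => ⟨u.1.1, by have h1 := hβ u.1; rwa [u.2] at h1⟩
        invFun := fun u => ⟨⟨u.1, hnM p u.1 u.2⟩, hβu _ _ u.2⟩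
        left_inv := fun u => rfl
        right_inv := fun u => rfl }
    have hm : p.1 % 3 = 1 ∨ p.1 % 3 = 2 := by
      have : p.1 % 3 ≠ 0 := fun h => h1
        ((Nat.prime_dvd_prime_iff_eq Nat.prime_three p.2.1).1 (Nat.dvd_of_mod_eq_zero h)).symm
      omega
    rcases hm with hm | hm
    · have h4 := pl1 C p.2.1 hm h3 h2 s rfl
      have h5 := E.hasProd_iff.2 h4
      show HasProd _ (∏ t : {l : ℕ // l ∈ S} → ZMod 3,
        Gp (gg (πL π (tE t)) (fun i => -eL e (tE t) i) s) p.1)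
      rw [tw1 hD hDp hA hL p.2.1 hm h2 h3 s rfl]
      exact h5
    · have h4 := pl2 C p.2.1 hm h3 h2 s
      have h5 := E.hasProd_iff.2 h4
      show HasProd _ (∏ t : {l : ℕ // l ∈ S} → ZMod 3,
        Gp (gg (πL π (tE t)) (fun i => -eL e (tE t) i) s) p.1)
      rw [tw2 hD hDp hA hL p.2.1 hm h2 h3 s]
      exact h5
  · exact hasProd_prod fun t _ => hreg t

end Pool.Agent.R432.JG
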