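import Pool.Agent.R432.JG.G3
import Pool.Agent.R432.R4

/-!
# The `L`-function, the points and the Tate-Shafarevich group of `E_D` over `L = ℚ(∛l : l ∈ S)`
-/

set_option autoImplicit false
set_option linter.unusedSectionVars false

open NumberField IsDedekindDomain Polynomial

namespace Pool.Agent.R432.JG

open Pool.Agent.Y692.QS hiding chi
open Pool.Agent.Y703.CT (IsHL chD Dt pD Ker Cls NoSplit)
open Pool.Agent.R432.C hiding leaf_dt leaf_nine
open Pool.Agent.R432.Q hiding adm_one SE_spec SE_nr prod_SE tE_prod tE_ne towerK towerQ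
open Pool.Agent.R432.V hiding gg_twQ tw_prod tw1 tw2 eulL valQ
open Pool.Agent.TH841.NF.D (Sha)

theorem valQ {D : ℕ} (hC : Cls D) {S : Finset ℕ} (hA : Pre D S)
    {J : Type} [Fintype J] [Nonempty J] {π : J → Ei} {e : J → ZMod 3} (hD : Dt π e)
    (hDp : (D : Ei) = pD π e ∨ (D : Ei) = -pD π e)
    (hKer : ∀ t : {l : ℕ // l ∈ S} → ZMod 3, Ker (πL π (tE t)) (eL e (tE t)))
    {L : Type} [Field L] [NumberField L] (r : ℕ → L) (hr : ∀ l ∈ S, r l ^ 3 = (l : L))
    (hgen : ∀ M : Subfield L, (∀ l ∈ S, r l ∈ M) → M = ⊤) :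
    ∃ G : ℂ → ℂ, Differentiable ℂ G ∧ G 1 ≠ 0 ∧ ∀ s : ℂ, 3 / 2 < s.re →
      HasProd (fun u : {u : HeightOneSpectrum (𝓞 L) |
        ((3 * D * ∏ l ∈ S, l : ℕ) : 𝓞 L) ∉ u.asIdeal} => ef ((D : ℕ) : 𝓞 L) s u.1) (G s) := by
  have hle := finrank_le' r S hr hgen
  have hcyc : IsCyclotomicExtension {3} ℚ (CyclotomicField 3 ℚ) :=
    Pool.Agent.Y948.CTP.cyc_rat _ _ (CyclotomicField.isCyclotomicExtension 3 ℚ)
  obtain ⟨⟨j, -⟩, -⟩ := Pool.Agent.Y455.CTK.jex (CyclotomicField 3 ℚ)
  obtain ⟨F, hF1, hF2, hF3, hF4⟩ : ∃ (F : Type) (_ : Field F) (_ : NumberField F) (_ : Algebra L F),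
      IsCyclotomicExtension {3} L F :=
    ⟨CyclotomicField 3 L, inferInstance, inferInstance, inferInstance, inferInstance⟩
  have hirrQ : Irreducible (cyclotomic 3 ℚ) := cyclotomic.irreducible_rat (by norm_num)
  have hζ : IsPrimitiveRoot (IsCyclotomicExtension.zeta 3 ℚ (CyclotomicField 3 ℚ)) 3 :=
    IsCyclotomicExtension.zeta_spec 3 ℚ (CyclotomicField 3 ℚ)
  have hζF : IsPrimitiveRoot (IsCyclotomicExtension.zeta 3 L F) 3 :=
    IsCyclotomicExtension.zeta_spec 3 L F
  let φ : CyclotomicField 3 ℚ →ₐ[ℚ] F := (hζ.embeddingsEquivPrimitiveRoots F hirrQ).symm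
    ⟨_, (mem_primitiveRoots (by norm_num)).2 hζF⟩
  have hφ : φ (IsCyclotomicExtension.zeta 3 ℚ (CyclotomicField 3 ℚ)) =
      IsCyclotomicExtension.zeta 3 L F := by
    have h1 := hζ.embeddingsEquivPrimitiveRoots_apply_coe F hirrQ φ
    rw [← h1, Equiv.apply_symm_apply]
  let hAl : Algebra (CyclotomicField 3 ℚ) F := φ.toRingHom.toAlgebra
  have hω := om_K j
  -- the field over `L` generated by `ω`
  have hgenL : ∀ M : Subfield F, (∀ y : L, algebraMap L F y ∈ M) →
      IsCyclotomicExtension.zeta 3 L F ∈ M → M = ⊤ := by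
    intro M h4 h5
    have h6 : (Algebra.adjoin L {IsCyclotomicExtension.zeta 3 L F} : Subalgebra L F) = ⊤ :=
      IsCyclotomicExtension.adjoin_primitive_root_eq_top hζF
    rw [eq_top_iff]
    intro y _
    have h7 : y ∈ (Algebra.adjoin L {IsCyclotomicExtension.zeta 3 L F} : Subalgebra L F) := by
      rw [h6]; trivial
    refine Algebra.adjoin_induction (p := fun z _ => z ∈ M) ?_ ?_ ?_ ?_ h7
    · rintro z hz
      rw [Set.mem_singleton_iff.1 hz]
      exact h5
    · exact h4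
    · intro x y _ _ hx hy
      exact M.add_mem hx hy
    · intro x y _ _ hx hy
      exact M.mul_mem hx hy
  have hgen' : ∀ M : Subfield F, (∀ k : CyclotomicField 3 ℚ, algebraMap (CyclotomicField 3 ℚ) F k ∈ M) →
      (∀ l ∈ S, algebraMap L F (r l) ∈ M) → M = ⊤ := by
    intro M h1 h2
    have h3 := hgen (M.comap (algebraMap L F)) fun l hl => h2 l hl
    refine hgenL M (fun y => ?_) ?_
    · have h5 : y ∈ M.comap (algebraMap L F) := by rw [h3]; trivial
      exact h5
    · rw [← hφ]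
      exact h1 _
  have hx3 : ∀ l ∈ S, algebraMap L F (r l) ^ 3 = (l : F) := fun l hl => by
    rw [← map_pow, hr l hl, map_natCast]
  obtain ⟨g1, -, -⟩ := towerK (K := CyclotomicField 3 ℚ) j hC hA hD hDp hKer (F := F)
    (fun l => algebraMap L F (r l)) hx3 hgen'
  have ht : IsScalarTower ℚ (CyclotomicField 3 ℚ) F :=
    IsScalarTower.of_algebraMap_eq fun q => (φ.commutes q).symm
  have ht' : IsScalarTower ℚ L F := IsScalarTower.of_algebraMap_eq fun q => by simp
  have e1 : Module.finrank ℚ (CyclotomicField 3 ℚ) * Module.finrank (CyclotomicField 3 ℚ) F =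
      Module.finrank ℚ F := Module.finrank_mul_finrank ℚ _ F
  have e2 : Module.finrank ℚ L * Module.finrank L F = Module.finrank ℚ F :=
    Module.finrank_mul_finrank ℚ L F
  have e3 : Module.finrank ℚ (CyclotomicField 3 ℚ) = 2 := by
    rw [IsCyclotomicExtension.finrank (CyclotomicField 3 ℚ) hirrQ]
    decide
  have e4 : Module.finrank L F ≤ 2 := cyc_le
  have e5 : Module.finrank L F = 2 := by
    rw [g1, e3] at e1
    have h1 : 0 < 3 ^ S.card := by positivity
    have h2 : Module.finrank ℚ L * Module.finrank L F ≤ Module.finrank ℚ L * 2 :=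
      Nat.mul_le_mul_left _ e4
    have h3 : Module.finrank ℚ L = 3 ^ S.card := by omega
    rw [h3] at e2
    have h4 : 3 ^ S.card * Module.finrank L F = 3 ^ S.card * 2 := by rw [e2, ← e1, mul_comm]
    exact Nat.eq_of_mul_eq_mul_left h1 h4
  -- the context
  obtain ⟨hfd, hgal⟩ := gal3 (F := F) hω (I := {l : ℕ // l ∈ S})
    (fun i => ((i.1 : ℕ) : CyclotomicField 3 ℚ)) (fun i => algebraMap L F (r i.1))
    (fun i => by rw [hx3 i.1 i.2, map_natCast])
    (fun M h1 h2 => hgen' M h1 fun l hl => h2 ⟨l, hl⟩)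
  have hint : ∀ i : {l : ℕ // l ∈ S}, IsIntegral ℤ (algebraMap L F (r i.1)) := by
    intro i
    refine IsIntegral.of_pow (n := 3) (by norm_num) ?_
    rw [hx3 i.1 i.2]
    have h1 : IsIntegral ℤ ((algebraMap ℤ F) (i.1 : ℤ)) := isIntegral_algebraMap
    simpa using h1
  have C : Ctx (K := CyclotomicField 3 ℚ) L j S
      (fun i : {l : ℕ // l ∈ S} => (⟨algebraMap L F (r i.1), hint i⟩ : 𝓞 F)) := by
    refine ⟨hgal, IsCyclotomicExtension.isGalois {3} L F, g1, e5, ?_, ?_, ?_⟩
    · intro i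
      apply RingOfIntegers.ext
      rw [io_nat]
      push_cast
      exact hx3 i.1 i.2
    · intro M h1 h2
      exact hgen' M h1 fun l hl => h2 ⟨l, hl⟩
    · intro g hg
      have hgw : g ((io F j w : 𝓞 F) : F) = ((io F j w : 𝓞 F) : F) :=
        congrArg (fun z : 𝓞 F => (z : F)) hg
      have h5 := hgenL (RingHom.eqLocusField (g : F →+* F) (RingHom.id F))
        (fun y => g.commutes y) (by
          have hw : (((io F j w : 𝓞 F) : F)) ^ 2 + ((io F j w : 𝓞 F) : F) + 1 = 0 := by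
            rw [io_coe, ← map_pow, ← map_add, ← map_one (algebraMap (CyclotomicField 3 ℚ) F),
              ← map_add, hω, map_zero]
          have h6 : (IsCyclotomicExtension.zeta 3 L F) ^ 3 = (1 : F) ^ 3 := by
            rw [hζF.pow_eq_one, one_pow]
          obtain ⟨c, hc⟩ := cube_roots hw h6
          show g _ = _
          rw [hc, mul_one, map_pow, hgw]
          rfl)
      ext y
      have h7 : y ∈ RingHom.eqLocusField (g : F →+* F) (RingHom.id F) := by rw [h5]; trivial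
      exact h7
  -- the factors
  have h9 := Pool.Agent.Y703.CT.nr_nine hC hDp
  have hL := leafP hD hDp hA
  exact eulL C hD hKer h9 hC.1.1 hDp hA hL

/-- **The tower over `ℚ`.** -/
theorem towerQ {D : ℕ} (hC : Cls D) {S : Finset ℕ} (hA : Pre D S)
    {J : Type} [Fintype J] [Nonempty J] {π : J → Ei} {e : J → ZMod 3} (hD : Dt π e)
    (hDp : (D : Ei) = pD π e ∨ (D : Ei) = -pD π e)
    (hKer : ∀ t : {l : ℕ // l ∈ S} → ZMod 3, Ker (πL π (tE t)) (eL e (tE t)))
    {L : Type} [Field L] [NumberField L] (r : ℕ → L) (hr : ∀ l ∈ S, r l ^ 3 = (l : L))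
    (hgen : ∀ M : Subfield L, (∀ l ∈ S, r l ∈ M) → M = ⊤) :
    Module.finrank ℚ L = 3 ^ S.card ∧ Finite (ED ((D : ℕ) : L)).toAffine.Point ∧
    ∀ (k : ℕ) (y : Sha (ED ((D : ℕ) : L))), 3 ^ k • y = 0 → 3 ^ S.card • y = 0 := by
  have hle := finrank_le' r S hr hgen
  have hcyc : IsCyclotomicExtension {3} ℚ (CyclotomicField 3 ℚ) :=
    Pool.Agent.Y948.CTP.cyc_rat _ _ (CyclotomicField.isCyclotomicExtension 3 ℚ)
  obtain ⟨⟨j, -⟩, -⟩ := Pool.Agent.Y455.CTK.jex (CyclotomicField 3 ℚ)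
  obtain ⟨F, hF1, hF2, hF3, hF4⟩ : ∃ (F : Type) (_ : Field F) (_ : NumberField F) (_ : Algebra L F),
      IsCyclotomicExtension {3} L F :=
    ⟨CyclotomicField 3 L, inferInstance, inferInstance, inferInstance, inferInstance⟩
  have hirrQ : Irreducible (cyclotomic 3 ℚ) := cyclotomic.irreducible_rat (by norm_num)
  have hζ : IsPrimitiveRoot (IsCyclotomicExtension.zeta 3 ℚ (CyclotomicField 3 ℚ)) 3 :=
    IsCyclotomicExtension.zeta_spec 3 ℚ (CyclotomicField 3 ℚ)
  have hζF : IsPrimitiveRoot (IsCyclotomicExtension.zeta 3 L F) 3 :=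
    IsCyclotomicExtension.zeta_spec 3 L F
  let φ : CyclotomicField 3 ℚ →ₐ[ℚ] F := (hζ.embeddingsEquivPrimitiveRoots F hirrQ).symm
    ⟨_, (mem_primitiveRoots (by norm_num)).2 hζF⟩
  have hφ : φ (IsCyclotomicExtension.zeta 3 ℚ (CyclotomicField 3 ℚ)) =
      IsCyclotomicExtension.zeta 3 L F := by
    have h1 := hζ.embeddingsEquivPrimitiveRoots_apply_coe F hirrQ φ
    rw [← h1, Equiv.apply_symm_apply]
  let hAl : Algebra (CyclotomicField 3 ℚ) F := φ.toRingHom.toAlgebra
  have hgen' : ∀ M : Subfield F, (∀ k : CyclotomicField 3 ℚ, algebraMap (CyclotomicField 3 ℚ) F k ∈ M) →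
      (∀ l ∈ S, algebraMap L F (r l) ∈ M) → M = ⊤ := by
    intro M h1 h2
    have h3 := hgen (M.comap (algebraMap L F)) fun l hl => h2 l hl
    have h4 : ∀ y : L, algebraMap L F y ∈ M := by
      intro y
      have h5 : y ∈ M.comap (algebraMap L F) := by rw [h3]; trivial
      exact h5
    have h5 : IsCyclotomicExtension.zeta 3 L F ∈ M := by
      rw [← hφ]
      exact h1 _
    have h6 : (Algebra.adjoin L {IsCyclotomicExtension.zeta 3 L F} : Subalgebra L F) = ⊤ :=
      IsCyclotomicExtension.adjoin_primitive_root_eq_top hζF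
    rw [eq_top_iff]
    intro y _
    have h7 : y ∈ (Algebra.adjoin L {IsCyclotomicExtension.zeta 3 L F} : Subalgebra L F) := by
      rw [h6]; trivial
    refine Algebra.adjoin_induction (p := fun z _ => z ∈ M) ?_ ?_ ?_ ?_ h7
    · rintro z hz
      rw [Set.mem_singleton_iff.1 hz]
      exact h5
    · exact h4
    · intro x y _ _ hx hy
      exact M.add_mem hx hy
    · intro x y _ _ hx hy
      exact M.mul_mem hx hy
  obtain ⟨g1, g2, g3⟩ := towerK (K := CyclotomicField 3 ℚ) j hC hA hD hDp hKer (F := F)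
    (fun l => algebraMap L F (r l)) (fun l hl => by rw [← map_pow, hr l hl, map_natCast]) hgen'
  have ht : IsScalarTower ℚ (CyclotomicField 3 ℚ) F :=
    IsScalarTower.of_algebraMap_eq fun q => (φ.commutes q).symm
  have ht' : IsScalarTower ℚ L F := IsScalarTower.of_algebraMap_eq fun q => by simp
  have e1 : Module.finrank ℚ (CyclotomicField 3 ℚ) * Module.finrank (CyclotomicField 3 ℚ) F =
      Module.finrank ℚ F := Module.finrank_mul_finrank ℚ _ F
  have e2 : Module.finrank ℚ L * Module.finrank L F = Module.finrank ℚ F :=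
    Module.finrank_mul_finrank ℚ L F
  have e3 : Module.finrank ℚ (CyclotomicField 3 ℚ) = 2 := by
    rw [IsCyclotomicExtension.finrank (CyclotomicField 3 ℚ) hirrQ]
    decide
  have e4 : Module.finrank L F ≤ 2 := cyc_le
  have e5 : Module.finrank ℚ L = 3 ^ S.card ∧ Module.finrank L F = 2 := by
    rw [g1, e3] at e1
    have h1 : 0 < 3 ^ S.card := by positivity
    have h2 : Module.finrank ℚ L * Module.finrank L F ≤ Module.finrank ℚ L * 2 :=
      Nat.mul_le_mul_left _ e4
    have h3 : Module.finrank ℚ L = 3 ^ S.card := by omega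
    refine ⟨h3, ?_⟩
    rw [h3] at e2
    have h4 : 3 ^ S.card * Module.finrank L F = 3 ^ S.card * 2 := by rw [e2, ← e1, mul_comm]
    exact Nat.eq_of_mul_eq_mul_left h1 h4
  exact ⟨e5.1, pts_sub (F := F) g2, shpD D S.card e5.2 g3⟩

end Pool.Agent.R432.JG
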