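import Pool.Agent.R432.JG.G4

/-!
# Numbers: if all the numbers `D ∏ l ^ {e l}` are good then the theorem holds over `ℚ(∛l : l ∈ S)`
-/

set_option autoImplicit false
set_option linter.unusedSectionVars false

open NumberField IsDedekindDomain Polynomial

namespace Pool.Agent.R432.JG

open Pool.Agent.Y692.QS hiding chi
open Pool.Agent.Y703.CT (IsHL chD Dt pD Ker Cls NoSplit Base)
open Pool.Agent.R432.C hiding leaf_dt leaf_nine
open Pool.Agent.R432.Q hiding adm_one SE_spec SE_nr prod_SE tE_prod tE_ne towerK towerQ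
open Pool.Agent.TH841.NF.D (Sha)

/-- the twist of `D` with exponents `t` -/
def twN (D : ℕ) (S : Finset ℕ) (t : {l : ℕ // l ∈ S} → ZMod 3) : ℕ :=
  D * ∏ i : {l : ℕ // l ∈ S}, i.1 ^ (t i).val

section cls

variable {D : ℕ} {S : Finset ℕ} {t : {l : ℕ // l ∈ S} → ZMod 3}

lemma prod_nine (hA : Pre D S) (t : {l : ℕ // l ∈ S} → ZMod 3) :
    (∏ i : {l : ℕ // l ∈ S}, i.1 ^ (t i).val) % 9 = 1 := by
  have h1 : ∀ s : Finset {l : ℕ // l ∈ S}, (∏ i ∈ s, i.1 ^ (t i).val) ≡ 1 [MOD 9] := by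
    intro s
    induction s using Finset.induction_on with
    | empty => rfl
    | insert a s ha ih =>
      rw [Finset.prod_insert ha]
      have h2 : a.1 ^ (t a).val ≡ 1 [MOD 9] := by
        have h3 : a.1 ≡ 1 [MOD 9] := hA.nine a.1 a.2
        have h4 := h3.pow (t a).val
        rwa [one_pow] at h4
      have h5 := h2.mul ih
      rwa [mul_one] at h5
  exact h1 Finset.univ

lemma prime_of_dvd (hA : Pre D S) {p : ℕ} (hp : p.Prime)
    (h : p ∣ ∏ i : {l : ℕ // l ∈ S}, i.1 ^ (t i).val) : p ∈ S := by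
  obtain ⟨i, -, hi⟩ := (hp.prime.dvd_finset_prod_iff _).1 h
  have h1 := hp.dvd_of_dvd_pow hi
  have h2 := (Nat.prime_dvd_prime_iff_eq hp (hA.pr i.1 i.2)).1 h1
  rw [h2]
  exact i.2

lemma cop (hA : Pre D S) : Nat.Coprime D (∏ i : {l : ℕ // l ∈ S}, i.1 ^ (t i).val) := by
  apply Nat.Coprime.prod_right
  intro i _
  apply Nat.Coprime.pow_right
  exact ((Nat.Prime.coprime_iff_not_dvd (hA.pr i.1 i.2)).2 (hA.nd i.1 i.2)).symm

lemma tw_cls (hC : Cls D) (hA : Pre D S) : Cls (twN D S t) := by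
  obtain ⟨⟨h0, h3, hcf⟩, h91, h98, q, hq, hq2, hqD, hall⟩ := hC
  have hP0 : (∏ i : {l : ℕ // l ∈ S}, i.1 ^ (t i).val) ≠ 0 :=
    Finset.prod_ne_zero_iff.2 fun i _ => pow_ne_zero _ (hA.pr i.1 i.2).ne_zero
  have hP9 := prod_nine hA t
  have hmod : (twN D S t) % 9 = D % 9 := by
    unfold twN
    rw [Nat.mul_mod, hP9, mul_one, Nat.mod_mod]
  refine ⟨⟨mul_ne_zero h0 hP0, ?_, ?_⟩, ?_, ?_, q, hq, hq2, hqD.mul_right _, ?_⟩
  · intro h
    have : (twN D S t) % 3 = 0 := Nat.mod_eq_zero_of_dvd h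
    have h4 : D % 3 ≠ 0 := fun h5 => h3 (Nat.dvd_of_mod_eq_zero h5)
    omega
  · intro p hp hdvd
    unfold twN at hdvd
    by_cases hpD : p ∣ D
    · have h5 : Nat.Coprime (p ^ 3) (∏ i : {l : ℕ // l ∈ S}, i.1 ^ (t i).val) :=
        Nat.Coprime.coprime_dvd_left (pow_dvd_pow_of_dvd hpD 3) ((cop hA).pow_left 3)
      exact hcf p hp (h5.dvd_of_dvd_mul_right hdvd)
    · have h5 : Nat.Coprime (p ^ 3) D :=
        ((Nat.Prime.coprime_iff_not_dvd hp).2 hpD).pow_left 3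
      have h6 := h5.dvd_of_dvd_mul_left hdvd
      have hpS : p ∈ S := prime_of_dvd hA hp ((dvd_pow_self p (by norm_num)).trans h6)
      have h7 : (∏ i : {l : ℕ // l ∈ S}, i.1 ^ (t i).val) =
          p ^ (t ⟨p, hpS⟩).val * ∏ i ∈ Finset.univ.erase (⟨p, hpS⟩ : {l : ℕ // l ∈ S}),
            i.1 ^ (t i).val := (Finset.mul_prod_erase _ _ (Finset.mem_univ _)).symm
      rw [h7] at h6
      have h8 : Nat.Coprime (p ^ 3) (∏ i ∈ Finset.univ.erase (⟨p, hpS⟩ : {l : ℕ // l ∈ S}),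
            i.1 ^ (t i).val) := by
        apply Nat.Coprime.prod_right
        intro i hi
        apply Nat.Coprime.pow
        rw [Nat.coprime_primes hp (hA.pr i.1 i.2)]
        intro h9
        exact (Finset.mem_erase.1 hi).1 (Subtype.ext h9.symm)
      have h9 := h8.dvd_of_dvd_mul_right h6
      have h10 := (Nat.pow_dvd_pow_iff_le_right hp.one_lt).1 h9
      have h11 := ZMod.val_lt (t ⟨p, hpS⟩)
      omega
  · rw [hmod]; exact h91
  · rw [hmod]; exact h98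
  · intro p hp hd hne
    unfold twN at hd
    rcases (Nat.Prime.dvd_mul hp).1 hd with h | h
    · exact hall p hp h hne
    · have h5 := hA.nine p (prime_of_dvd hA hp h)
      omega

end cls

/-- **All twists good.** -/
theorem all_good {D : ℕ} (hC : Cls D) {S : Finset ℕ} (hA : Pre D S)
    (hN : ∀ t : {l : ℕ // l ∈ S} → ZMod 3, NoSplit (twN D S t))
    {L : Type} [Field L] [NumberField L] (r : ℕ → L) (hr : ∀ l ∈ S, r l ^ 3 = (l : L))
    (hgen : ∀ M : Subfield L, (∀ l ∈ S, r l ∈ M) → M = ⊤) :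
    Module.finrank ℚ L = 3 ^ S.card ∧ Finite (ED ((D : ℕ) : L)).toAffine.Point ∧
    (∀ (k : ℕ) (y : Sha (ED ((D : ℕ) : L))), 3 ^ k • y = 0 → 3 ^ S.card • y = 0) ∧
    ∃ G : ℂ → ℂ, Differentiable ℂ G ∧ G 1 ≠ 0 ∧ ∀ s : ℂ, 3 / 2 < s.re →
      HasProd (fun u : {u : HeightOneSpectrum (𝓞 L) |
        ((3 * D * ∏ l ∈ S, l : ℕ) : 𝓞 L) ∉ u.asIdeal} =>
          Pool.Agent.R432.V.ef ((D : ℕ) : 𝓞 L) s u.1) (G s) := by
  obtain ⟨n, π, e, hD, hDp⟩ := Pool.Agent.Y274.CT.t_exi D hC.1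
  have hne : Nonempty (Fin n) := by
    have hcnt := Pool.Agent.Y274.CT.t_cnt D hC (Fin n) π e hD hDp
    rw [Fintype.card_fin] at hcnt
    exact ⟨⟨0, by
      have h1 : 0 < D.primeFactors.card := by
        rw [Finset.card_pos]
        obtain ⟨hB, -, -, q, hq, -, hqD, -⟩ := hC
        exact ⟨q, Nat.mem_primeFactors.2 ⟨hq, hqD, hB.1⟩⟩
      omega⟩⟩
  have hL := leafP hD hDp hA
  have hKer : ∀ t : {l : ℕ // l ∈ S} → ZMod 3, Ker (πL π (tE t)) (eL e (tE t)) := by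
    intro t
    have hp : ((twN D S t : ℕ) : Ei) = pD (πL π (tE t)) (eL e (tE t)) ∨
        ((twN D S t : ℕ) : Ei) = -pD (πL π (tE t)) (eL e (tE t)) := by
      rw [leaf_pD, tE_prod hA t]
      unfold twN
      push_cast
      rcases hDp with h | h
      · left; rw [h]
      · right; rw [h, neg_mul]
    exact Pool.Agent.Y405.CT.cri Pool.Agent.Y350.CT.rec (twN D S t) (tw_cls hC hA) (hN t)
      (JL (Fin n) (tE t)) _ _ (leaf_dt hD hL (tE t)) hp
  obtain ⟨h1, h2, h3⟩ := towerQ hC hA hD hDp hKer r hr hgen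
  obtain ⟨G, h4, h5, h6⟩ := valQ hC hA hD hDp hKer r hr hgen
  exact ⟨h1, h2, h3, G, h4, h5, h6⟩

end Pool.Agent.R432.JG
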