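import Pool.Agent.R432.JG.G5

/-!
# The theorem over the Galois closure `ℚ(ω, ∛l : l ∈ S)`
-/

set_option autoImplicit false
set_option linter.unusedSectionVars false

open NumberField IsDedekindDomain Polynomial

namespace Pool.Agent.R432.JG

open Pool.Agent.Y692.QS hiding chi
open Pool.Agent.Y703.CT (IsHL chD Dt pD Ker Cls NoSplit Base)
open Pool.Agent.R432.C hiding leaf_dt leaf_nine
open Pool.Agent.R432.Q hiding adm_one SE_spec SE_nr prod_SE tE_prod tE_ne towerK towerQ
open Pool.Agent.TH841.NF.D (Sha)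

/-- **All twists good: the Galois closure.** -/
theorem all_goodK {D : ℕ} (hC : Cls D) {S : Finset ℕ} (hA : Pre D S)
    (hN : ∀ t : {l : ℕ // l ∈ S} → ZMod 3, NoSplit (twN D S t))
    {F : Type} [Field F] [NumberField F] (z : F) (hz : z ^ 2 + z + 1 = 0) (r : ℕ → F)
    (hr : ∀ l ∈ S, r l ^ 3 = (l : F))
    (hgen : ∀ M : Subfield F, z ∈ M → (∀ l ∈ S, r l ∈ M) → M = ⊤) :
    Module.finrank ℚ F = 2 * 3 ^ S.card ∧ Finite (ED ((D : ℕ) : F)).toAffine.Point ∧
    ∀ (k : ℕ) (y : Sha (ED ((D : ℕ) : F))), 3 ^ k • y = 0 → 3 ^ S.card • y = 0 := by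
  obtain ⟨n, π, e, hD, hDp⟩ := Pool.Agent.Y274.CT.t_exi D hC.1
  have hne : Nonempty (Fin n) := by
    have hcnt := Pool.Agent.Y274.CT.t_cnt D hC (Fin n) π e hD hDp
    rw [Fintype.card_fin] at hcnt
    exact ⟨⟨0, by
      have h1 : 0 < D.primeFactors.card := by
        rw [Finset.card_pos]
        obtain ⟨hB, -, -, q, hq, -, hqD, -⟩ := hC
        exact ⟨q, Nat.mem_primeFactors.2 ⟨hq, hqD, hB.1⟩⟩
      omega⟩⟩
  have hL := leafP hD hDp hA
  have hKer : ∀ t : {l : ℕ // l ∈ S} → ZMod 3, Ker (πL π (tE t)) (eL e (tE t)) := by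
    intro t
    have hp : ((twN D S t : ℕ) : Ei) = pD (πL π (tE t)) (eL e (tE t)) ∨
        ((twN D S t : ℕ) : Ei) = -pD (πL π (tE t)) (eL e (tE t)) := by
      rw [leaf_pD, tE_prod hA t]
      unfold twN
      push_cast
      rcases hDp with h | h
      · left; rw [h]
      · right; rw [h, neg_mul]
    exact Pool.Agent.Y405.CT.cri Pool.Agent.Y350.CT.rec (twN D S t) (tw_cls hC hA) (hN t)
      (JL (Fin n) (tE t)) _ _ (leaf_dt hD hL (tE t)) hp
  have hcyc : IsCyclotomicExtension {3} ℚ (CyclotomicField 3 ℚ) :=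
    Pool.Agent.Y948.CTP.cyc_rat _ _ (CyclotomicField.isCyclotomicExtension 3 ℚ)
  obtain ⟨⟨j, -⟩, -⟩ := Pool.Agent.Y455.CTK.jex (CyclotomicField 3 ℚ)
  have hirrQ : Irreducible (cyclotomic 3 ℚ) := cyclotomic.irreducible_rat (by norm_num)
  have hζ : IsPrimitiveRoot (IsCyclotomicExtension.zeta 3 ℚ (CyclotomicField 3 ℚ)) 3 :=
    IsCyclotomicExtension.zeta_spec 3 ℚ (CyclotomicField 3 ℚ)
  have hz3 : z ^ 3 = 1 := by linear_combination (z - 1) * hz
  have hz1 : z ≠ 1 := by
    rintro rfl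
    norm_num at hz
  have hζF : IsPrimitiveRoot z 3 := by
    have : Fact (Nat.Prime 3) := ⟨Nat.prime_three⟩
    have h1 := IsPrimitiveRoot.orderOf z
    rwa [orderOf_eq_prime hz3 hz1] at h1
  let φ : CyclotomicField 3 ℚ →ₐ[ℚ] F := (hζ.embeddingsEquivPrimitiveRoots F hirrQ).symm
    ⟨_, (mem_primitiveRoots (by norm_num)).2 hζF⟩
  have hφ : φ (IsCyclotomicExtension.zeta 3 ℚ (CyclotomicField 3 ℚ)) = z := by
    have h1 := hζ.embeddingsEquivPrimitiveRoots_apply_coe F hirrQ φ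
    rw [← h1, Equiv.apply_symm_apply]
  let hAl : Algebra (CyclotomicField 3 ℚ) F := φ.toRingHom.toAlgebra
  have hgen' : ∀ M : Subfield F, (∀ k : CyclotomicField 3 ℚ, algebraMap (CyclotomicField 3 ℚ) F k ∈ M) →
      (∀ l ∈ S, r l ∈ M) → M = ⊤ := by
    intro M h1 h2
    refine hgen M ?_ h2
    rw [← hφ]
    exact h1 _
  obtain ⟨g1, g2, g3⟩ := towerK (K := CyclotomicField 3 ℚ) j hC hA hD hDp hKer (F := F) r hr hgen'
  have ht : IsScalarTower ℚ (CyclotomicField 3 ℚ) F :=
    IsScalarTower.of_algebraMap_eq fun q => (φ.commutes q).symm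
  have e1 : Module.finrank ℚ (CyclotomicField 3 ℚ) * Module.finrank (CyclotomicField 3 ℚ) F =
      Module.finrank ℚ F := Module.finrank_mul_finrank ℚ _ F
  have e3 : Module.finrank ℚ (CyclotomicField 3 ℚ) = 2 := by
    rw [IsCyclotomicExtension.finrank (CyclotomicField 3 ℚ) hirrQ]
    decide
  rw [e3, g1] at e1
  exact ⟨e1.symm, g2, g3⟩

/-- every subfield -/
theorem pts_emb {D : ℕ} {F k : Type} [Field F] [NumberField F] [Field k] [NumberField k]
    (f : k →+* F) (h : Finite (ED ((D : ℕ) : F)).toAffine.Point) :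
    Finite (ED ((D : ℕ) : k)).toAffine.Point := by
  let _ := f.toAlgebra
  exact Pool.Agent.R432.Q.pts_sub (k := k) (F := F) h

/-- the field exists -/
theorem exists_genK (S : Finset ℕ) :
    ∃ (L : Type) (_ : Field L) (_ : NumberField L), ∃ (z : L) (r : ℕ → L), z ^ 2 + z + 1 = 0 ∧
      (∀ l ∈ S, r l ^ 3 = (l : L)) ∧
      ∀ F : Subfield L, z ∈ F → (∀ l ∈ S, r l ∈ F) → F = ⊤ := by
  let p : Polynomial ℚ := (∏ l ∈ S, (Polynomial.X ^ 3 - Polynomial.C (l : ℚ))) *
    (Polynomial.X ^ 2 + Polynomial.X + 1)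
  let F : Type := p.SplittingField
  have : NumberField F := NumberField.of_module_finite ℚ F
  have hq : (Polynomial.X ^ 2 + Polynomial.X + 1 : Polynomial ℚ).natDegree = 2 := by
    compute_degree!
  have hq0 : (Polynomial.X ^ 2 + Polynomial.X + 1 : Polynomial ℚ) ≠ 0 := by
    intro h
    rw [h, Polynomial.natDegree_zero] at hq
    omega
  have hp0 : p ≠ 0 := mul_ne_zero (Finset.prod_ne_zero_iff.2 fun l _ =>
    Polynomial.X_pow_sub_C_ne_zero (by norm_num) _) hq0
  have hsp : (p.map (algebraMap ℚ F)).Splits := Polynomial.SplittingField.splits p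
  have hp0' : p.map (algebraMap ℚ F) ≠ 0 :=
    (Polynomial.map_ne_zero_iff (algebraMap ℚ F).injective).2 hp0
  have hroot : ∀ l : ℕ, ∃ x : F, l ∈ S → x ^ 3 = (l : F) := by
    intro l
    by_cases hl : l ∈ S
    · have h1 : ((Polynomial.X ^ 3 - Polynomial.C (l : ℚ)).map (algebraMap ℚ F)).Splits :=
        hsp.of_dvd hp0' (Polynomial.map_dvd _ (Dvd.dvd.mul_right (Finset.dvd_prod_of_mem _ hl) _))
      obtain ⟨x, hx⟩ := h1.exists_eval_eq_zero (by
        rw [Polynomial.degree_map, Polynomial.degree_X_pow_sub_C (by norm_num)]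
        norm_num)
      refine ⟨x, fun _ => ?_⟩
      simp at hx
      linear_combination hx
    · exact ⟨0, fun h => absurd h hl⟩
  choose r hr using hroot
  obtain ⟨z, hz⟩ : ∃ z : F, z ^ 2 + z + 1 = 0 := by
    have h1 : ((Polynomial.X ^ 2 + Polynomial.X + 1 : Polynomial ℚ).map (algebraMap ℚ F)).Splits :=
      hsp.of_dvd hp0' (Polynomial.map_dvd _ (Dvd.intro_left _ rfl))
    obtain ⟨x, hx⟩ := h1.exists_eval_eq_zero (by
      rw [Polynomial.degree_map, Polynomial.degree_eq_natDegree hq0, hq]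
      norm_num)
    refine ⟨x, ?_⟩
    simpa using hx
  let M : IntermediateField ℚ F := IntermediateField.adjoin ℚ (insert z (r '' S))
  have hMn : NumberField M := NumberField.of_module_finite ℚ M
  have hrM : ∀ l ∈ S, r l ∈ M := fun l hl =>
    IntermediateField.subset_adjoin ℚ _ (Or.inr ⟨l, hl, rfl⟩)
  have hzM : z ∈ M := IntermediateField.subset_adjoin ℚ _ (Or.inl rfl)
  refine ⟨M, inferInstance, hMn, ⟨z, hzM⟩, fun l => if h : l ∈ S then ⟨r l, hrM l h⟩ else 0, ?_,
    fun l hl => ?_, fun L hL1 hL2 => ?_⟩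
  · apply Subtype.ext
    exact hz
  · simp only [dif_pos hl]
    apply Subtype.ext
    exact hr l hl
  · rw [eq_top_iff]
    intro y _
    let L' : IntermediateField ℚ F :=
      { (L.map (algebraMap M F)) with
        algebraMap_mem' := fun k => ⟨algebraMap ℚ M k, by
          have := SubfieldClass.ratCast_mem L k
          simpa using this, rfl⟩ }
    have h1 : M ≤ L' := by
      apply IntermediateField.adjoin_le_iff.2
      rintro x (rfl | ⟨l, hl, rfl⟩)
      · exact ⟨_, hL1, rfl⟩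
      · have h2 := hL2 l hl
        simp only [dif_pos (Finset.mem_coe.1 hl)] at h2
        exact ⟨_, h2, rfl⟩
    obtain ⟨y', hy', h2⟩ := h1 y.2
    have h3 : y' = y := Subtype.ext h2
    rw [← h3]
    exact hy'

end Pool.Agent.R432.JG
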