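import Pool.Agent.R432.JG.Num
import Pool.Agent.Y696.CTP.Cnt

/-!
# The number of the squarefree `D` of the class prime to `M`
-/

set_option autoImplicit false

open scoped Classical

namespace Pool.Agent.R432.JG

open Finset Filter
open Pool.Agent.Y703.CT (Cls NoSplit Base)
open Pool.Agent.R419.CF (prod_primes_pos)
open Pool.Agent.R419.CF.NS (fac_prod)

theorem cl_part {M : Finset ℕ} (hM : ∀ q ∈ M, q.Prime ∧ q % 9 = 1) {D : ℕ} (hsq : Squarefree D)
    (hC : Cls D) : (∏ p ∈ D.primeFactors \ M, p) ∣ D ∧ Cl M (∏ p ∈ D.primeFactors \ M, p) := by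
  have hTp : ∀ p ∈ D.primeFactors \ M, p.Prime := fun p hp =>
    Nat.prime_of_mem_primeFactors (Finset.mem_sdiff.1 hp).1
  have hself := Nat.prod_primeFactors_of_squarefree hsq
  have hmul : (∏ p ∈ D.primeFactors ∩ M, p) * (∏ p ∈ D.primeFactors \ M, p) = D := by
    rw [Finset.prod_inter_mul_prod_sdiff, hself]
  have hdv : (∏ p ∈ D.primeFactors \ M, p) ∣ D := Dvd.intro_left _ hmul
  have h9 : (∏ p ∈ D.primeFactors ∩ M, p) % 9 = 1 :=
    prod_m9 fun q hq => hM q (Finset.mem_inter.1 hq).2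
  have hmod : (∏ p ∈ D.primeFactors \ M, p) % 9 = D % 9 := by
    conv_rhs => rw [← hmul, Nat.mul_mod, h9, one_mul, Nat.mod_mod]
  obtain ⟨⟨h0, h3, hcf⟩, h91, h98, q, hq, hq2, hqD, hall⟩ := hC
  refine ⟨hdv, sq_prod hTp, ⟨⟨(prod_primes_pos hTp).ne', fun h => h3 (h.trans hdv),
    fun p hp h => hcf p hp (h.trans hdv)⟩, by rwa [hmod], by rwa [hmod], q, hq, hq2, ?_,
    fun p hp h => hall p hp (h.trans hdv)⟩, ?_⟩
  · refine dvd_prod_of_mem _ (Finset.mem_sdiff.2 ⟨Nat.mem_primeFactors.2 ⟨hq, hqD, h0⟩, fun h => ?_⟩)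
    have := (hM q h).2
    omega
  · intro l hl h
    have h1 : l ∈ (∏ p ∈ D.primeFactors \ M, p).primeFactors :=
      Nat.mem_primeFactors.2 ⟨(hM l hl).1, h, (prod_primes_pos hTp).ne'⟩
    rw [pf_prod hTp, Finset.mem_sdiff] at h1
    exact h1.2 hl

/-- the class prime to `M` is not small -/
theorem low {M : Finset ℕ} (hM : ∀ q ∈ M, q.Prime ∧ q % 9 = 1) :
    ∃ c : ℝ, 0 < c ∧ ∃ X₀ : ℕ, ∀ X : ℕ, X₀ ≤ X →
    c * X / Real.sqrt (Real.log X) ≤ (((Icc 1 X).filter fun D => Cl M D).card : ℝ) := by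
  obtain ⟨c, hc, X₀, h⟩ := Pool.Agent.Y696.CTP.cnt_low
  refine ⟨c / 2 ^ M.card, by positivity, X₀, fun X hX => ?_⟩
  have h1 := h X hX
  have h2 : ((Finset.Icc 1 X).filter fun N => Squarefree N ∧ Cls N).card ≤
      (((Icc 1 X).filter fun D => Cl M D) ×ˢ M.powerset).card := by
    refine Finset.card_le_card_of_injOn
      (fun D => (∏ p ∈ D.primeFactors \ M, p, D.primeFactors ∩ M)) ?_ ?_
    · intro D hD
      rw [Finset.mem_coe, mem_filter, mem_Icc] at hD
      obtain ⟨⟨ha, hb⟩, hc, hd⟩ := hD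
      obtain ⟨h3, h4⟩ := cl_part hM hc hd
      rw [Finset.mem_coe, mem_product, mem_filter, mem_Icc, mem_powerset]
      exact ⟨⟨⟨Nat.pos_of_ne_zero h4.1.ne_zero, (Nat.le_of_dvd ha h3).trans hb⟩, h4⟩,
        Finset.inter_subset_right⟩
    · intro D hD E hE hDE
      rw [Finset.mem_coe, mem_filter, mem_Icc] at hD hE
      have h3 := congrArg Prod.fst hDE
      have h4 := congrArg Prod.snd hDE
      simp only at h3 h4
      have h5 : ∀ F : ℕ, Squarefree F →
          (∏ p ∈ F.primeFactors ∩ M, p) * (∏ p ∈ F.primeFactors \ M, p) = F := by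
        intro F hF
        rw [Finset.prod_inter_mul_prod_sdiff, Nat.prod_primeFactors_of_squarefree hF]
      rw [← h5 D hD.2.1, ← h5 E hE.2.1, h3, h4]
  rw [card_product, card_powerset] at h2
  have h3 : (((Finset.Icc 1 X).filter fun N => Squarefree N ∧ Cls N).card : ℝ) ≤
      (((Icc 1 X).filter fun D => Cl M D).card : ℝ) * 2 ^ M.card := by exact_mod_cast h2
  have h4 : (0 : ℝ) < 2 ^ M.card := by positivity
  have h5 : c / 2 ^ M.card * X / Real.sqrt (Real.log X) =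
      (c * X / Real.sqrt (Real.log X)) / 2 ^ M.card := by ring
  rw [h5, div_le_iff₀ h4]
  exact h1.trans h3

end Pool.Agent.R432.JG
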