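import Mathlib
import Pool.Agent.R413.MQ.Bin

/-!
# Inclusion and exclusion
-/

set_option autoImplicit false

open Filter Topology Finset

namespace Pool.Agent.R432.JG

open Pool.Agent.R413.MQ.Bin (cnt cnt_congr)

variable {ι : Type} [DecidableEq ι] {G : ι → ℕ → Prop} {Fam : ℕ → Prop} {c : ℝ}

theorem cnt_split (Q R : ℕ → Prop) (X : ℕ) :
    cnt Fam Q X = cnt Fam (fun D => Q D ∧ R D) X + cnt Fam (fun D => Q D ∧ ¬ R D) X := by
  classical
  have e1 : cnt Fam Q X = ((Icc 1 X).filter fun D => Fam D ∧ Q D).card := by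
    unfold cnt
    congr 1
  have e2 : cnt Fam (fun D => Q D ∧ R D) X =
      (((Icc 1 X).filter fun D => Fam D ∧ Q D).filter fun D => R D).card := by
    unfold cnt
    rw [filter_filter]
    congr 1
    ext D
    simp only [mem_filter]
    tauto
  have e3 : cnt Fam (fun D => Q D ∧ ¬ R D) X =
      (((Icc 1 X).filter fun D => Fam D ∧ Q D).filter fun D => ¬ R D).card := by
    unfold cnt
    rw [filter_filter]
    congr 1
    ext D
    simp only [mem_filter]
    tauto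
  rw [e1, e2, e3, card_filter_add_card_filter_not]

theorem pat_aux (h : ∀ T : Finset ι, Tendsto (fun X : ℕ =>
      (cnt Fam (fun D => ∀ i ∈ T, G i D) X : ℝ) / (cnt Fam (fun _ => True) X : ℝ)) atTop
      (𝓝 (c ^ T.card))) (W : Finset ι) : ∀ V : Finset ι, Disjoint V W → Tendsto (fun X : ℕ =>
      (cnt Fam (fun D => (∀ i ∈ V, G i D) ∧ ∀ i ∈ W, ¬ G i D) X : ℝ) /
        (cnt Fam (fun _ => True) X : ℝ)) atTop (𝓝 (c ^ V.card * (1 - c) ^ W.card)) := by
  induction W using Finset.induction_on with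
  | empty =>
    intro V _
    simpa using h V
  | insert w W hw ih =>
    intro V hV
    rw [disjoint_insert_right] at hV
    have h1 := ih V hV.2
    have h2 := ih (insert w V) (by
      rw [disjoint_insert_left]
      exact ⟨hw, hV.2⟩)
    rw [card_insert_of_notMem hV.1] at h2
    rw [card_insert_of_notMem hw]
    have h3 := h1.sub h2
    have h4 : c ^ V.card * (1 - c) ^ W.card - c ^ (V.card + 1) * (1 - c) ^ W.card =
        c ^ V.card * (1 - c) ^ (W.card + 1) := by ring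
    rw [h4] at h3
    refine h3.congr fun X => ?_
    rw [← sub_div]
    congr 1
    have h5 := cnt_split (Fam := Fam) (fun D => (∀ i ∈ V, G i D) ∧ ∀ i ∈ W, ¬ G i D)
      (fun D => G w D) X
    have h6 : cnt Fam (fun D => ((∀ i ∈ V, G i D) ∧ ∀ i ∈ W, ¬ G i D) ∧ G w D) X =
        cnt Fam (fun D => (∀ i ∈ insert w V, G i D) ∧ ∀ i ∈ W, ¬ G i D) X := by
      refine cnt_congr (fun D _ => ?_) X
      rw [forall_mem_insert]
      tauto
    have h7 : cnt Fam (fun D => ((∀ i ∈ V, G i D) ∧ ∀ i ∈ W, ¬ G i D) ∧ ¬ G w D) X =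
        cnt Fam (fun D => (∀ i ∈ V, G i D) ∧ ∀ i ∈ insert w W, ¬ G i D) X := by
      refine cnt_congr (fun D _ => ?_) X
      rw [forall_mem_insert]
      tauto
    rw [h6, h7] at h5
    have h8 : (cnt Fam (fun D => (∀ i ∈ V, G i D) ∧ ∀ i ∈ W, ¬ G i D) X : ℝ) =
        cnt Fam (fun D => (∀ i ∈ insert w V, G i D) ∧ ∀ i ∈ W, ¬ G i D) X +
        cnt Fam (fun D => (∀ i ∈ V, G i D) ∧ ∀ i ∈ insert w W, ¬ G i D) X := by
      exact_mod_cast h5
    linarith

/-- the law of the pattern -/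
theorem pat (h : ∀ T : Finset ι, Tendsto (fun X : ℕ =>
      (cnt Fam (fun D => ∀ i ∈ T, G i D) X : ℝ) / (cnt Fam (fun _ => True) X : ℝ)) atTop
      (𝓝 (c ^ T.card))) (T : Finset ι) : ∀ V ⊆ T, Tendsto (fun X : ℕ =>
      (cnt Fam (fun D => ∀ i ∈ T, (G i D ↔ i ∈ V)) X : ℝ) / (cnt Fam (fun _ => True) X : ℝ)) atTop
      (𝓝 (c ^ V.card * (1 - c) ^ (T.card - V.card))) := by
  intro V hV
  have h1 := pat_aux h (T \ V) V disjoint_sdiff
  rw [card_sdiff_of_subset hV] at h1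
  refine h1.congr fun X => ?_
  congr 2
  refine cnt_congr (fun D _ => ?_) X
  constructor
  · rintro ⟨h2, h3⟩ i hi
    by_cases hiV : i ∈ V
    · exact ⟨fun _ => hiV, fun _ => h2 i hiV⟩
    · exact ⟨fun h4 => absurd h4 (h3 i (mem_sdiff.2 ⟨hi, hiV⟩)), fun h4 => absurd h4 hiV⟩
  · intro h2
    exact ⟨fun i hi => (h2 i (hV hi)).2 hi, fun i hi h3 =>
      (mem_sdiff.1 hi).2 ((h2 i (mem_sdiff.1 hi).1).1 h3)⟩

end Pool.Agent.R432.JG
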