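import Pool.Agent.R432.JL.Abs
import Pool.Agent.R432.JL.La
import Pool.Agent.R432.JL.Tb
import Pool.Agent.R432.JL.Box
import Pool.Agent.R432.JL.Fin
import Pool.Agent.R432.JG.Low
import Pool.Agent.R432.JG.Pat
import Pool.Agent.R419.CF.Fin

/-!
# The joint law of the cubic twists (project JL)

Authors of the parts: helper962 (`JL/Abs.lean`), helper159 (`JL/La.lean`), helper152 (`JL/Tb.lean`),
helper916 (`JL/Box.lean`), helper258 (`JL/Fin.lean`), helper432.
-/

set_option autoImplicit false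

open scoped Classical

namespace Pool.Agent.R432.JG

open Finset Filter
open Pool.Agent.Y703.CX (c3)
open Pool.Agent.Y703.CT (Cls NoSplit Base)
open Pool.Agent.R413.MQ.Bin (cnt cnt_card)

theorem laj' : Pool.Agent.R432.JL.S_LAJ :=
  Pool.Agent.R432.JL.laj Pool.Agent.Y461.CX.t_C3 Pool.Agent.R432.JL.abs_law

theorem law_sets (M : Finset ℕ) (T : Finset (M → ZMod 3)) (hne : M.Nonempty)
    (hM : ∀ q ∈ M, q.Prime ∧ q % 9 = 1) :
    Tendsto (fun X : ℕ => (((Pool.Agent.R419.CF.SW M X).filter fun S =>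
      Pool.Agent.R432.JL.GJ M T S).card : ℝ) / ((Pool.Agent.R419.CF.SW M X).card : ℝ)) atTop
    (nhds (c3 ^ T.card)) :=
  Pool.Agent.R432.JL.jl Pool.Agent.Y333.CX.t_LAM Pool.Agent.Y261.CX.t_BIL1
    Pool.Agent.Y779.CX.t_BIL2 Pool.Agent.Y419.CX.t_EQ laj' Pool.Agent.R432.JL.boxj
    Pool.Agent.R432.JL.tb Pool.Agent.Y488.CX.t_SIE Pool.Agent.Y495.CX.t_HAL
    Pool.Agent.Y87.CX.t_MER Pool.Agent.Y461.CX.t_CHE Pool.Agent.Y461.CX.t_LOW
    Pool.Agent.Y461.CX.t_C3 M T hne hM

/-- the class is not empty for large `X` -/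
theorem ev_pos {M : Finset ℕ} (hM : ∀ q ∈ M, q.Prime ∧ q % 9 = 1) :
    ∀ᶠ X : ℕ in atTop, (0 : ℝ) < (((Icc 1 X).filter fun D => Cl M D).card : ℝ) := by
  obtain ⟨c, hc, X₀, h⟩ := low hM
  filter_upwards [eventually_ge_atTop X₀, eventually_ge_atTop 3] with X hX hX3
  refine lt_of_lt_of_le ?_ (h X hX)
  have h1 : (1 : ℝ) < X := by exact_mod_cast (by omega : 1 < X)
  have h2 := Real.log_pos h1
  have h3 : (0 : ℝ) < X := by linarith
  positivity

/-- **The joint law.** -/
theorem law_all {M : Finset ℕ} (hM : ∀ q ∈ M, q.Prime ∧ q % 9 = 1)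
    (T : Finset ({l : ℕ // l ∈ M} → ZMod 3)) :
    Tendsto (fun X : ℕ => (((Icc 1 X).filter fun D => Cl M D ∧ AG M T D).card : ℝ) /
      (((Icc 1 X).filter fun D => Cl M D).card : ℝ)) atTop (nhds (c3 ^ T.card)) := by
  rcases M.eq_empty_or_nonempty with rfl | hne
  · rcases T.eq_empty_or_nonempty with rfl | ⟨t, ht⟩
    · rw [card_empty, pow_zero]
      refine tendsto_const_nhds.congr' ?_
      filter_upwards [ev_pos hM] with X hX
      have h1 : ((Icc 1 X).filter fun D => Cl ∅ D ∧ AG ∅ ∅ D) = (Icc 1 X).filter fun D => Cl ∅ D := by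
        refine filter_congr fun D _ => ?_
        unfold AG
        simp
      rw [h1, div_self hX.ne']
    · have hT : T = {t} := by
        ext t'
        have : t' = t := funext fun i => absurd i.2 (Finset.notMem_empty _)
        rw [this]
        simp [ht]
      rw [hT, card_singleton, pow_one]
      have h1 : ∀ D, Cl ∅ D ↔ Squarefree D ∧ Cls D := by
        intro D
        unfold Cl
        simp
      have h2 : ∀ D, AG ∅ {t} D ↔ NoSplit D := by
        intro D
        unfold AG twN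
        simp
      have h3 : ∀ X : ℕ, ((Icc 1 X).filter fun D => Cl ∅ D ∧ AG ∅ {t} D) =
          (Icc 1 X).filter fun D => Squarefree D ∧ Cls D ∧ NoSplit D := fun X =>
        filter_congr fun D _ => by rw [h1, h2, and_assoc]
      have h4 : ∀ X : ℕ, ((Icc 1 X).filter fun D => Cl ∅ D) =
          (Icc 1 X).filter fun D => Squarefree D ∧ Cls D := fun X =>
        filter_congr fun D _ => h1 D
      simp only [h3, h4]
      exact Pool.Agent.Y703.CX.t_DEN
  · exact law_num Pool.Agent.Y333.CX.t_LAM hM T (law_sets M T hne hM)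

/-- the joint law with `cnt` -/
theorem law_cnt {M : Finset ℕ} (hM : ∀ q ∈ M, q.Prime ∧ q % 9 = 1)
    (T : Finset ({l : ℕ // l ∈ M} → ZMod 3)) :
    Tendsto (fun X : ℕ =>
      (cnt (Cl M) (fun D => ∀ i ∈ T, NoSplit (twN D M i)) X : ℝ) /
        (cnt (Cl M) (fun _ => True) X : ℝ)) atTop (nhds (c3 ^ T.card)) := by
  refine (law_all hM T).congr fun X => ?_
  have e1 : cnt (Cl M) (fun D => ∀ i ∈ T, NoSplit (twN D M i)) X =
      ((Icc 1 X).filter fun D => Cl M D ∧ AG M T D).card := by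
    refine cnt_card fun D => ?_
    rw [mem_filter]
    exact Iff.rfl
  have e2 : cnt (Cl M) (fun _ => True) X = ((Icc 1 X).filter fun D => Cl M D).card := by
    refine cnt_card fun D => ?_
    rw [mem_filter, and_iff_left trivial]
  rw [e1, e2]

/-- **The law of the pattern.** -/
theorem law_pat {M : Finset ℕ} (hM : ∀ q ∈ M, q.Prime ∧ q % 9 = 1)
    (T : Finset ({l : ℕ // l ∈ M} → ZMod 3)) : ∀ V ⊆ T, Tendsto (fun X : ℕ =>
      (cnt (Cl M) (fun D => ∀ i ∈ T, (NoSplit (twN D M i) ↔ i ∈ V)) X : ℝ) /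
        (cnt (Cl M) (fun _ => True) X : ℝ)) atTop
      (nhds (c3 ^ V.card * (1 - c3) ^ (T.card - V.card))) :=
  pat (law_cnt hM) T

end Pool.Agent.R432.JG
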