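import Pool.Agent.R419.ST.Main
import Pool.Agent.Y698.Cp

/-!
# The completions of `ℚ(ω, ∛l : l ∈ M)` at the places above three

All of them look like the completion of `ℚ(ω)` (for `l ≡ 1` modulo `9`).
-/

set_option autoImplicit false
set_option linter.all false

open IsDedekindDomain NumberField WeierstrassCurve

namespace Pool.Agent.R432.JG.Loc3

open Pool.Agent.TH954 Pool.Agent.R419.ST
open Pool.Agent.Y698 (dn dn_le_one mem_dnI dnI)

lemma dn_lt_one {K : Type} [Field K] [NumberField K] {F : Type} [Field F] [NumberField F]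
    [Algebra K F] (P : HeightOneSpectrum (𝓞 F)) {x : K} (hx : (dn K P).valuation K x < 1) :
    P.valuation F (algebraMap K F x) < 1 := by
  obtain ⟨n, d, h⟩ := (dn K P).exists_primeCompl_mul_eq_of_integer x hx.le
  have hd : P.valuation F (algebraMap K F (algebraMap (𝓞 K) K d)) = 1 := by
    refine le_antisymm (Pool.Agent.Y698.val_int K P _) ?_
    have : (d : 𝓞 K) ∉ dnI K P := d.2
    rw [mem_dnI, not_lt] at this
    exact this
  have h1 := congrArg (fun z => P.valuation F (algebraMap K F z)) h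
  simp only [map_mul] at h1
  rw [hd, mul_one] at h1
  rw [h1]
  have h2 := congrArg (fun z => (dn K P).valuation K z) h
  simp only [map_mul] at h2
  have h3 : (dn K P).valuation K (algebraMap (𝓞 K) K n) < 1 := by
    rw [← h2]
    exact mul_lt_one_of_lt_of_le hx ((dn K P).valuation_le_one _)
  have h4 : n ∈ dnI K P := ((dn K P).valuation_lt_one_iff_mem n).1 h3
  exact (mem_dnI K P n).1 h4

/-- cube roots modulo powers of three -/
lemma cube_mod {l : ℤ} (hl : (9 : ℤ) ∣ l - 1) (n : ℕ) :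
    ∃ a : ℤ, (3 : ℤ) ^ (n + 2) ∣ a ^ 3 - l ∧ (3 : ℤ) ∣ a - 1 := by
  induction n with
  | zero =>
    refine ⟨1, ?_, by norm_num⟩
    obtain ⟨t, ht⟩ := hl
    exact ⟨-t, by linear_combination (-1 : ℤ) * ht⟩
  | succ n ih =>
    obtain ⟨a, ⟨t, ht⟩, ⟨u, hu⟩⟩ := ih
    refine ⟨a - 3 ^ (n + 1) * t, ?_, ?_⟩
    · have ha : a = 1 + 3 * u := by linear_combination hu
      refine ⟨-(t * u * (a + 1)) + 3 ^ n * a * t ^ 2 - 3 ^ (2 * n) * t ^ 3, ?_⟩
      have e1 : (a - 3 ^ (n + 1) * t) ^ 3 - l = (a ^ 3 - l) - 3 ^ (n + 2) * t * a ^ 2 +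
          3 ^ (n + 1 + 2) * (3 ^ n * a * t ^ 2) - 3 ^ (n + 1 + 2) * (3 ^ (2 * n) * t ^ 3) := by
        have h3 : (3 : ℤ) ^ (2 * n) = (3 ^ n) ^ 2 := by rw [mul_comm, pow_mul]
        rw [h3, pow_add 3 n 1, pow_add 3 n 2, pow_add 3 (n + 1) 2, pow_add 3 n 1]
        ring
      rw [e1, ht]
      have h3 : (3 : ℤ) ^ (n + 1 + 2) = 3 * 3 ^ (n + 2) := by ring
      rw [h3]
      linear_combination (-(3 : ℤ) ^ (n + 2) * t * (a + 1)) * hu
    · obtain ⟨w, hw⟩ : ∃ w : ℤ, (3 : ℤ) ^ (n + 1) = 3 * w := ⟨3 ^ n, by ring⟩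
      exact ⟨u - w * t, by rw [hw]; linear_combination hu⟩

section field

variable {Ω : Type} [Field Ω] [NumberField Ω] (P : HeightOneSpectrum (𝓞 Ω))

lemma nlt' {x : Ω} :
    ‖algebraMap Ω (P.adicCompletion Ω) x‖ < 1 ↔ P.valuation Ω x < 1 := by
  rw [Valued.toNormedField.norm_lt_one_iff]
  exact Iff.of_eq (congrArg (· < 1) (HeightOneSpectrum.valuedAdicCompletion_eq_valuation' P x))

variable {P} (h3 : ((3 : ℕ) : 𝓞 Ω) ∈ P.asIdeal)

include h3 in
lemma three_lt : ‖(3 : P.adicCompletion Ω)‖ < 1 := by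
  have h := nlt_mem (v := P) h3
  have e : ff P (((3 : ℕ) : 𝓞 Ω)) = (3 : P.adicCompletion Ω) := by
    show algebraMap Ω (P.adicCompletion Ω) (algebraMap (𝓞 Ω) Ω ((3 : ℕ) : 𝓞 Ω)) = _
    rw [map_natCast, map_natCast]
    norm_num
  rwa [e] at h

lemma int_le (a : ℤ) : ‖((a : ℤ) : P.adicCompletion Ω)‖ ≤ 1 := by
  have h := nff_le P ((a : ℤ) : 𝓞 Ω)
  have e : ff P (((a : ℤ) : 𝓞 Ω)) = ((a : ℤ) : P.adicCompletion Ω) := by
    show algebraMap Ω (P.adicCompletion Ω) (algebraMap (𝓞 Ω) Ω ((a : ℤ) : 𝓞 Ω)) = _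
    rw [map_intCast, map_intCast]
  rwa [e] at h

lemma int_pow_le {a : ℤ} {n : ℕ} (h : (3 : ℤ) ^ n ∣ a) :
    ‖((a : ℤ) : P.adicCompletion Ω)‖ ≤ ‖(3 : P.adicCompletion Ω)‖ ^ n := by
  obtain ⟨b, rfl⟩ := h
  push_cast
  rw [norm_mul, norm_pow]
  exact mul_le_of_le_one_right (by positivity) (int_le b)

include h3 in
/-- a cube root is close to a product of an integer and a cube root of unity -/
lemma near_root {ω r : P.adicCompletion Ω} (hω : ω ^ 2 + ω + 1 = 0) {l : ℕ} (hl : l % 9 = 1)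
    (hr : r ^ 3 = (l : P.adicCompletion Ω)) (m : ℕ) :
    ∃ (a : ℤ) (i : ℕ), ‖r - ω ^ i * (a : P.adicCompletion Ω)‖ ≤ ‖(3 : P.adicCompletion Ω)‖ ^ m := by
  have h9 : (9 : ℤ) ∣ (l : ℤ) - 1 := by omega
  obtain ⟨a, ha, -⟩ := cube_mod h9 (3 * m)
  have h1 := int_pow_le (P := P) ((pow_dvd_pow 3 (by omega : 3 * m ≤ 3 * m + 2)).trans ha)
  have hc : ω ^ 3 = 1 := by linear_combination (ω - 1) * hω
  have hn : ‖ω‖ = 1 := by
    have h5 : ‖ω‖ ^ 3 = 1 := by rw [← norm_pow, hc, norm_one]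
    exact (pow_eq_one_iff_of_nonneg (norm_nonneg _) (by norm_num)).1 h5
  have e : (((a ^ 3 - l : ℤ)) : P.adicCompletion Ω) =
      -((r - (a : P.adicCompletion Ω)) * (r - ω * a) * (r - ω ^ 2 * a)) := by
    push_cast
    rw [← hr]
    have h7 : (r - (a : P.adicCompletion Ω)) * (r - ω * a) * (r - ω ^ 2 * a) =
        r ^ 3 - (1 + ω + ω ^ 2) * (a * r ^ 2) + (ω + ω ^ 2 + ω ^ 3) * (a ^ 2 * r) - ω ^ 3 * a ^ 3 := by
      ring
    rw [h7, hc]
    linear_combination (-(a * r ^ 2) + a ^ 2 * r) * hω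
  rw [e, norm_neg, norm_mul, norm_mul] at h1
  set t := ‖(3 : P.adicCompletion Ω)‖ ^ m with ht
  have ht0 : 0 ≤ t := by positivity
  have h2 : ‖(3 : P.adicCompletion Ω)‖ ^ (3 * m) = t * t * t := by
    rw [ht, mul_comm 3 m, pow_mul]
    ring
  rw [h2] at h1
  by_contra hcon
  push Not at hcon
  have g0 := hcon a 0
  have g1 := hcon a 1
  have g2 := hcon a 2
  rw [pow_zero, one_mul] at g0
  rw [pow_one] at g1
  have k1 : t * t < ‖r - (a : P.adicCompletion Ω)‖ * ‖r - ω * a‖ := mul_lt_mul'' g0 g1 ht0 ht0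
  have k2 := mul_lt_mul'' k1 g2 (mul_nonneg ht0 ht0) ht0
  exact absurd h1 (not_le.2 k2)

variable {K : Type} [Field K] (φ : K →+* Ω) {z : K} (hz : z ^ 2 + z + 1 = 0) {S : Finset ℕ}
  {r : ℕ → Ω} (hr : ∀ l ∈ S, r l ^ 3 = (l : Ω)) (h9 : ∀ l ∈ S, l % 9 = 1)
  (hgen : ∀ M : Subfield Ω, φ z ∈ M → (∀ l ∈ S, r l ∈ M) → M = ⊤)

include h3 hz hr h9 hgen in
/-- the field `K` is dense in the completion -/
theorem dense (x : P.adicCompletion Ω) {ε : ℝ} (hε : 0 < ε) :
    ∃ k : K, ‖x - algebraMap Ω (P.adicCompletion Ω) (φ k)‖ < ε := by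
  let ψ : K →+* P.adicCompletion Ω := (algebraMap Ω (P.adicCompletion Ω)).comp φ
  let A : Subfield (P.adicCompletion Ω) := ψ.fieldRange.topologicalClosure
  have hA : IsClosed (A : Set (P.adicCompletion Ω)) := Subfield.isClosed_topologicalClosure _
  have hω : ψ z ^ 2 + ψ z + 1 = 0 := by rw [← map_pow, ← map_add, ← map_one ψ, ← map_add, hz, map_zero]
  have hA1 : ∀ k, ψ k ∈ A := fun k => Subfield.le_topologicalClosure _ ⟨k, rfl⟩
  have hA2 : ∀ l ∈ S, algebraMap Ω (P.adicCompletion Ω) (r l) ∈ A := by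
    intro l hl
    have hc : algebraMap Ω (P.adicCompletion Ω) (r l) ∈ closure (Set.range ψ) := by
      rw [Metric.mem_closure_iff]
      intro δ hδ
      obtain ⟨m, hm⟩ := exists_pow_lt_of_lt_one hδ (three_lt h3)
      obtain ⟨a, i, hai⟩ := near_root h3 hω (h9 l hl)
        (r := algebraMap Ω (P.adicCompletion Ω) (r l)) (by rw [← map_pow, hr l hl, map_natCast]) m
      refine ⟨ψ (z ^ i * (a : K)), ⟨_, rfl⟩, ?_⟩
      rw [dist_eq_norm, map_mul, map_pow, map_intCast]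
      exact hai.trans_lt hm
    exact hc
  have hA3 : ∀ y : Ω, algebraMap Ω (P.adicCompletion Ω) y ∈ A := by
    have h1 := hgen (A.comap (algebraMap Ω (P.adicCompletion Ω))) (hA1 z) hA2
    intro y
    have h2 : y ∈ A.comap (algebraMap Ω (P.adicCompletion Ω)) := by rw [h1]; trivial
    exact h2
  have hx : x ∈ (A : Set (P.adicCompletion Ω)) := by
    have h1 : x ∈ closure (Set.range (algebraMap Ω (P.adicCompletion Ω))) :=
      HeightOneSpectrum.denseRange_algebraMap Ω P x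
    refine closure_minimal ?_ hA h1
    rintro _ ⟨y, rfl⟩
    exact hA3 y
  have hx' : x ∈ closure (Set.range ψ) := hx
  obtain ⟨_, ⟨k, rfl⟩, hk⟩ := Metric.mem_closure_iff.1 hx' ε hε
  refine ⟨k, ?_⟩
  rw [dist_eq_norm] at hk
  exact hk

include h3 hz hr h9 hgen in
/-- **The completion is like that of `ℚ(ω)`.** -/
theorem isLocΩ [NumberField K] [IsCyclotomicExtension {3} ℚ K] :
    IsLoc (2 * algebraMap Ω (P.adicCompletion Ω) (φ z) + 1) := by
  let _ : Algebra K Ω := φ.toAlgebra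
  let v : HeightOneSpectrum (𝓞 K) := dn K P
  let ψ : K →+* P.adicCompletion Ω := (algebraMap Ω (P.adicCompletion Ω)).comp φ
  have hω : ψ z ^ 2 + ψ z + 1 = 0 := by rw [← map_pow, ← map_add, ← map_one ψ, ← map_add, hz, map_zero]
  have h3' := three_lt h3
  have hsq : (2 * ψ z + 1) ^ 2 = -3 := by linear_combination 4 * hω
  have hK3 : ((3 : ℕ) : 𝓞 K) ∈ v.asIdeal := by
    show ((3 : ℕ) : 𝓞 K) ∈ dnI K P
    rw [mem_dnI, ← nlt']
    have e : algebraMap Ω (P.adicCompletion Ω) (algebraMap K Ω (algebraMap (𝓞 K) K ((3 : ℕ) : 𝓞 K))) =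
        (3 : P.adicCompletion Ω) := by
      rw [map_natCast, map_natCast, map_natCast]
      norm_num
    rw [e]
    exact h3'
  -- comparison of the norms
  have c1 : ∀ k : K, ‖algebraMap K (v.adicCompletion K) k‖ ≤ 1 → ‖ψ k‖ ≤ 1 := by
    intro k hk
    exact (nle' P).2 (dn_le_one K P ((nle' v).1 hk))
  have c2 : ∀ k : K, ‖algebraMap K (v.adicCompletion K) k‖ < 1 → ‖ψ k‖ < 1 := by
    intro k hk
    exact (nlt' P).2 (dn_lt_one P ((nlt' v).1 hk))
  have c3 : ∀ k : K, ‖ψ k‖ < 1 → ‖algebraMap K (v.adicCompletion K) k‖ < 1 := by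
    intro k hk
    by_contra hcon
    rw [not_lt] at hcon
    have hk0 : k ≠ 0 := by
      rintro rfl
      rw [map_zero, norm_zero] at hcon
      norm_num at hcon
    have h1 : ‖ψ k⁻¹‖ ≤ 1 := c1 _ (by
      rw [map_inv₀, norm_inv]
      exact inv_le_one_of_one_le₀ hcon)
    rw [map_inv₀, norm_inv] at h1
    have h2 : 0 < ‖ψ k‖ := norm_pos_iff.2 ((map_ne_zero ψ).2 hk0)
    have h4 := (inv_le_one₀ h2).1 h1
    linarith
  have c4 : ∀ k : K, ‖ψ k‖ ≤ 1 → ‖algebraMap K (v.adicCompletion K) k‖ ≤ 1 := by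
    intro k hk
    by_contra hcon
    rw [not_le] at hcon
    have hk0 : k ≠ 0 := by
      rintro rfl
      rw [map_zero, norm_zero] at hcon
      norm_num at hcon
    have h1 : ‖ψ k⁻¹‖ < 1 := c2 _ (by
      rw [map_inv₀, norm_inv]
      exact inv_lt_one_of_one_lt₀ hcon)
    rw [map_inv₀, norm_inv] at h1
    have h2 : 0 < ‖ψ k‖ := norm_pos_iff.2 ((map_ne_zero ψ).2 hk0)
    have h4 := (inv_lt_one₀ h2).1 h1
    linarith
  obtain ⟨l, η, hl, hη, h2, hdiv⟩ := ex_lam (K := K)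
  have hspan := span_of hl hη h2 v hK3
  have hden := fun (x : P.adicCompletion Ω) (ε : ℝ) (hε : 0 < ε) => dense h3 φ hz hr h9 hgen x hε
  have hTh2 : ‖(2 : P.adicCompletion Ω)‖ = 1 := by
    refine le_antisymm u2 ?_
    by_contra hcon
    rw [not_le] at hcon
    have h6 : ‖(1 : P.adicCompletion Ω)‖ < 1 := by
      have e : (1 : P.adicCompletion Ω) = 3 - 2 := by norm_num
      rw [e]
      exact usub_lt h3' hcon
    rw [norm_one] at h6
    exact lt_irrefl _ h6
  have hlK0 : ((l : 𝓞 K) : K) ≠ 0 := by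
    intro h0
    exact hl.ne_zero (NumberField.RingOfIntegers.coe_injective (h0.trans (map_zero _).symm))
  have hlsq : (η : K) ^ 2 = -(η : K) - 1 := by
    have := congrArg (fun x : 𝓞 K => (x : K)) h2
    simpa using this
  have hll : ((l : 𝓞 K) : K) ^ 2 = -3 * (η : K) := by
    rw [hη]
    push_cast
    linear_combination hlsq
  have hηn : ‖ψ (η : K)‖ = 1 := by
    have hc : (η : K) ^ 3 = 1 := by linear_combination ((η : K) - 1) * hlsq
    have h5 : ‖ψ (η : K)‖ ^ 3 = 1 := by rw [← norm_pow, ← map_pow, hc, map_one, norm_one]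
    exact (pow_eq_one_iff_of_nonneg (norm_nonneg _) (by norm_num)).1 h5
  have hlam : ‖ψ ((l : 𝓞 K) : K)‖ = ‖2 * ψ z + 1‖ := by
    have e1 : ‖ψ ((l : 𝓞 K) : K)‖ ^ 2 = ‖(2 * ψ z + 1)‖ ^ 2 := by
      rw [← norm_pow, ← norm_pow, hsq, ← map_pow, hll, map_mul, norm_mul, hηn, mul_one, map_neg]
      congr 2
      exact map_ofNat ψ 3
    exact (pow_left_inj₀ (norm_nonneg _) (norm_nonneg _) (by norm_num)).1 e1
  have h30 : (3 : P.adicCompletion Ω) ≠ 0 := by
    have : CharZero (P.adicCompletion Ω) :=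
      charZero_of_injective_algebraMap (algebraMap Ω (P.adicCompletion Ω)).injective
    norm_num
  have hlpos : 0 < ‖2 * ψ z + 1‖ := by
    rw [norm_pos_iff]
    intro h0
    rw [h0] at hsq
    exact h30 (by linear_combination hsq)
  have hllt : ‖2 * ψ z + 1‖ < 1 := by
    have e1 : ‖(2 * ψ z + 1)‖ ^ 2 < 1 := by
      rw [← norm_pow, hsq, norm_neg]
      exact h3'
    exact (pow_lt_one_iff_of_nonneg (norm_nonneg _) (by norm_num)).1 e1
  -- elements of `K`
  have dK : ∀ k : K, ‖ψ k‖ < 1 → ‖ψ k‖ ≤ ‖2 * ψ z + 1‖ := by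
    intro k hk
    have h5 := disc_of v hl.ne_zero hspan _ (c3 k hk)
    have h6 : ‖algebraMap K (v.adicCompletion K) (k / (l : K))‖ ≤ 1 := by
      rw [map_div₀, norm_div]
      exact div_le_one_of_le₀ h5 (norm_nonneg _)
    have h7 := c1 _ h6
    rw [map_div₀, norm_div, hlam] at h7
    exact (div_le_one hlpos).1 h7
  have rK : ∀ k : K, ‖ψ k‖ ≤ 1 → ‖ψ k‖ < 1 ∨ ‖ψ k - 1‖ < 1 ∨ ‖ψ k + 1‖ < 1 := by
    intro k hk
    have h5 := res_of v (fun n => by
      rw [hspan]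
      simp only [Ideal.mem_span_singleton]
      exact hdiv n) (algebraMap K (v.adicCompletion K) k) (c4 k hk)
    rcases h5 with h | h | h
    · exact Or.inl (c2 k h)
    · refine Or.inr (Or.inl ?_)
      have := c2 (k - 1) (by rwa [map_sub, map_one])
      rwa [map_sub, map_one] at this
    · refine Or.inr (Or.inr ?_)
      have := c2 (k + 1) (by rwa [map_add, map_one])
      rwa [map_add, map_one] at this
  refine ⟨hTh2, hsq, hlpos, hllt, fun x hx => ?_, fun x hx => ?_⟩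
  · by_cases hx0 : x = 0
    · rw [hx0, norm_zero]
      exact norm_nonneg _
    · obtain ⟨k, hk⟩ := hden x ‖x‖ (norm_pos_iff.2 hx0)
      have e : ‖ψ k‖ = ‖x‖ := by
        have e1 : ψ k = x - (x - ψ k) := by ring
        have e2 : ‖x - (x - ψ k)‖ = ‖x‖ := by
          rw [sub_eq_add_neg]
          refine uadd_eq ?_
          rw [norm_neg]
          exact hk
        rw [← e1] at e2
        exact e2
      rw [← e]
      exact dK k (by rw [e]; exact hx)
  · obtain ⟨k, hk⟩ := hden x 1 one_pos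
    have hk1 : ‖ψ k‖ ≤ 1 := by
      have e1 : ψ k = x + -(x - ψ k) := by ring
      rw [e1]
      refine (IsUltrametricDist.norm_add_le_max _ _).trans (max_le hx ?_)
      rw [norm_neg]
      exact hk.le
    rcases rK k hk1 with h | h | h
    · left
      have e1 : x = ψ k + (x - ψ k) := by ring
      rw [e1]
      exact uadd_lt h hk
    · right
      left
      have e1 : x - 1 = (ψ k - 1) + (x - ψ k) := by ring
      rw [e1]
      exact uadd_lt h hk
    · right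
      right
      have e1 : x + 1 = (ψ k + 1) + (x - ψ k) := by ring
      rw [e1]
      exact uadd_lt h hk

end field

end Pool.Agent.R432.JG.Loc3
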