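import Pool.Agent.R432.JG.Loc3
import Pool.Agent.R432.C6

/-!
# Torsion points of `y² + D y = x³` over a field like the completion of `ℚ(ω)` at three
-/

set_option autoImplicit false
set_option linter.all false

open IsDedekindDomain NumberField WeierstrassCurve

namespace Pool.Agent.R432.JG.Loc4

open Pool.Agent.TH954 Pool.Agent.R419.ST
open Pool.Agent.TH841.NF (Sc)
open scoped Classical

section alg

variable {F : Type} [Field F] [CharZero F]

/-- the kernel of `1 - ω` -/
def InC {V : WeierstrassCurve F} (a : F) (T : V.toAffine.Point) : Prop :=
  T = 0 ∨ ∃ (y : F) (h : V.toAffine.Nonsingular 0 y), T = .some 0 y h ∧ (y = 0 ∨ y = -a)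

/-- **Points of three-power order.** -/
theorem three_pow_tors {a z : F} (ha : a ≠ 0) (hz : z ^ 2 + z + 1 = 0) (hcube : ∀ x : F, x ^ 3 ≠ a)
    (n : ℕ) {P : (WE a).toAffine.Point} (hP : 3 ^ n • P = 0) : InC a P := by
  have hz3 : z ^ 3 = 1 := by linear_combination (z - 1) * hz
  have hz0 : z ≠ 0 := by
    rintro rfl
    norm_num at hz
  have hz1 : z ≠ 1 := by
    rintro rfl
    norm_num at hz
  have S : Sc (RingHom.id F) z (WE a) (WE a) :=
    Pool.Agent.R432.C.sED _ hz0 (by rw [RingHom.id_apply, hz3, mul_one])
  set A : (WE a).toAffine.Point →+ (WE a).toAffine.Point := Pool.Agent.R432.C.tH S with hA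
  have hAs : ∀ x y (h : (WE a).toAffine.Nonsingular x y), ∃ h',
      A (.some x y h) = .some (z ^ 2 * x) y h' := by
    intro x y h
    obtain ⟨h1, e1⟩ := Pool.Agent.R432.C.tH_some S x y h
    have e2 : (RingHom.id F) x * z ^ 2 = z ^ 2 * x := by rw [RingHom.id_apply, mul_comm]
    have e3 : (RingHom.id F) y * z ^ 3 = y := by rw [RingHom.id_apply, hz3, mul_one]
    rw [hA]
    refine ⟨by rw [← e2, ← e3]; exact h1, ?_⟩
    rw [e1, Affine.Point.some.injEq]
    exact ⟨e2, e3⟩
  have hA3 : ∀ P, P + A (A P) + A P = 0 := by
    rintro (_ | ⟨x, y, h⟩)
    · change (0 : (WE a).toAffine.Point) + A (A 0) + A 0 = 0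
      rw [map_zero, map_zero, add_zero, add_zero]
    · obtain ⟨h1, e1⟩ := hAs x y h
      obtain ⟨h2, e2⟩ := hAs _ _ h1
      rw [e1, e2]
      refine Pool.Agent.R432.C.add3 (V := WE a) rfl rfl rfl rfl rfl ha hz _ _ _ ?_ ?_
      · linear_combination (z * x) * hz3
      · ring
  have hAA : ∀ P, A (A P) = -P - A P := by
    intro P
    have h1 := hA3 P
    have h2 : A (A P) = P + A (A P) + A P - P - A P := by abel
    rw [h2, h1]
    abel
  set B : (WE a).toAffine.Point →+ (WE a).toAffine.Point := AddMonoidHom.id _ - A with hB
  have hBd : ∀ P, B P = P - A P := fun P => rfl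
  have heq : ∀ x y (h : (WE a).toAffine.Nonsingular x y), y ^ 2 + a * y = x ^ 3 := by
    intro x y h
    have h4 := (Affine.equation_iff _ _).1 h.1
    change y ^ 2 + 0 * x * y + a * y = x ^ 3 + 0 * x ^ 2 + 0 * x + 0 at h4
    linear_combination h4
  have hBk : ∀ P, B P = 0 → InC a P := by
    rintro (_ | ⟨x, y, h⟩) hP
    · left
      rfl
    · right
      have h2 : (Affine.Point.some x y h : (WE a).toAffine.Point) - A (.some x y h) = 0 := hP
      obtain ⟨h3, e3⟩ := hAs x y h
      rw [e3, sub_eq_zero, Affine.Point.some.injEq] at h2
      have hx : x = 0 := by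
        have h4 : (z ^ 2 - 1) * x = 0 := by linear_combination -h2.1
        refine (mul_eq_zero.1 h4).resolve_left ?_
        intro h5
        apply hz1
        linear_combination hz3 - z * h5
      have hy : y = 0 ∨ y = -a := by
        have h4 := heq x y h
        rw [hx] at h4
        have h5 : y * (y + a) = 0 := by linear_combination h4
        rcases mul_eq_zero.1 h5 with h6 | h6
        · exact Or.inl h6
        · exact Or.inr (by linear_combination h6)
      subst hx
      exact ⟨y, h, rfl, hy⟩
  have hBB : ∀ P, B (B P) = -((3 : ℕ) • A P) := by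
    intro P
    show (P - A P) - A (P - A P) = _
    rw [map_sub, hAA]
    abel
  -- no points of the next level
  have key : ∀ Q, B (B Q) = 0 → B Q = 0 := by
    intro Q hQ
    rcases hBk _ hQ with h0 | ⟨t, ht, hT, ht0⟩
    · exact h0
    · exfalso
      rcases Q with _ | ⟨x, y, h⟩
      · have h1 : B (Affine.Point.zero : (WE a).toAffine.Point) = 0 := map_zero B
        rw [h1] at hT
        exact absurd hT.symm (Affine.Point.some_ne_zero ht)
      · obtain ⟨h1, e1⟩ := hAs x y h
        by_cases hx : x = 0
        · have h2 : A (.some x y h) = .some x y h := by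
            rw [e1, Affine.Point.some.injEq]
            exact ⟨by rw [hx, mul_zero], rfl⟩
          rw [hBd, h2, sub_self] at hT
          exact absurd hT.symm (Affine.Point.some_ne_zero ht)
        · have h2 : A (.some x y h) + .some 0 t ht = .some x y h := by
            rw [← hT, hBd]
            abel
          rw [e1] at h2
          have hne : z ^ 2 * x ≠ 0 := mul_ne_zero (pow_ne_zero 2 hz0) hx
          rw [Affine.Point.add_of_X_ne hne, Affine.Point.some.injEq,
            Affine.slope_of_X_ne hne] at h2
          have h3 := h2.1
          have h4 : ((y - t) / (z ^ 2 * x - 0)) ^ 2 + 0 * ((y - t) / (z ^ 2 * x - 0)) - 0 -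
            z ^ 2 * x - 0 = x := h3
          have h5 : (y - t) ^ 2 = (x + z ^ 2 * x) * (z ^ 2 * x) ^ 2 := by
            rw [sub_zero] at h4
            have h6 : ((y - t) / (z ^ 2 * x)) ^ 2 = x + z ^ 2 * x := by linear_combination h4
            rw [div_pow, div_eq_iff (pow_ne_zero 2 hne)] at h6
            exact h6
          have h6 : (y - t) ^ 2 = -(z ^ 2) * x ^ 3 := by
            linear_combination h5 + x ^ 3 * (z + z ^ 3 + 1) * hz3 + x ^ 3 * hz
          have h7 := heq x y h
          have hx3 : x ^ 3 = -a ^ 2 := by
            rcases ht0 with rfl | rfl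
            · have hy : y ≠ 0 := by
                rintro rfl
                apply hx
                have : x ^ 3 = 0 := by linear_combination -h7
                exact pow_eq_zero_iff (by norm_num) |>.1 this
              have h8 : y = z * a := by
                have h9 : y * (z * (y - z * a)) = 0 := by
                  linear_combination (-1 : F) * h6 - z ^ 2 * h7 + y ^ 2 * hz
                rcases mul_eq_zero.1 h9 with h10 | h10
                · exact absurd h10 hy
                · rcases mul_eq_zero.1 h10 with h11 | h11
                  · exact absurd h11 hz0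
                  · linear_combination h11
              rw [← h7, h8]
              linear_combination a ^ 2 * hz
            · have hy : y + a ≠ 0 := by
                intro h0
                apply hx
                have : x ^ 3 = 0 := by linear_combination -h7 + y * h0
                exact pow_eq_zero_iff (by norm_num) |>.1 this
              have h8 : z * y = a := by
                have h9 : (y + a) * (a - z * y) = 0 := by
                  linear_combination h6 + z ^ 2 * h7 - (y * (y + a)) * hz
                rcases mul_eq_zero.1 h9 with h10 | h10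
                · exact absurd h10 hy
                · linear_combination -h10
              rw [← h7, ← h8]
              linear_combination y ^ 2 * hz
          apply hcube (a / (-x))
          have hx' : (-x) ^ 3 = a ^ 2 := by linear_combination -hx3
          rw [div_pow, hx']
          field_simp
  have main : ∀ (n : ℕ) (P : (WE a).toAffine.Point), 3 ^ n • P = 0 → B P = 0 := by
    intro n
    induction n with
    | zero =>
      intro P hP
      rw [pow_zero, one_smul] at hP
      rw [hP, map_zero]
    | succ n ih =>
      intro P hP
      have h1 : 3 ^ n • ((3 : ℕ) • P) = 0 := by rw [← mul_smul, ← pow_succ]; exact hP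
      have h2 := ih _ h1
      rw [map_nsmul] at h2
      apply key
      apply key
      rw [hBB, ← map_nsmul, h2, map_zero, neg_zero]
  exact hBk _ (main n P hP)

end alg

end Pool.Agent.R432.JG.Loc4
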