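import Pool.Agent.R432.JG.Loc4
import Pool.Agent.R432.JG.Dsc

/-!
# Torsion points of `y² + D y = x³` over the completions at three
-/

set_option autoImplicit false
set_option linter.all false

open IsDedekindDomain NumberField WeierstrassCurve MvPolynomial

namespace Pool.Agent.R432.JG.Loc5

open Pool.Agent.TH954 Pool.Agent.R419.ST Pool.Agent.R432.JG.Loc4 Pool.Agent.R432.JG.Dsc
open scoped Classical

section loc

variable {N : Type} [NormedField N] [IsUltrametricDist N] {lam : N}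

lemma int_le' (m : ℤ) : ‖(m : N)‖ ≤ 1 := IsUltrametricDist.norm_intCast_le_one N m

lemma int_one (hL : IsLoc lam) {m : ℤ} (h : ¬ (3 : ℤ) ∣ m) : ‖(m : N)‖ = 1 := by
  have h3 := hL.three_lt
  have key : ∀ q : ℤ, ‖(3 : N) * (q : N)‖ < 1 := by
    intro q
    rw [norm_mul]
    have := int_le' (N := N) q
    nlinarith [norm_nonneg (3 : N), norm_nonneg (q : N)]
  have hm : m % 3 = 1 ∨ m % 3 = 2 := by omega
  rcases hm with hm | hm
  · have e : (m : N) = 1 + 3 * ((m / 3 : ℤ) : N) := by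
      have h1 : m = 1 + 3 * (m / 3) := by omega
      nth_rewrite 1 [h1]
      push_cast
      ring
    rw [e, uadd_eq, norm_one]
    rw [norm_one]
    exact key _
  · have e : (m : N) = -1 + 3 * ((m / 3 + 1 : ℤ) : N) := by
      have h1 : m = -1 + 3 * (m / 3 + 1) := by omega
      nth_rewrite 1 [h1]
      push_cast
      ring
    rw [e, uadd_eq, norm_neg, norm_one]
    rw [norm_neg, norm_one]
    exact key _

lemma int_nine (hL : IsLoc lam) {m : ℤ} (h : ‖(m : N)‖ ≤ ‖(9 : N)‖) : (9 : ℤ) ∣ m := by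
  have h3 := hL.three_lt
  have h3' := hL.three_pos
  have e9 : ‖(9 : N)‖ = ‖(3 : N)‖ ^ 2 := by
    rw [← norm_pow]
    norm_num
  rw [e9] at h
  have h1 : (3 : ℤ) ∣ m := by
    by_contra hc
    rw [int_one hL hc] at h
    nlinarith
  obtain ⟨q, rfl⟩ := h1
  have h2 : (3 : ℤ) ∣ q := by
    by_contra hc
    push_cast at h
    rw [norm_mul, int_one hL hc, mul_one] at h
    nlinarith
  obtain ⟨t, rfl⟩ := h2
  exact ⟨t, by ring⟩

/-- a number which is not `±1` modulo nine is not a cube -/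
lemma no_cube (hL : IsLoc lam) {D : ℕ} (h3 : ¬ 3 ∣ D) (h1 : D % 9 ≠ 1) (h8 : D % 9 ≠ 8) (x : N) :
    x ^ 3 ≠ (D : N) := by
  intro hx
  have hD1 : ‖(D : N)‖ = 1 := by
    have := int_one (N := N) hL (m := (D : ℤ)) (by omega)
    simpa using this
  have hx1 : ‖x‖ = 1 := by
    have h5 : ‖x‖ ^ 3 = 1 := by rw [← norm_pow, hx, hD1]
    exact (pow_eq_one_iff_of_nonneg (norm_nonneg _) (by norm_num)).1 h5
  have r0 := hL.pos
  have r1 := hL.lt
  have hlam := hL.lam_ne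
  have main : ∀ ε : ℤ, ε ^ 2 = 1 → ‖x - (ε : N)‖ < 1 → ‖(((D : ℤ) - ε : ℤ) : N)‖ ≤ ‖(9 : N)‖ := by
    intro ε hε hs
    obtain ⟨t, ht⟩ : ∃ t, x - (ε : N) = lam * t := ⟨(x - ε) / lam, by field_simp⟩
    have ht1 : ‖t‖ ≤ 1 := by
      have h5 := hL.disc _ hs
      rw [ht, norm_mul] at h5
      exact le_of_mul_le_mul_left (by linarith) r0
    have hεN : (ε : N) ^ 2 = 1 := by rw [← Int.cast_pow, hε, Int.cast_one]
    have hsq := hL.sq
    have e1 : (((D : ℤ) - ε : ℤ) : N) = lam ^ 3 * (t ^ 3 - t) - (ε : N) * lam ^ 4 * t ^ 2 := by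
      push_cast
      rw [← hx]
      have e2 : x = ε + lam * t := by linear_combination ht
      rw [e2]
      linear_combination (ε + 3 * lam * t) * hεN + (lam * t + (ε : N) * lam ^ 2 * t ^ 2) * hsq
    have ht3 : ‖t ^ 3 - t‖ ≤ ‖lam‖ := by
      have e3 : t ^ 3 - t = t * ((t - 1) * (t + 1)) := by ring
      have q1 : ‖t - 1‖ ≤ 1 := usub ht1 (by rw [norm_one])
      have q2 : ‖t + 1‖ ≤ 1 := uadd ht1 (by rw [norm_one])
      rw [e3, norm_mul, norm_mul]
      have n0 := norm_nonneg t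
      have n1 := norm_nonneg (t - 1)
      have n2 := norm_nonneg (t + 1)
      rcases hL.res t ht1 with h | h | h
      · have h5 := hL.disc _ h
        calc ‖t‖ * (‖t - 1‖ * ‖t + 1‖) ≤ ‖lam‖ * (1 * 1) := by gcongr
          _ = ‖lam‖ := by ring
      · have h5 := hL.disc _ h
        calc ‖t‖ * (‖t - 1‖ * ‖t + 1‖) ≤ 1 * (‖lam‖ * 1) := by gcongr
          _ = ‖lam‖ := by ring
      · have h5 := hL.disc _ h
        calc ‖t‖ * (‖t - 1‖ * ‖t + 1‖) ≤ 1 * (1 * ‖lam‖) := by gcongr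
          _ = ‖lam‖ := by ring
    have e9 : ‖(9 : N)‖ = ‖lam‖ ^ 4 := by
      have : (9 : N) = lam ^ 4 := by linear_combination (3 - lam ^ 2) * hsq
      rw [this, norm_pow]
    have hεn : ‖(ε : N)‖ ≤ 1 := int_le' ε
    rw [e1, e9]
    refine usub ?_ ?_
    · rw [norm_mul, norm_pow]
      calc ‖lam‖ ^ 3 * ‖t ^ 3 - t‖ ≤ ‖lam‖ ^ 3 * ‖lam‖ := by gcongr
        _ = ‖lam‖ ^ 4 := by ring
    · rw [norm_mul, norm_mul, norm_pow, norm_pow]
      calc ‖(ε : N)‖ * ‖lam‖ ^ 4 * ‖t‖ ^ 2 ≤ 1 * ‖lam‖ ^ 4 * 1 ^ 2 := by gcongr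
        _ = ‖lam‖ ^ 4 := by ring
  rcases hL.res x hx1.le with h | h | h
  · rw [hx1] at h
    exact lt_irrefl _ h
  · have h5 := int_nine hL (main 1 (by norm_num) (by push_cast; exact h))
    omega
  · have h5 := int_nine hL (main (-1) (by norm_num) (by push_cast; rw [sub_neg_eq_add]; exact h))
    omega

variable [ProperSpace N] [CharZero N]

/-- **Torsion points.** -/
theorem tors_V (hL : IsLoc lam) {V : WeierstrassCurve N} {D : ℕ} (hV : V = WE (D : N))
    (h3 : ¬ 3 ∣ D) (h1 : D % 9 ≠ 1) (h8 : D % 9 ≠ 8) {T : V.toAffine.Point} {n : ℕ} (hn : n ≠ 0)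
    (h : n • T = 0) :
    InC (D : N) (2 • T) ∧ (D % 9 ≠ 2 → D % 9 ≠ 7 → InC (D : N) T) := by
  subst hV
  obtain ⟨a, m, hm, hnam⟩ := Nat.exists_eq_pow_mul_and_not_dvd hn 3 (by norm_num)
  have hD0 : (D : N) ≠ 0 := Nat.cast_ne_zero.2 (by rintro rfl; exact h3 (dvd_zero 3))
  have hd : ‖(D : N)‖ ≤ 1 := by
    have := int_le' (N := N) (D : ℤ)
    simpa using this
  have h4 : ‖(4 : N)‖ = 1 := hL.th.four
  have h40 : (4 : N) ≠ 0 := hL.th.four_ne
  have e4 : ‖(D : N) ^ 2 / 4 - 1‖ = ‖(((D : ℤ) ^ 2 - 4 : ℤ) : N)‖ := by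
    have e : (D : N) ^ 2 / 4 - 1 = (((D : ℤ) ^ 2 - 4 : ℤ) : N) / 4 := by
      push_cast
      field_simp
    rw [e, norm_div, h4, div_one]
  have hD3 : (3 : ℤ) ∣ (D : ℤ) ^ 2 - 4 := by
    have hm3 : D % 3 = 1 ∨ D % 3 = 2 := by omega
    have h5 : ((D : ℤ) ^ 2 - 4) % 3 = 0 := by
      rcases hm3 with h6 | h6
      · have h7 : (D : ℤ) % 3 = 1 := by omega
        rw [Int.sub_emod, pow_two, Int.mul_emod, h7]
        norm_num
      · have h7 : (D : ℤ) % 3 = 2 := by omega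
        rw [Int.sub_emod, pow_two, Int.mul_emod, h7]
        norm_num
    exact Int.dvd_of_emod_eq_zero h5
  have hc : ‖(D : N) ^ 2 / 4 - 1‖ < 1 := by
    rw [e4]
    obtain ⟨q, hq⟩ := hD3
    rw [hq]
    push_cast
    rw [norm_mul]
    have := int_le' (N := N) q
    have h5 := hL.three_lt
    nlinarith [norm_nonneg (3 : N), norm_nonneg (q : N)]
  have hs : m • (3 ^ a • T) = 0 := by
    rw [← mul_smul, mul_comm, ← hnam, h]
  obtain ⟨k1, k2⟩ := two_V hL (V := WE (D : N)) rfl hd hc hm hs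
  have hz : ((lam - 1) / 2) ^ 2 + (lam - 1) / 2 + 1 = 0 := by
    have h20 := hL.two_ne
    field_simp
    linear_combination hL.sq
  have hcube := fun x : N => no_cube hL h3 h1 h8 x
  refine ⟨?_, fun h2 h7 => ?_⟩
  · refine three_pow_tors hD0 hz hcube a ?_
    rw [smul_comm]
    exact k1
  · refine three_pow_tors hD0 hz hcube a ?_
    by_contra hne
    have h5 := k2 hne
    rw [e4] at h5
    have h6 := int_nine hL h5
    have h9 : ((D : ℤ) ^ 2 - 4) % 9 = 0 := Int.emod_eq_zero_of_dvd h6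
    have h10 : D % 9 < 9 := Nat.mod_lt _ (by norm_num)
    have h11 : (D : ℤ) % 9 = ((D % 9 : ℕ) : ℤ) := by omega
    rw [Int.sub_emod, pow_two, Int.mul_emod, h11] at h9
    interval_cases h12 : D % 9 <;> simp_all

end loc

end Pool.Agent.R432.JG.Loc5
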