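import Pool.Agent.R432.JG.Loc5
import Pool.Agent.R432.JG.GalK

/-!
# Three-power descent over `ℚ(ω, ∛l : l ∈ M)`
-/

set_option autoImplicit false
set_option linter.all false

open IsDedekindDomain NumberField WeierstrassCurve MvPolynomial

namespace Pool.Agent.R432.JG.Loc6

open Pool.Agent.TH954 Pool.Agent.R419.ST Pool.Agent.R432.JG.Loc4 Pool.Agent.R432.JG.Dsc
open Pool.Agent.R432.JG.Loc5
open scoped Classical

variable {Ω : Type} [Field Ω] [NumberField Ω]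

theorem exists_phi (w : Ω) (hw : w ^ 2 + w + 1 = 0) :
    ∃ (φ : CyclotomicField 3 ℚ →+* Ω) (z : CyclotomicField 3 ℚ), z ^ 2 + z + 1 = 0 ∧ φ z = w := by
  have hirrQ : Irreducible (Polynomial.cyclotomic 3 ℚ) :=
    Polynomial.cyclotomic.irreducible_rat (by norm_num)
  have hcyc : IsCyclotomicExtension {3} ℚ (CyclotomicField 3 ℚ) :=
    Pool.Agent.Y948.CTP.cyc_rat _ _ (CyclotomicField.isCyclotomicExtension 3 ℚ)
  have hζ : IsPrimitiveRoot (IsCyclotomicExtension.zeta 3 ℚ (CyclotomicField 3 ℚ)) 3 :=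
    IsCyclotomicExtension.zeta_spec 3 ℚ (CyclotomicField 3 ℚ)
  have hz3 : w ^ 3 = 1 := by linear_combination (w - 1) * hw
  have hz1 : w ≠ 1 := by
    rintro rfl
    norm_num at hw
  have hζF : IsPrimitiveRoot w 3 := by
    have : Fact (Nat.Prime 3) := ⟨Nat.prime_three⟩
    have h1 := IsPrimitiveRoot.orderOf w
    rwa [orderOf_eq_prime hz3 hz1] at h1
  let φ : CyclotomicField 3 ℚ →ₐ[ℚ] Ω := (hζ.embeddingsEquivPrimitiveRoots Ω hirrQ).symm
    ⟨_, (mem_primitiveRoots (by norm_num)).2 hζF⟩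
  have hφ : φ (IsCyclotomicExtension.zeta 3 ℚ (CyclotomicField 3 ℚ)) = w := by
    have h1 := hζ.embeddingsEquivPrimitiveRoots_apply_coe Ω hirrQ φ
    rw [← h1, Equiv.apply_symm_apply]
  refine ⟨φ.toRingHom, IsCyclotomicExtension.zeta 3 ℚ (CyclotomicField 3 ℚ), ?_, hφ⟩
  apply φ.toRingHom.injective
  rw [map_add, map_add, map_pow, map_one, map_zero]
  show φ _ ^ 2 + φ _ + 1 = 0
  rw [hφ]
  exact hw

theorem locΩ {S : Finset ℕ} (h9 : ∀ l ∈ S, l % 9 = 1) (w : Ω) (hw : w ^ 2 + w + 1 = 0) (r : ℕ → Ω)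
    (hr : ∀ l ∈ S, r l ^ 3 = (l : Ω))
    (hgen : ∀ M : Subfield Ω, w ∈ M → (∀ l ∈ S, r l ∈ M) → M = ⊤)
    (P : HeightOneSpectrum (𝓞 Ω)) (h3 : ((3 : ℕ) : 𝓞 Ω) ∈ P.asIdeal) :
    ∃ lam : P.adicCompletion Ω, IsLoc lam := by
  obtain ⟨φ, z, hz, hφ⟩ := exists_phi w hw
  have hcyc : IsCyclotomicExtension {3} ℚ (CyclotomicField 3 ℚ) :=
    Pool.Agent.Y948.CTP.cyc_rat _ _ (CyclotomicField.isCyclotomicExtension 3 ℚ)
  exact ⟨_, Loc3.isLocΩ h3 φ hz hr h9 (by rw [hφ]; exact hgen)⟩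

/-- the point has rational coordinates -/
def Rat (D : ℕ) (v : HeightOneSpectrum (𝓞 Ω))
    (T : ((EN Ω D).baseChange (v.adicCompletion Ω)).toAffine.Point) : Prop :=
  ∃ y : (EN Ω D).toAffine.Point, ∀ j, crd T j = algebraMap Ω (v.adicCompletion Ω) (crd y j)

/-- the conclusion for a component -/
def Close (D : ℕ) (v : HeightOneSpectrum (𝓞 Ω))
    (T : ((EN Ω D).baseChange (v.adicCompletion Ω)).toAffine.Point) : Prop :=
  Rat D v (2 • T) ∧ (D % 9 ≠ 2 → D % 9 ≠ 7 → Rat D v T)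

lemma rat_of {D : ℕ} (hD : D ≠ 0) {v : HeightOneSpectrum (𝓞 Ω)}
    {T : ((EN Ω D).baseChange (v.adicCompletion Ω)).toAffine.Point}
    (h : InC ((D : ℕ) : v.adicCompletion Ω) T) : Rat D v T := by
  have hD' : (D : Ω) ≠ 0 := Nat.cast_ne_zero.2 hD
  have hns : ∀ y : Ω, y = 0 ∨ y = -(D : Ω) → (EN Ω D).toAffine.Nonsingular 0 y := by
    intro y hy
    rw [Affine.nonsingular_iff, Affine.equation_iff]
    refine ⟨?_, Or.inr ?_⟩
    · show y ^ 2 + 0 * 0 * y + (D : Ω) * y = 0 ^ 3 + 0 * 0 ^ 2 + 0 * 0 + 0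
      rcases hy with rfl | rfl
      · ring
      · ring
    · show y ≠ -y - 0 * 0 - (D : Ω)
      intro h0
      rcases hy with rfl | rfl
      · exact hD' (by linear_combination h0)
      · exact hD' (by linear_combination -h0)
  rcases h with rfl | ⟨y, h, rfl, hy⟩
  · refine ⟨0, fun j => ?_⟩
    rw [crd_zero, crd_zero]
    fin_cases j <;> simp
  · rcases hy with rfl | rfl
    · refine ⟨.some 0 0 (hns 0 (Or.inl rfl)), fun j => ?_⟩
      fin_cases j <;> simp [crd]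
    · refine ⟨.some 0 (-(D : Ω)) (hns _ (Or.inr rfl)), fun j => ?_⟩
      fin_cases j <;> simp [crd]

lemma close_of {D : ℕ} (h3 : ¬ 3 ∣ D) (h1 : D % 9 ≠ 1) (h8 : D % 9 ≠ 8)
    {v : HeightOneSpectrum (𝓞 Ω)} {lam : v.adicCompletion Ω} (hL : IsLoc lam)
    (hfin : Finite (EN Ω D).toAffine.Point) {r : ℕ}
    {T : ((EN Ω D).baseChange (v.adicCompletion Ω)).toAffine.Point}
    {y : ((EN Ω D).baseChange Ω).toAffine.Point} {m : ℕ} (hm : ¬ 3 ∣ m)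
    (h : m • (3 ^ r • T - pm (EN Ω D) (Algebra.ofId Ω (v.adicCompletion Ω)) y) = 0) :
    Close D v T := by
  have inst3 : ProperSpace (v.adicCompletion Ω) := Pool.Agent.Y791.BS.proper v
  have : CharZero (v.adicCompletion Ω) :=
    charZero_of_injective_algebraMap (algebraMap Ω (v.adicCompletion Ω)).injective
  have hD : D ≠ 0 := by
    rintro rfl
    exact h3 (dvd_zero 3)
  have hfin' : Finite ((EN Ω D).baseChange Ω).toAffine.Point := hfin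
  have hy : Nat.card ((EN Ω D).baseChange Ω).toAffine.Point • y = 0 := card_nsmul_eq_zero'
  have hc0 : Nat.card ((EN Ω D).baseChange Ω).toAffine.Point ≠ 0 := Nat.card_ne_zero.2 ⟨⟨0⟩, hfin'⟩
  set e := Nat.card ((EN Ω D).baseChange Ω).toAffine.Point with he
  have hm0 : m ≠ 0 := by
    rintro rfl
    exact hm (dvd_zero 3)
  have hT : (e * m * 3 ^ r) • T = 0 := by
    have h5 : (e * m * 3 ^ r) • T = e • (m • (3 ^ r • T -
        pm (EN Ω D) (Algebra.ofId Ω (v.adicCompletion Ω)) y)) +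
        m • (e • pm (EN Ω D) (Algebra.ofId Ω (v.adicCompletion Ω)) y) := by
      rw [smul_sub, smul_sub, mul_smul, mul_smul, smul_comm m e, sub_add_cancel]
    have h6 : e • pm (EN Ω D) (Algebra.ofId Ω (v.adicCompletion Ω)) y = 0 := by
      rw [← map_nsmul, hy, map_zero]
    rw [h5, h, h6, smul_zero, smul_zero, add_zero]
  obtain ⟨k1, k2⟩ := tors_V hL (base_EN (v.adicCompletion Ω) D) h3 h1 h8
    (mul_ne_zero (mul_ne_zero hc0 hm0) (pow_ne_zero _ (by norm_num))) hT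
  exact ⟨rat_of hD k1, fun h2 h7 => rat_of hD (k2 h2 h7)⟩

section main

variable {n : ℕ} {S : Finset ℕ} (h9 : ∀ l ∈ S, l % 9 = 1) {w : Ω} (hw : w ^ 2 + w + 1 = 0)
  {ρ : ℕ → Ω} (hρ : ∀ l ∈ S, ρ l ^ 3 = (l : Ω))
  (hgen : ∀ M : Subfield Ω, w ∈ M → (∀ l ∈ S, ρ l ∈ M) → M = ⊤)
  {D : Fin n → ℕ} (h3 : ∀ i, ¬ 3 ∣ D i) (h1 : ∀ i, D i % 9 ≠ 1) (h8 : ∀ i, D i % 9 ≠ 8) {r : ℕ}
  (hfin : ∀ i, Finite (EN Ω (D i)).toAffine.Point) (hsha : ∀ i, ShaN r (EN Ω (D i)))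

include h9 hw hρ hgen h3 h1 h8 hfin hsha

theorem thmA (X : Set (MvPolynomial (Fin n × Fin 3) Ω)) (v : HeightOneSpectrum (𝓞 Ω))
    (hv : ((3 : ℕ) : 𝓞 Ω) ∈ v.asIdeal)
    (P : (i : Fin n) → ((EN Ω (D i)).baseChange (v.adicCompletion Ω)).toAffine.Point)
    (h : ∀ k : ℕ, ∃ ξ ∈ SelSet (fun i => EN Ω (D i)) X (3 ^ k),
      CovAt (fun i => EN Ω (D i)) (3 ^ k) ξ (v.adicCompletion Ω) P) (i : Fin n) :
    Close (D i) v (P i) := by
  obtain ⟨lam, hL⟩ := locΩ h9 w hw ρ hρ hgen v hv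
  obtain ⟨y, hy⟩ := compV (fun i => by
    intro h0
    exact h3 i (by rw [h0]; exact dvd_zero 3)) r hfin hsha X v hv P h
  obtain ⟨m, hm, h5⟩ := hy i
  exact close_of (h3 i) (h1 i) (h8 i) hL (hfin i) hm h5

theorem thmB (X : Set (MvPolynomial (Fin n × Fin 3) Ω)) (hX : ∀ f ∈ X, ∃ d, MultiHom d f)
    (v : HeightOneSpectrum (𝓞 Ω)) (hv : ((3 : ℕ) : 𝓞 Ω) ∈ v.asIdeal)
    (h : ∀ P : (i : Fin n) → ((EN Ω (D i)).baseChange (v.adicCompletion Ω)).toAffine.Point,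
      OnX X (fun i => crd (P i)) → ¬ ∀ i, Close (D i) v (P i)) :
    ∃ k : ℕ, SelSet (fun i => EN Ω (D i)) X (3 ^ k) = ∅ := by
  obtain ⟨lam, hL⟩ := locΩ h9 w hw ρ hρ hgen v hv
  refine hasseV (fun i => by
    intro h0
    exact h3 i (by rw [h0]; exact dvd_zero 3)) r hfin hsha X hX v hv fun P hP => ?_
  rintro ⟨y, hy⟩
  refine h P hP fun i => ?_
  obtain ⟨m, hm, h5⟩ := hy i
  exact close_of (h3 i) (h1 i) (h8 i) hL (hfin i) hm h5

end main

end Pool.Agent.R432.JG.Loc6
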