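import Pool.Agent.R432.JG.G5
import Pool.Agent.R432.JL.Stm
import Pool.Agent.R419.CF.NS

/-!
# Numbers and sets of primes
-/

set_option autoImplicit false

open scoped Classical

namespace Pool.Agent.R432.JG

open Finset Filter
open Pool.Agent.Y703.CX (LamP)
open Pool.Agent.Y703.CT (Cls NoSplit Base)
open Pool.Agent.R419.CF (SW GdW ClW ClG mem_SW prod_primes_pos)
open Pool.Agent.R419.CF.NS (MD fac_prod cls_iff gdw_of_nosplit nosplit_of_gdw)
open Pool.Agent.R432.JL (GJ M0 M2 ex)

section one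

variable {D : ℕ} {M : Finset ℕ}

theorem fac_tw (hM : ∀ q ∈ M, q.Prime) (h0 : D ≠ 0) (t : {l : ℕ // l ∈ M} → ZMod 3) (p : ℕ) :
    (twN D M t).factorization p = D.factorization p +
      if h : p ∈ M then (t ⟨p, h⟩).val else 0 := by
  unfold twN
  have hne : ∀ i ∈ (univ : Finset {l : ℕ // l ∈ M}), i.1 ^ (t i).val ≠ 0 := fun i _ =>
    pow_ne_zero _ (hM i.1 i.2).ne_zero
  rw [Nat.factorization_mul h0 (Finset.prod_ne_zero_iff.2 hne), Finsupp.add_apply,
    Nat.factorization_prod hne, Finsupp.finsetSum_apply]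
  congr 1
  have h1 : ∀ i ∈ (univ : Finset {l : ℕ // l ∈ M}), (i.1 ^ (t i).val).factorization p =
      if i.1 = p then (t i).val else 0 := by
    intro i _
    rw [Nat.factorization_pow, (hM i.1 i.2).factorization, Finsupp.smul_apply,
      Finsupp.single_apply]
    split_ifs <;> simp
  rw [Finset.sum_congr rfl h1]
  by_cases h : p ∈ M
  · rw [dif_pos h, Finset.sum_eq_single ⟨p, h⟩]
    · rw [if_pos rfl]
    · intro i _ hi
      rw [if_neg fun h' => hi (Subtype.ext h')]
    · intro h'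
      exact absurd (mem_univ _) h'
  · rw [dif_neg h]
    refine Finset.sum_eq_zero fun i _ => ?_
    rw [if_neg]
    intro h'
    exact h (h' ▸ i.2)

theorem val_two {c : ZMod 3} : c = 2 ↔ c.val = 2 := by
  revert c
  decide

theorem val_zero' {c : ZMod 3} : c = 0 ↔ c.val = 0 := by
  revert c
  decide

theorem tw_facts (hM : ∀ q ∈ M, q.Prime) (h0 : D ≠ 0) (hsq : Squarefree D)
    (hnd : ∀ l ∈ M, ¬ l ∣ D) (t : {l : ℕ // l ∈ M} → ZMod 3) :
    (twN D M t).primeFactors = (D.primeFactors ∪ M) \ M0 M t ∧ MD (twN D M t) = M2 M t := by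
  have hne : twN D M t ≠ 0 := mul_ne_zero h0
    (Finset.prod_ne_zero_iff.2 fun i _ => pow_ne_zero _ (hM i.1 i.2).ne_zero)
  have hf := fac_tw hM h0 t
  have hD1 : ∀ p, p.Prime → (p ∈ D.primeFactors ↔ D.factorization p = 1) ∧
      D.factorization p ≤ 1 := by
    intro p hp
    have h1 := (Nat.squarefree_iff_factorization_le_one h0).1 hsq p
    refine ⟨?_, h1⟩
    rw [Nat.mem_primeFactors]
    have h2 := hp.dvd_iff_one_le_factorization h0
    constructor
    · rintro ⟨-, h3, -⟩
      have := h2.1 h3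
      omega
    · intro h3
      exact ⟨hp, h2.2 (by omega), h0⟩
  have hMD : ∀ p ∈ M, D.factorization p = 0 := fun p hp =>
    Nat.factorization_eq_zero_of_not_dvd (hnd p hp)
  constructor
  · ext p
    rw [Nat.mem_primeFactors, Finset.mem_sdiff, mem_union]
    unfold M0
    rw [mem_filter]
    constructor
    · rintro ⟨hp, hd, -⟩
      have h1 := (hp.dvd_iff_one_le_factorization hne).1 hd
      rw [hf] at h1
      by_cases h : p ∈ M
      · rw [dif_pos h, hMD p h] at h1
        refine ⟨Or.inr h, fun h2 => ?_⟩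
        have h3 := h2.2
        unfold ex at h3
        rw [dif_pos h, val_zero'] at h3
        omega
      · rw [dif_neg h] at h1
        have h2 := hD1 p hp
        exact ⟨Or.inl (h2.1.2 (by omega)), fun h3 => h h3.1⟩
    · rintro ⟨h1, h2⟩
      have hp : p.Prime := by
        rcases h1 with h1 | h1
        · exact Nat.prime_of_mem_primeFactors h1
        · exact hM p h1
      refine ⟨hp, (hp.dvd_iff_one_le_factorization hne).2 ?_, hne⟩
      rw [hf]
      by_cases h : p ∈ M
      · rw [dif_pos h]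
        have h3 : ¬ ex M t p = 0 := fun h4 => h2 ⟨h, h4⟩
        unfold ex at h3
        rw [dif_pos h, val_zero'] at h3
        omega
      · rcases h1 with h1 | h1
        · have := (hD1 p hp).1.1 h1
          omega
        · exact absurd h1 h
  · ext p
    unfold MD M2
    rw [mem_filter, mem_filter, Nat.mem_primeFactors]
    constructor
    · rintro ⟨⟨hp, -, -⟩, hd⟩
      rw [hp.pow_dvd_iff_le_factorization hne, hf] at hd
      have h2 := (hD1 p hp).2
      by_cases h : p ∈ M
      · rw [dif_pos h, hMD p h] at hd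
        refine ⟨h, ?_⟩
        unfold ex
        rw [dif_pos h, val_two]
        have := ZMod.val_lt (t ⟨p, h⟩)
        omega
      · rw [dif_neg h] at hd
        omega
    · rintro ⟨h, h1⟩
      have hp := hM p h
      unfold ex at h1
      rw [dif_pos h, val_two] at h1
      have h2 : p ^ 2 ∣ twN D M t := by
        rw [hp.pow_dvd_iff_le_factorization hne, hf, dif_pos h, h1]
        omega
      exact ⟨⟨hp, (dvd_pow_self p (by norm_num)).trans h2, hne⟩, h2⟩

/-- the conditions for the twists of `D` with exponents in `T` -/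
def AG (M : Finset ℕ) (T : Finset ({l : ℕ // l ∈ M} → ZMod 3)) (D : ℕ) : Prop :=
  ∀ t ∈ T, NoSplit (twN D M t)

theorem ag_iff (hL : LamP) (hM : ∀ q ∈ M, q.Prime ∧ q % 9 = 1) (hC : Cls D) (hsq : Squarefree D)
    (hnd : ∀ l ∈ M, ¬ l ∣ D) (T : Finset ({l : ℕ // l ∈ M} → ZMod 3)) :
    AG M T D ↔ GJ M T (D.primeFactors ∪ M) := by
  have hA : Pre D M := ⟨fun l hl => (hM l hl).1, fun l hl => (hM l hl).2, hnd⟩
  unfold AG GJ
  refine forall₂_congr fun t _ => ?_
  obtain ⟨h1, h2⟩ := tw_facts (fun q hq => (hM q hq).1) hC.1.1 hsq hnd t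
  have hC' := tw_cls (t := t) hC hA
  rw [← h1, ← h2]
  exact ⟨gdw_of_nosplit hL hC', nosplit_of_gdw hL hC'⟩

end one

/-- the class of the `D` -/
def Cl (M : Finset ℕ) (D : ℕ) : Prop := Squarefree D ∧ Cls D ∧ ∀ l ∈ M, ¬ l ∣ D

theorem pf_prod {S : Finset ℕ} (hS : ∀ p ∈ S, p.Prime) : (∏ p ∈ S, p).primeFactors = S :=
  Nat.primeFactors_prod hS

theorem sq_prod {S : Finset ℕ} (hS : ∀ p ∈ S, p.Prime) : Squarefree (∏ p ∈ S, p) := by
  rw [Nat.squarefree_iff_factorization_le_one (prod_primes_pos hS).ne']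
  intro p
  rw [fac_prod hS]
  split_ifs <;> omega

theorem prod_m9 {M : Finset ℕ} (hM : ∀ q ∈ M, q.Prime ∧ q % 9 = 1) : (∏ p ∈ M, p) % 9 = 1 := by
  induction M using Finset.induction_on with
  | empty => rfl
  | insert a s ha ih =>
    rw [Finset.prod_insert ha, Nat.mul_mod, (hM a (mem_insert_self _ _)).2,
      ih fun q hq => hM q (mem_insert_of_mem hq)]

theorem card_bijM {M : Finset ℕ} (hM : ∀ q ∈ M, q.Prime ∧ q % 9 = 1) (X : ℕ) (P : ℕ → Prop)
    (Q : Finset ℕ → Prop) (hPQ : ∀ D, Cl M D → (P D ↔ Q (D.primeFactors ∪ M))) :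
    ((Icc 1 X).filter fun D => Cl M D ∧ P D).card =
      ((SW M (X * ∏ p ∈ M, p)).filter Q).card := by
  have hMp : ∀ q ∈ M, q.Prime := fun q hq => (hM q hq).1
  have hpos := prod_primes_pos hMp
  have h9 := prod_m9 hM
  have hdis : ∀ D, Cl M D → Disjoint D.primeFactors M := by
    intro D hD
    rw [Finset.disjoint_left]
    intro p hp hpM
    exact hD.2.2 p hpM (Nat.dvd_of_mem_primeFactors hp)
  have hself : ∀ D, Cl M D → ∏ p ∈ D.primeFactors, p = D := fun D hD =>
    Nat.prod_primeFactors_of_squarefree hD.1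
  refine Finset.card_bij (fun D _ => D.primeFactors ∪ M) ?_ ?_ ?_
  · intro D hD
    rw [mem_filter, mem_Icc] at hD
    obtain ⟨⟨h1, h2⟩, h3, h4⟩ := hD
    have h5 := hself D h3
    have h6 : ∏ p ∈ D.primeFactors ∪ M, p = D * ∏ p ∈ M, p := by
      rw [Finset.prod_union (hdis D h3), h5]
    obtain ⟨hB, h91, h98, q, hq, hq2, hqD, hall⟩ := h3.2.1
    rw [mem_filter, mem_SW, h6]
    refine ⟨⟨⟨⟨?_, ?_⟩, subset_union_right, ?_⟩, Nat.mul_le_mul_right _ h2⟩, (hPQ D h3).1 h4⟩
    · intro p hp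
      rw [mem_union] at hp
      rcases hp with hp | hp
      · refine ⟨Nat.prime_of_mem_primeFactors hp, fun h => hB.2.1 ?_⟩
        rw [← h]
        exact Nat.dvd_of_mem_primeFactors hp
      · refine ⟨hMp p hp, ?_⟩
        have := (hM p hp).2
        omega
    · rw [Finset.card_eq_one]
      refine ⟨q, ?_⟩
      ext p
      rw [mem_filter, mem_singleton, mem_union, Nat.mem_primeFactors]
      constructor
      · rintro ⟨⟨hp, hpD, -⟩ | hp, hp2⟩
        · by_contra hne
          have := hall p hp hpD hne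
          omega
        · have := (hM p hp).2
          omega
      · rintro rfl
        exact ⟨Or.inl ⟨hq, hqD, hB.1⟩, hq2⟩
    · have h7 : (D * ∏ p ∈ M, p) * (∏ p ∈ M, p) % 9 = D % 9 := by
        rw [Nat.mul_mod, Nat.mul_mod D, h9, mul_one, Nat.mod_mod, mul_one, Nat.mod_mod]
      rw [h6, h7]
      exact ⟨h91, h98⟩
  · intro D hD E hE h
    rw [mem_filter] at hD hE
    have h1 : D.primeFactors = E.primeFactors := by
      have h2 : (D.primeFactors ∪ M) \ M = (E.primeFactors ∪ M) \ M := congrArg (fun s => s \ M) h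
      rw [union_sdiff_right, union_sdiff_right, sdiff_eq_self_of_disjoint (hdis D hD.2.1),
        sdiff_eq_self_of_disjoint (hdis E hE.2.1)] at h2
      exact h2
    rw [← hself D hD.2.1, ← hself E hE.2.1, h1]
  · intro S hS
    rw [mem_filter, mem_SW] at hS
    obtain ⟨⟨⟨⟨hpr, hone⟩, hMS, h18⟩, hle⟩, hQ⟩ := hS
    have hTp : ∀ p ∈ S \ M, p.Prime := fun p hp => (hpr p (Finset.mem_sdiff.1 hp).1).1
    have hST : (∏ p ∈ S \ M, p) * ∏ p ∈ M, p = ∏ p ∈ S, p := prod_sdiff hMS
    have hpf := pf_prod hTp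
    have hU : (∏ p ∈ S \ M, p).primeFactors ∪ M = S := by
      rw [hpf, sdiff_union_of_subset hMS]
    have hnd : ∀ l ∈ M, ¬ l ∣ ∏ p ∈ S \ M, p := by
      intro l hl h
      have h1 : l ∈ (∏ p ∈ S \ M, p).primeFactors :=
        Nat.mem_primeFactors.2 ⟨hMp l hl, h, (prod_primes_pos hTp).ne'⟩
      rw [hpf, Finset.mem_sdiff] at h1
      exact h1.2 hl
    have hCl : Cl M (∏ p ∈ S \ M, p) := by
      refine ⟨sq_prod hTp, ?_, hnd⟩
      have h7 : ((∏ p ∈ S \ M, p) * ∏ p ∈ M, p) * (∏ p ∈ M, p) % 9 = (∏ p ∈ S \ M, p) % 9 := by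
        rw [Nat.mul_mod, Nat.mul_mod (∏ p ∈ S \ M, p), h9, mul_one, Nat.mod_mod, mul_one,
          Nat.mod_mod]
      rw [← hST, h7] at h18
      have h3 : ¬ 3 ∣ ∏ p ∈ S \ M, p := by
        intro h
        have h1 : 3 ∈ (∏ p ∈ S \ M, p).primeFactors :=
          Nat.mem_primeFactors.2 ⟨Nat.prime_three, h, (prod_primes_pos hTp).ne'⟩
        rw [hpf, Finset.mem_sdiff] at h1
        exact (hpr 3 h1.1).2 rfl
      obtain ⟨q, hq⟩ := Finset.card_eq_one.1 hone
      have hqm : q ∈ S.filter fun p => p % 3 = 2 := by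
        rw [hq]
        exact mem_singleton_self q
      rw [mem_filter] at hqm
      have hqM : q ∉ M := fun h => by
        have := (hM q h).2
        omega
      refine ⟨⟨(prod_primes_pos hTp).ne', h3, fun p hp h => ?_⟩, h18.1, h18.2, q,
        (hpr q hqm.1).1, hqm.2, dvd_prod_of_mem _ (Finset.mem_sdiff.2 ⟨hqm.1, hqM⟩), ?_⟩
      · rw [hp.pow_dvd_iff_le_factorization (prod_primes_pos hTp).ne', fac_prod hTp] at h
        split_ifs at h <;> omega
      · intro p hp hpD hne
        have h1 : p ∈ S \ M := by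
          rw [← hpf]
          exact Nat.mem_primeFactors.2 ⟨hp, hpD, (prod_primes_pos hTp).ne'⟩
        have hpS := (Finset.mem_sdiff.1 h1).1
        have hp3 := (hpr p hpS).2
        have h2 : p % 3 ≠ 2 := by
          intro h2
          have : p ∈ S.filter fun p => p % 3 = 2 := mem_filter.2 ⟨hpS, h2⟩
          rw [hq, mem_singleton] at this
          exact hne this
        have h4 : p % 3 ≠ 0 := by
          intro h3
          exact hp3 ((Nat.prime_dvd_prime_iff_eq Nat.prime_three hp).1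
            (Nat.dvd_of_mod_eq_zero h3)).symm
        omega
    refine ⟨∏ p ∈ S \ M, p, ?_, hU⟩
    rw [mem_filter, mem_Icc]
    refine ⟨⟨prod_primes_pos hTp, ?_⟩, hCl, ?_⟩
    · rw [← hST] at hle
      exact Nat.le_of_mul_le_mul_right hle hpos
    · rw [hPQ _ hCl, hU]
      exact hQ

/-- **The joint law for numbers.** -/
theorem law_num (hL : LamP) {M : Finset ℕ} (hM : ∀ q ∈ M, q.Prime ∧ q % 9 = 1)
    (T : Finset ({l : ℕ // l ∈ M} → ZMod 3)) {c : ℝ}
    (h : Tendsto (fun X : ℕ => (((SW M X).filter fun S => GJ M T S).card : ℝ) / ((SW M X).card : ℝ))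
      atTop (nhds c)) :
    Tendsto (fun X : ℕ => (((Icc 1 X).filter fun D => Cl M D ∧ AG M T D).card : ℝ) /
      (((Icc 1 X).filter fun D => Cl M D).card : ℝ)) atTop (nhds c) := by
  have hpos := prod_primes_pos fun q hq => (hM q hq).1
  have h1 := h.comp (tendsto_id.atTop_mul_const' hpos : Tendsto (fun X : ℕ => X * ∏ p ∈ M, p)
    atTop atTop)
  refine h1.congr fun X => ?_
  have e1 := card_bijM hM X (AG M T) (GJ M T) fun D hD => ag_iff hL hM hD.2.1 hD.1 hD.2.2 T
  have e2 := card_bijM hM X (fun _ => True) (fun _ => True) fun D hD => Iff.rfl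
  rw [Finset.filter_true] at e2
  simp only [and_true] at e2
  simp only [Function.comp_apply]
  rw [e1, e2]

end Pool.Agent.R432.JG
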