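import Pool.Agent.R432.JG.Fields

/-!
# The fields `ℚ(∛l)`, `l ∈ M`
-/

set_option autoImplicit false

open scoped Classical

namespace Pool.Agent.R432.JG

open Finset Filter Topology NumberField IsDedekindDomain
open Pool.Agent.Y703.CX (c3)
open Pool.Agent.Y703.CT (Cls NoSplit Base)
open Pool.Agent.R413.MQ.Bin (cnt cnt_card cnt_congr N)
open Pool.Agent.R432.C (ED)

theorem twN_single (D l : ℕ) (s : {x : ℕ // x ∈ ({l} : Finset ℕ)} → ZMod 3) :
    twN D {l} s = D * l ^ (s ⟨l, mem_singleton_self l⟩).val := by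
  unfold twN
  congr 1
  rw [Fintype.prod_eq_single ⟨l, mem_singleton_self l⟩]
  rintro ⟨x, hx⟩ hne
  exact absurd (Subtype.ext (mem_singleton.1 hx)) hne

/-- the condition for the prime `l` -/
theorem single_iff (D l : ℕ) : (∀ s : {x : ℕ // x ∈ ({l} : Finset ℕ)} → ZMod 3,
    NoSplit (twN D {l} s)) ↔ NoSplit D ∧ NoSplit (D * l) ∧ NoSplit (D * l ^ 2) := by
  constructor
  · intro h
    have h0 := h fun _ => 0
    have h1 := h fun _ => 1
    have h2 := h fun _ => 2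
    rw [twN_single] at h0 h1 h2
    have e1 : ((1 : ZMod 3)).val = 1 := rfl
    have e2 : ((2 : ZMod 3)).val = 2 := rfl
    rw [ZMod.val_zero, pow_zero, mul_one] at h0
    rw [e1, pow_one] at h1
    rw [e2] at h2
    exact ⟨h0, h1, h2⟩
  · rintro ⟨h0, h1, h2⟩ s
    rw [twN_single]
    have h3 := ZMod.val_lt (s ⟨l, mem_singleton_self l⟩)
    generalize (s ⟨l, mem_singleton_self l⟩).val = k at h3
    interval_cases k
    · rwa [pow_zero, mul_one]
    · rwa [pow_one]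
    · exact h2

/-- the theorem over `ℚ(∛l)` -/
theorem overOne {D l : ℕ} (hl : l.Prime) (h9 : l % 9 = 1) (hC : Cl {l} D) (h0 : NoSplit D)
    (h1 : NoSplit (D * l)) (h2 : NoSplit (D * l ^ 2)) {L : Type} [Field L] [NumberField L] (θ : L)
    (hθ : θ ^ 3 = (l : L)) (hgen : ∀ F : Subfield L, θ ∈ F → F = ⊤) :
    Module.finrank ℚ L = 3 ∧ Finite (ED ((D : ℕ) : L)).toAffine.Point ∧
    (∀ (k : ℕ) (y : Pool.Agent.TH841.NF.D.Sha (ED ((D : ℕ) : L))), 3 ^ k • y = 0 → 3 • y = 0) ∧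
    ∃ Λ : ℂ → ℂ, MeromorphicOn Λ Set.univ ∧ AnalyticAt ℂ Λ 1 ∧ Λ 1 ≠ 0 ∧
      ∀ V : HeightOneSpectrum (𝓞 L) → WeierstrassCurve (𝓞 L),
        (∀ v, Pool.Agent.H341R2.EC.IsMinAt (ED ((D : ℕ) : L)) v (V v)) → ∀ s : ℂ, 3 / 2 < s.re →
          HasProd (fun v => (Pool.Agent.R433.MD.lf V s v)⁻¹) (Λ s) := by
  have hM : ∀ q ∈ ({l} : Finset ℕ), q.Prime ∧ q % 9 = 1 := by
    intro q hq
    rw [mem_singleton] at hq
    rw [hq]
    exact ⟨hl, h9⟩
  have hS : AdmM D {l} (fun _ => 0) ∅ := by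
    constructor <;> intro x hx <;> exact absurd hx (notMem_empty x)
  have h := overL hM hC hS ((single_iff D l).2 ⟨h0, h1, h2⟩) (L := L) (fun _ => θ)
    (fun x hx => by
      rw [union_empty, mem_singleton] at hx
      rw [hx]
      exact hθ)
    (fun F hF => hgen F (hF l (by rw [union_empty]; exact mem_singleton_self l)))
  rw [union_empty, card_singleton, pow_one] at h
  exact h

/-- the number of the good primes of `M` -/
noncomputable def cntM (M : Finset ℕ) (D : ℕ) : ℕ :=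
  (M.filter fun l => NoSplit (D * l) ∧ NoSplit (D * l ^ 2)).card

theorem cntM_eq {M : Finset ℕ} {D : ℕ} (h0 : NoSplit D) :
    cntM M D = N (univ : Finset {l : ℕ // l ∈ M})
      (GU fun l : {l : ℕ // l ∈ M} => ({l.1} : Finset ℕ)) D := by
  unfold cntM N
  symm
  refine Finset.card_bij (fun i _ => i.1) ?_ (fun i _ j _ h => Subtype.ext h) ?_
  · intro i hi
    have h1 := (mem_filter.1 hi).2
    unfold GU at h1
    exact mem_filter.2 ⟨i.2, ((single_iff D i.1).1 h1).2⟩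
  · intro l hl
    rw [mem_filter] at hl
    refine ⟨⟨l, hl.1⟩, mem_filter.2 ⟨mem_univ _, ?_⟩, rfl⟩
    unfold GU
    exact (single_iff D l).2 ⟨h0, hl.2⟩

theorem joint_one {M : Finset ℕ} (hM : ∀ q ∈ M, q.Prime ∧ q % 9 = 1) :
    ∀ V ⊆ (univ : Finset {l : ℕ // l ∈ M}), Tendsto (fun X : ℕ => (cnt (Fg M)
      (fun D => ∀ i ∈ (univ : Finset {l : ℕ // l ∈ M}),
        (GU (fun l : {l : ℕ // l ∈ M} => ({l.1} : Finset ℕ)) i D ↔ i ∈ V)) X : ℝ) /
      (cnt (Fg M) (fun _ => True) X : ℝ)) atTop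
      (𝓝 ((c3 ^ 2) ^ V.card *
        (1 - c3 ^ 2) ^ ((univ : Finset {l : ℕ // l ∈ M}).card - V.card))) := by
  intro V hV
  have h := pat_U (k := 1) (U := fun l : {l : ℕ // l ∈ M} => ({l.1} : Finset ℕ)) hM
    (fun i => singleton_subset_iff.2 i.2) (fun i => card_singleton _)
    (fun i j hij => disjoint_singleton.2 fun h => hij (Subtype.ext h)) univ V hV
  norm_num at h ⊢
  exact h

end Pool.Agent.R432.JG
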